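import Pool.Agent.MP_2c73ad_mp.H42.Finite

/-! Weighted versions of the finite lemmas: square root of a Hermitian matrix above a diagonal one,
and balanced fractional assignment with unequal targets. -/

open Finset Pool.Agent.MP_2c73ad_mp.H42

namespace Pool.Agent.MP_2c73ad_mp.H67

open scoped MatrixOrder ComplexOrder Matrix.Norms.L2Operator in
theorem wsqrt {n : Type*} [Fintype n] [DecidableEq n] (S : Matrix n n ℂ) (c : n → ℝ)
    (hc : ∀ a, 0 ≤ c a) (hs : ∀ a b, (starRingEnd ℂ) (S a b) = S b a)
    (h : ∀ w : n → ℂ, ∑ a, c a / 2 * ‖w a‖ ^ 2 ≤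
      (∑ a, ∑ b, (starRingEnd ℂ) (w a) * S a b * w b).re) :
    ∃ Z : n → n → ℂ, (∀ b d, ∑ a, (starRingEnd ℂ) (Z a b) * Z a d = S b d) ∧
      (∀ a b, (starRingEnd ℂ) (Z a b) = Z b a) ∧
      ∀ a, √(c a / 2) ≤ (Z a a).re := by
  set D : Matrix n n ℂ := Matrix.diagonal fun a => ((√(c a / 2) : ℝ) : ℂ) with hD
  have hD0 : 0 ≤ D := Matrix.nonneg_iff_posSemidef.2
    (Matrix.PosSemidef.diagonal fun a => by
      show (0 : ℂ) ≤ ((√(c a / 2) : ℝ) : ℂ)
      exact_mod_cast Real.sqrt_nonneg _)
  have hDD : D * D = Matrix.diagonal fun a => ((c a / 2 : ℝ) : ℂ) := by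
    rw [hD, Matrix.diagonal_mul_diagonal]
    congr 1
    funext a
    rw [← Complex.ofReal_mul, Real.mul_self_sqrt (by linarith [hc a])]
  have hherm : S.IsHermitian := by
    ext a b
    simp only [Matrix.conjTranspose_apply]
    exact hs b a
  have hle : D * D ≤ S := by
    rw [Matrix.le_iff, hDD]
    refine Matrix.PosSemidef.of_dotProduct_mulVec_nonneg
      (hherm.sub (Matrix.isHermitian_diagonal_iff.2 fun a => by
        rw [IsSelfAdjoint]; exact Complex.conj_ofReal _)) fun w => ?_
    have e : star w ⬝ᵥ ((S - Matrix.diagonal fun a => ((c a / 2 : ℝ) : ℂ)).mulVec w) =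
        (∑ a, ∑ b, (starRingEnd ℂ) (w a) * S a b * w b) -
          ((∑ a, c a / 2 * ‖w a‖ ^ 2 : ℝ) : ℂ) := by
      rw [Matrix.sub_mulVec, dotProduct_sub]
      congr 1
      · simp only [dotProduct, Matrix.mulVec, Finset.mul_sum, mul_assoc, Pi.star_apply]
        rfl
      · simp only [dotProduct, Matrix.mulVec_diagonal, Pi.star_apply]
        push_cast
        refine Finset.sum_congr rfl fun a _ => ?_
        rw [← Complex.conj_mul']
        show (starRingEnd ℂ) (w a) * _ = _
        ring
    rw [e]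
    have him : (∑ a, ∑ b, (starRingEnd ℂ) (w a) * S a b * w b).im = 0 := by
      rw [← Complex.conj_eq_iff_im, map_sum, Finset.sum_comm]
      refine Finset.sum_congr rfl fun a _ => ?_
      rw [map_sum]
      refine Finset.sum_congr rfl fun b _ => ?_
      rw [map_mul, map_mul, hs, Complex.conj_conj]
      ring
    rw [Complex.nonneg_iff]
    constructor
    · rw [Complex.sub_re, Complex.ofReal_re]; linarith [h w]
    · rw [Complex.sub_im, Complex.ofReal_im, him]; simp
  have hDD0 : 0 ≤ D * D := by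
    rw [hDD]
    exact Matrix.nonneg_iff_posSemidef.2 (Matrix.PosSemidef.diagonal fun a => by
      show (0 : ℂ) ≤ ((c a / 2 : ℝ) : ℂ)
      exact_mod_cast (by linarith [hc a] : 0 ≤ c a / 2))
  have hS0 : 0 ≤ S := hDD0.trans hle
  set Z : Matrix n n ℂ := CFC.sqrt S with hZ
  have hZp : Z.PosSemidef := Matrix.nonneg_iff_posSemidef.1 (CFC.sqrt_nonneg S)
  have hZs : ∀ a b, (starRingEnd ℂ) (Z a b) = Z b a := fun a b => by
    have := congrFun (congrFun hZp.isHermitian b) a
    simpa using this
  have hDZ : D ≤ Z := by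
    have := CFC.sqrt_le_sqrt _ _ hle
    rwa [CFC.sqrt_unique rfl hD0] at this
  refine ⟨fun a b => Z a b, fun b d => ?_, hZs, fun a => ?_⟩
  · have := congrFun (congrFun (CFC.sqrt_mul_sqrt_self S hS0) b) d
    rw [Matrix.mul_apply] at this
    rw [← this]
    exact Finset.sum_congr rfl fun a _ => by rw [hZs a b]
  · have := (Matrix.le_iff.1 hDZ).diag_nonneg (i := a)
    rw [Matrix.sub_apply, hD, Matrix.diagonal_apply_eq, Complex.nonneg_iff, Complex.sub_re,
      Complex.ofReal_re] at this
    linarith [this.1]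

/-- clamp to the interval `[s, s']` -/
noncomputable def clp (s s' y : ℝ) : ℝ := max s (min s' y)

theorem clp_of_le {s s' y : ℝ} (h : y ≤ s) : clp s s' y = s :=
  max_eq_left ((min_le_right _ _).trans h)

theorem clp_of_ge {s s' y : ℝ} (hs : s ≤ s') (h : s' ≤ y) : clp s s' y = s' := by
  rw [clp, min_eq_left h, max_eq_right hs]

theorem clp_of_mem {s s' y : ℝ} (h0 : s ≤ y) (h : y ≤ s') : clp s s' y = y := by
  rw [clp, min_eq_right h, max_eq_right h0]

theorem clp_mono {s s' x y : ℝ} (h : x ≤ y) : clp s s' x ≤ clp s s' y :=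
  max_le_max le_rfl (min_le_min le_rfl h)

theorem sum_clp (s : ℕ → ℝ) (hs : Monotone s) (N : ℕ) (y : ℝ) (h0 : s 0 ≤ y) :
    ∑ a ∈ range N, (clp (s a) (s (a + 1)) y - s a) = min y (s N) - s 0 := by
  induction N with
  | zero => simp [min_eq_right h0]
  | succ n ih =>
    rw [Finset.sum_range_succ, ih]
    have h1 : s n ≤ s (n + 1) := hs (Nat.le_succ n)
    rcases le_total y (s n) with h | h
    · rw [clp_of_le h, min_eq_left h, min_eq_left (h.trans h1)]; ring
    · rw [min_eq_right h]
      rcases le_total y (s (n + 1)) with h' | h'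
      · rw [clp_of_mem h h', min_eq_left h']; ring
      · rw [clp_of_ge h1 h', min_eq_right h']; ring

theorem assignFin {ι : Type*} [Fintype ι] [DecidableEq ι] (N : ℕ) (hN : 0 < N) (D : Fin N → ℝ)
    (hD : ∀ a, 0 < D a) (m t : ι → ℝ) (δ τ : ℝ)
    (hm : ∀ i, 0 ≤ m i ∧ m i ≤ δ) (ht : ∀ i, 0 ≤ t i ∧ t i ≤ δ) (hmt : ∀ i, m i = 0 → t i = 0)
    (hsm : ∑ i, m i = ∑ a, D a) (hst : ∑ i, t i ≤ τ * ∑ a, D a) (hτ : τ ≤ 1) :
    ∃ lam : Fin N → ι → ℝ, (∀ a i, 0 ≤ lam a i) ∧ (∀ i, ∑ a, lam a i = 1) ∧
      (∀ a, ∑ i, lam a i * m i = D a) ∧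
      (∀ a, ∑ i with lam a i = 1, t i ≤ τ * D a + 2 * δ) ∧
      (∀ a, (univ.filter fun i => lam a i ≠ 0 ∧ lam a i ≠ 1).card ≤ 2) := by
  set z : Fin N := ⟨0, hN⟩
  set V := ∑ a, D a with hV
  have hV0 : 0 < V := Finset.sum_pos (fun a _ => hD a) ⟨z, Finset.mem_univ _⟩
  set D' : ℕ → ℝ := fun a => if h : a < N then D ⟨a, h⟩ else 0 with hD'
  have hD'0 : ∀ a, 0 ≤ D' a := fun a => by
    simp only [hD']; split_ifs
    · exact (hD _).le
    · exact le_rfl
  set s : ℕ → ℝ := fun a => ∑ b ∈ range a, D' b with hs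
  have hs0 : s 0 = 0 := by simp [hs]
  have hss : ∀ a, s (a + 1) = s a + D' a := fun a => Finset.sum_range_succ _ _
  have hsa : ∀ a : Fin N, s (a + 1) = s a + D a := fun a => by
    rw [hss]; simp [hD', a.2]
  have hmono : Monotone s := monotone_nat_of_le_succ fun a => by rw [hss]; linarith [hD'0 a]
  have hsN : s N = V := by
    simp only [hs, hV]
    rw [← Fin.sum_univ_eq_sum_range D' N]
    exact Finset.sum_congr rfl fun a _ => by simp [hD', a.2]
  set τ' : ℝ := (∑ i, t i) / V with hτ'
  have h0τ : 0 ≤ τ' := div_nonneg (Finset.sum_nonneg fun i _ => (ht i).1) hV0.le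
  have hττ : τ' ≤ τ := by rw [hτ', div_le_iff₀ hV0]; exact hst
  have hδ : 0 ≤ δ := by
    by_contra hcon
    have : IsEmpty ι := ⟨fun i => hcon ((hm i).1.trans (hm i).2)⟩
    simp at hsm
    linarith
  obtain ⟨P, h1, h2, -, h4, h5⟩ := steinitz m (fun i => t i - τ' * m i) δ (fun i => (hm i).1)
    (fun i => by
      have a := hm i
      have b := ht i
      have : τ' * m i ≤ 1 * m i := mul_le_mul_of_nonneg_right (hττ.trans hτ) a.1
      have : 0 ≤ τ' * m i := mul_nonneg h0τ a.1
      rw [abs_le]; constructor <;> linarith) univ 0 0 (by simpa using hδ)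
    (by rw [Finset.sum_sub_distrib, ← Finset.mul_sum, hsm, hτ']; field_simp; ring)
  rw [hsm] at h1 h2
  simp only [zero_add, Finset.mem_univ, forall_const] at h1 h2
  have hlt : ∀ a : Fin N, s a < s (a + 1) := fun a => by rw [hsa]; linarith [hD a]
  set ov : Fin N → ι → ℝ := fun a i =>
    clp (s a) (s (a + 1)) (P i + m i) - clp (s a) (s (a + 1)) (P i) with hov
  set lam : Fin N → ι → ℝ := fun a i => if m i = 0 then (if a = z then 1 else 0) else ov a i / m i
    with hlam
  have hov0 : ∀ a i, 0 ≤ ov a i := fun a i => sub_nonneg.2 (clp_mono (by linarith [(hm i).1]))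
  have hlm : ∀ a i, lam a i * m i = ov a i := by
    intro a i
    by_cases h : m i = 0
    · simp [hov, h]
    · simp only [hlam, if_neg h]; field_simp
  have hl0 : ∀ a i, 0 ≤ lam a i := by
    intro a i
    simp only [hlam]
    split_ifs
    · exact zero_le_one
    · exact le_rfl
    · exact div_nonneg (hov0 a i) (hm i).1
  have hsum1 : ∀ a, ∑ i, lam a i * m i = D a := by
    intro a
    simp only [hlm, hov]
    have := h2 (fun y => clp (s a) (s (a + 1)) y)
    rw [this, clp_of_ge (hlt a).le, clp_of_le, hsa]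
    · ring
    · rw [← hs0]; exact hmono (Nat.zero_le _)
    · rw [← hsN]; exact hmono a.2
  have hin : ∀ (a : Fin N) i, s a ≤ P i → P i + m i ≤ s (a + 1) → ov a i = m i := by
    intro a i ha hb
    have := (hm i).1
    simp only [hov]
    rw [clp_of_mem (by linarith) hb, clp_of_mem ha (by linarith)]; ring
  refine ⟨lam, hl0, ?_, hsum1, ?_, ?_⟩
  · intro i
    by_cases h : m i = 0
    · simp [hlam, h]
    · simp only [hlam, if_neg h]
      rw [← Finset.sum_div, div_eq_one_iff_eq h]
      have e : ∀ a : Fin N, ov a i = (clp (s a) (s (a + 1)) (P i + m i) - s a) -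
          (clp (s a) (s (a + 1)) (P i) - s a) := fun a => by simp only [hov]; ring
      simp only [e]
      rw [Finset.sum_sub_distrib,
        Fin.sum_univ_eq_sum_range (fun a => clp (s a) (s (a + 1)) (P i + m i) - s a),
        Fin.sum_univ_eq_sum_range (fun a => clp (s a) (s (a + 1)) (P i) - s a),
        sum_clp s hmono _ _ (by rw [hs0]; linarith [(h1 i).1, (hm i).1]),
        sum_clp s hmono _ _ (by rw [hs0]; exact (h1 i).1), hsN, min_eq_left (h1 i).2,
        min_eq_left (by linarith [(h1 i).2, (hm i).1])]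
      ring
  · intro a
    set U := univ.filter fun i => s a ≤ P i ∧ P i + m i ≤ s (a + 1) with hU
    have e1 : ∑ i with lam a i = 1, t i ≤ ∑ i ∈ U, t i := by
      rw [Finset.sum_filter, hU, Finset.sum_filter]
      apply Finset.sum_le_sum
      intro i _
      by_cases hl : lam a i = 1
      · rw [if_pos hl]
        by_cases h : m i = 0
        · rw [hmt i h]; simp
        · have hpos : 0 < m i := lt_of_le_of_ne (hm i).1 (Ne.symm h)
          have e : ov a i = m i := by rw [← hlm, hl, one_mul]
          simp only [hov] at e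
          rw [if_pos]
          constructor
          · by_contra hcon
            push Not at hcon
            rw [clp_of_le hcon.le] at e
            have : clp (s a) (s (a + 1)) (P i + m i) < s a + m i := by
              unfold clp
              exact max_lt (by linarith) (min_lt_of_right_lt (by linarith))
            linarith
          · by_contra hcon
            push Not at hcon
            rw [clp_of_ge (hlt a).le hcon.le] at e
            have : s (a + 1) - m i < clp (s a) (s (a + 1)) (P i) := by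
              unfold clp
              exact lt_max_of_lt_right (lt_min (by linarith) (by linarith))
            linarith
      · rw [if_neg hl]
        split_ifs
        · exact (ht i).1
        · exact le_rfl
    have e2 : ∑ i ∈ U, m i ≤ D a := by
      rw [← hsum1 a, hU, Finset.sum_filter]
      apply Finset.sum_le_sum
      intro i _
      split_ifs with h
      · rw [hlm, hin a i h.1 h.2]
      · exact mul_nonneg (hl0 a i) (hm i).1
    have e3 := h4 (s a) (s (a + 1))
    rw [Finset.sum_sub_distrib, ← Finset.mul_sum] at e3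
    have : τ' * ∑ i ∈ U, m i ≤ τ' * D a := mul_le_mul_of_nonneg_left e2 h0τ
    have : τ' * D a ≤ τ * D a := mul_le_mul_of_nonneg_right hττ (hD a).le
    linarith
  · intro a
    have hsub : (univ.filter fun i => lam a i ≠ 0 ∧ lam a i ≠ 1) ⊆
        (univ.filter fun i => P i < s a ∧ s a < P i + m i) ∪
        (univ.filter fun i => P i < s (a + 1) ∧ s (a + 1) < P i + m i) := by
      intro i hi
      simp only [Finset.mem_filter, Finset.mem_univ, true_and, Finset.mem_union] at hi ⊢
      have h : m i ≠ 0 := by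
        intro h
        simp only [hlam, if_pos h] at hi
        split_ifs at hi <;> simp at hi
      have hpos : 0 < m i := lt_of_le_of_ne (hm i).1 (Ne.symm h)
      simp only [hlam, if_neg h] at hi
      by_contra hcon
      push Not at hcon
      obtain ⟨c1, c2⟩ := hcon
      rcases lt_or_ge (P i) (s a) with ha | ha
      · apply hi.1
        have := c1 ha
        simp only [hov]
        rw [clp_of_le this, clp_of_le ha.le]; simp
      · rcases lt_or_ge (P i) (s (a + 1)) with hb | hb
        · apply hi.2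
          rw [hin a i ha (c2 hb), div_self h]
        · apply hi.1
          simp only [hov]
          rw [clp_of_ge (hlt a).le (by linarith), clp_of_ge (hlt a).le hb]; simp
    have := Finset.card_le_card hsub
    have := Finset.card_union_le
      (univ.filter fun i => P i < s a ∧ s a < P i + m i)
      (univ.filter fun i => P i < s (a + 1) ∧ s (a + 1) < P i + m i)
    have := h5 (s a)
    have := h5 (s (a + 1))
    omega

theorem assignW {ι O : Type*} [Fintype ι] [DecidableEq ι] [Fintype O] [Nonempty O] (D : O → ℝ)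
    (hD : ∀ a, 0 < D a) (m t : ι → ℝ) (δ τ : ℝ)
    (hm : ∀ i, 0 ≤ m i ∧ m i ≤ δ) (ht : ∀ i, 0 ≤ t i ∧ t i ≤ δ) (hmt : ∀ i, m i = 0 → t i = 0)
    (hsm : ∑ i, m i = ∑ a, D a) (hst : ∑ i, t i ≤ τ * ∑ a, D a) (hτ : τ ≤ 1) :
    ∃ lam : O → ι → ℝ, (∀ a i, 0 ≤ lam a i) ∧ (∀ i, ∑ a, lam a i = 1) ∧
      (∀ a, ∑ i, lam a i * m i = D a) ∧
      (∀ a, ∑ i with lam a i = 1, t i ≤ τ * D a + 2 * δ) ∧
      (∀ a, (univ.filter fun i => lam a i ≠ 0 ∧ lam a i ≠ 1).card ≤ 2) := by
  set e := Fintype.equivFin O
  have hs : ∑ a, D (e.symm a) = ∑ a, D a := Equiv.sum_comp e.symm D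
  obtain ⟨lam, h0, h1, h2, h3, h4⟩ := assignFin (Fintype.card O) Fintype.card_pos
    (fun a => D (e.symm a)) (fun a => hD _) m t δ τ hm ht hmt (by rw [hs, hsm]) (by rwa [hs]) hτ
  refine ⟨fun a => lam (e a), fun a i => h0 _ _, fun i => ?_, fun a => ?_, fun a => ?_,
    fun a => h4 _⟩
  · rw [← h1 i]; exact Equiv.sum_comp e (fun a => lam a i)
  · simpa using h2 (e a)
  · simpa using h3 (e a)

end Pool.Agent.MP_2c73ad_mp.H67
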