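import Pool.Agent.MP_2c73ad_mp.H42.Frame
import Pool.Agent.MP_2c73ad_mp.H67.Assign

/-! Correction of a nearly orthonormal unit vector field inside cores. -/

set_option linter.unusedSectionVars false

open Finset MeasureTheory Pool.Agent.MP_2c73ad_mp.H42

namespace Pool.Agent.MP_2c73ad_mp.H67

variable {X : Type*} [PseudoMetricSpace X] [MeasurableSpace X] [BorelSpace X]

theorem wphases {μ : Measure X} [IsFiniteMeasure μ] {ι : Type} [DecidableEq ι]
    {β : ι → X → ℝ} (cβ : ∀ i, Continuous (β i)) (β0 : ∀ i x, 0 ≤ β i x) (β1 : ∀ i x, β i x ≤ 1)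
    (U : Finset ι) {c y : ℝ} (hc : 0 < c) (hy : 1 / 2 ≤ y ^ 2) (hy0 : 0 ≤ y) (hy1 : y ≤ 1)
    (hmass : c ≤ ∑ i ∈ U, ∫ x, β i x ^ 2 ∂μ) (hsmall : ∀ i ∈ U, ∫ x, β i x ∂μ ≤ c / 2) :
    ∃ (γ : ℝ) (ζ : ι → ℂ), 0 ≤ γ ∧ γ ≤ 1 ∧ (∀ i, ‖ζ i‖ = 1) ∧
      ∑ i ∈ U, ∫ x, γ ^ 2 * β i x ^ 2 ∂μ = c ∧
      ∑ i ∈ U, ((∫ x, √(1 - γ ^ 2 * (1 - y ^ 2) * β i x ^ 2) * (γ * β i x) ∂μ : ℝ) : ℂ) * ζ i =
        (c * y : ℝ) := by
  set M := ∑ i ∈ U, ∫ x, β i x ^ 2 ∂μ with hM
  have hM0 : 0 < M := hc.trans_le hmass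
  set γ : ℝ := √(c / M) with hγ
  have hγ0 : 0 ≤ γ := Real.sqrt_nonneg _
  have hγ2 : γ ^ 2 = c / M := Real.sq_sqrt (by positivity)
  have hγM : γ ^ 2 * M = c := by rw [hγ2]; field_simp
  have hγ3 : γ ^ 2 ≤ 1 := by rw [hγ2, div_le_one hM0]; exact hmass
  have hγ1 : γ ≤ 1 := by nlinarith
  set k := γ ^ 2 * (1 - y ^ 2) with hk
  have hk0 : 0 ≤ k := mul_nonneg (sq_nonneg _) (by nlinarith)
  have hs1 : ∀ i x, √(1 - k * β i x ^ 2) ≤ 1 := fun i x =>
    Real.sqrt_le_one.2 (by nlinarith [sq_nonneg (β i x)])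
  have hs2 : ∀ i x, γ * y ≤ √(1 - k * β i x ^ 2) := fun i x => by
    apply Real.le_sqrt_of_sq_le
    have : β i x ^ 2 ≤ 1 := by nlinarith [β0 i x, β1 i x]
    have : k * β i x ^ 2 ≤ k * 1 := mul_le_mul_of_nonneg_left this hk0
    rw [mul_pow]
    nlinarith
  have hf0 : ∀ i x, 0 ≤ √(1 - k * β i x ^ 2) * (γ * β i x) := fun i x =>
    mul_nonneg (Real.sqrt_nonneg _) (mul_nonneg hγ0 (β0 i x))
  have hf1 : ∀ i x, √(1 - k * β i x ^ 2) * (γ * β i x) ≤ β i x := fun i x => by
    have a1 : γ * β i x ≤ β i x := mul_le_of_le_one_left (β0 i x) hγ1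
    exact (mul_le_of_le_one_left (mul_nonneg hγ0 (β0 i x)) (hs1 i x)).trans a1
  have iw : ∀ i, Integrable (fun x => √(1 - k * β i x ^ 2) * (γ * β i x)) μ := fun i =>
    int_bdd (by have := cβ i; fun_prop) 1 fun x => by
      rw [Real.norm_of_nonneg (hf0 i x)]; exact (hf1 i x).trans (β1 i x)
  have iβ : ∀ i, Integrable (fun x => β i x ^ 2) μ := fun i =>
    int_bdd ((cβ i).pow 2) 1 fun x => by
      rw [Real.norm_of_nonneg (sq_nonneg _)]; nlinarith [β0 i x, β1 i x]
  have iβ1 : ∀ i, Integrable (β i) μ := fun i =>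
    int_bdd (cβ i) 1 fun x => by rw [Real.norm_of_nonneg (β0 i x)]; exact β1 i x
  have hy2 : 1 / 2 ≤ y := by nlinarith
  set w : ι → ℝ := fun i =>
    if i ∈ U then ∫ x, √(1 - k * β i x ^ 2) * (γ * β i x) ∂μ else 0 with hw
  have hwU : ∀ i ∈ U, w i = ∫ x, √(1 - k * β i x ^ 2) * (γ * β i x) ∂μ := fun i hi => if_pos hi
  obtain ⟨ζ, hζ, hsum⟩ := phases w (c / 2) (c * y) (by positivity) (by positivity)
    (fun i => by
      by_cases hi : i ∈ U
      · rw [hwU i hi]
        exact ⟨integral_nonneg (hf0 i), (integral_mono (iw i) (iβ1 i) (hf1 i)).trans (hsmall i hi)⟩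
      · simp only [hw, if_neg hi]
        exact ⟨le_rfl, by positivity⟩) U (by nlinarith)
    (by
      rw [Finset.sum_congr rfl hwU, ← hγM, hM, Finset.mul_sum, Finset.sum_mul]
      refine Finset.sum_le_sum fun i _ => ?_
      rw [← integral_const_mul, ← integral_mul_const]
      refine integral_mono (((iβ i).const_mul _).mul_const _) (iw i) fun x => ?_
      have a1 := β0 i x
      have a2 : β i x ^ 2 ≤ β i x := by nlinarith [β1 i x]
      have a3 : γ * y * (γ * β i x) ≤ √(1 - k * β i x ^ 2) * (γ * β i x) :=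
        mul_le_mul_of_nonneg_right (hs2 i x) (mul_nonneg hγ0 a1)
      have a4 : γ ^ 2 * y * β i x ^ 2 ≤ γ ^ 2 * y * β i x :=
        mul_le_mul_of_nonneg_left a2 (by positivity)
      dsimp only
      nlinarith)
  refine ⟨γ, ζ, hγ0, hγ1, hζ, ?_, ?_⟩
  · simp only [integral_const_mul]
    rw [← Finset.mul_sum, hγM]
  · rw [← hsum]
    exact Finset.sum_congr rfl fun i hi => by rw [hwU i hi]

theorem int_gram {μ : Measure X} [IsFiniteMeasure μ] {O : Type} [Fintype O]
    {v : X → EuclideanSpace ℂ O} (hv : Continuous v) (hv1 : ∀ x, ‖v x‖ = 1) (b c : O) :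
    Integrable (fun x => (starRingEnd ℂ) (v x b) * v x c) μ :=
  int_bdd (by fun_prop) 1 fun x => by
    rw [norm_mul, Complex.norm_conj]
    exact mul_le_one₀ ((hv1 x) ▸ PiLp.norm_apply_le (v x) b) (norm_nonneg _)
      ((hv1 x) ▸ PiLp.norm_apply_le (v x) c)

theorem exists_Z {μ : Measure X} [IsFiniteMeasure μ] {O : Type} [Fintype O] [DecidableEq O]
    {v : X → EuclideanSpace ℂ O} (hv : Continuous v) (hv1 : ∀ x, ‖v x‖ = 1)
    {c : O → ℝ} (hc : ∀ a, 0 < c a) (hdiag : ∀ a, ∫ x, ‖v x a‖ ^ 2 ∂μ = 1)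
    (hform : ∀ w : O → ℂ, ∫ x, ‖∑ a, w a * v x a‖ ^ 2 ∂μ ≤ ∑ a, (1 + c a / 2) * ‖w a‖ ^ 2) :
    ∃ (Y : O → O → ℂ) (y : O → ℝ), (∀ a, Y a a = y a) ∧ (∀ a, 0 ≤ y a) ∧ (∀ a, 1 / 2 ≤ y a ^ 2) ∧
      (∀ a, ∑ b, ‖Y a b‖ ^ 2 = 1) ∧
      ∀ b d, ∑ a, (c a : ℂ) * ((starRingEnd ℂ) (Y a b) * Y a d) =
        (if b = d then ((1 + c b : ℝ) : ℂ) else 0) - ∫ x, (starRingEnd ℂ) (v x b) * v x d ∂μ := by
  set S : Matrix O O ℂ := fun b d =>
    (if b = d then ((1 + c b : ℝ) : ℂ) else 0) - ∫ x, (starRingEnd ℂ) (v x b) * v x d ∂μ with hS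
  have hSa : ∀ a, S a a = c a := fun a => by
    simp only [hS, if_true, Complex.conj_mul']
    rw [show (fun x => ((‖v x a‖ : ℝ) : ℂ) ^ 2) = fun x => ((‖v x a‖ ^ 2 : ℝ) : ℂ) from
      funext fun x => by push_cast; rfl, integral_complex_ofReal, hdiag]
    push_cast; ring
  obtain ⟨Z, hZ, hZs, hZa⟩ := wsqrt S c (fun a => (hc a).le)
    (fun a b => by
      simp only [hS, map_sub]
      rw [← integral_conj]
      congr 1
      · by_cases h : a = b
        · subst h; simp
        · simp [h, Ne.symm h]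
      · exact integral_congr_ae (Filter.Eventually.of_forall fun x => by simp [mul_comm]))
    (fun w => by
      have e : ∑ a, ∑ b, (starRingEnd ℂ) (w a) * S a b * w b =
          ((∑ a, (1 + c a) * ‖w a‖ ^ 2 - ∫ x, ‖∑ a, w a * v x a‖ ^ 2 ∂μ : ℝ) : ℂ) := by
        simp only [hS, mul_sub, sub_mul, Finset.sum_sub_distrib]
        rw [Complex.ofReal_sub]
        congr 1
        · push_cast
          refine Finset.sum_congr rfl fun a _ => ?_
          rw [Finset.sum_eq_single a (fun b _ hb => by simp [Ne.symm hb]) (by simp), if_pos rfl,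
            ← Complex.conj_mul']
          ring
        · rw [← integral_complex_ofReal]
          have e1 : ∀ x, ((‖∑ a, w a * v x a‖ ^ 2 : ℝ) : ℂ) = ∑ a, ∑ b,
              (starRingEnd ℂ) (w a) * ((starRingEnd ℂ) (v x a) * v x b) * w b := fun x => by
            push_cast
            rw [← Complex.conj_mul', map_sum, Finset.sum_mul_sum]
            exact Finset.sum_congr rfl fun a _ => Finset.sum_congr rfl fun b _ => by
              rw [map_mul]; ring
          simp only [e1]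
          have i1 : ∀ a b, Integrable (fun x =>
              (starRingEnd ℂ) (w a) * ((starRingEnd ℂ) (v x a) * v x b) * w b) μ := fun a b =>
            ((int_gram hv hv1 a b).const_mul _).mul_const _
          rw [integral_finsetSum _ fun a _ => integrable_finsetSum _ fun b _ => i1 a b]
          refine Finset.sum_congr rfl fun a _ => ?_
          rw [integral_finsetSum _ fun b _ => i1 a b]
          exact Finset.sum_congr rfl fun b _ => by rw [integral_mul_const, integral_const_mul]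
      rw [e, Complex.ofReal_re]
      have := hform w
      have e2 : ∑ a, (1 + c a) * ‖w a‖ ^ 2 =
          ∑ a, (1 + c a / 2) * ‖w a‖ ^ 2 + ∑ a, c a / 2 * ‖w a‖ ^ 2 := by
        rw [← Finset.sum_add_distrib]
        exact Finset.sum_congr rfl fun a _ => by ring
      linarith)
  have hsq : ∀ a, 0 < √(c a) := fun a => Real.sqrt_pos.2 (hc a)
  have hsq2 : ∀ a, ((√(c a) : ℝ) : ℂ) * ((√(c a) : ℝ) : ℂ) = c a := fun a => by
    rw [← Complex.ofReal_mul, Real.mul_self_sqrt (hc a).le]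
  have hne : ∀ a, ((√(c a) : ℝ) : ℂ) ≠ 0 := fun a => by exact_mod_cast (hsq a).ne'
  refine ⟨fun a b => Z a b / (√(c a) : ℝ), fun a => (Z a a).re / √(c a), fun a => ?_,
    fun a => div_nonneg ((Real.sqrt_nonneg _).trans (hZa a)) (hsq a).le, fun a => ?_,
    fun a => ?_, fun b d => ?_⟩
  · push_cast
    rw [Complex.conj_eq_iff_re.1 (hZs a a)]
  · rw [div_pow, Real.sq_sqrt (hc a).le, le_div_iff₀ (hc a)]
    have h1 := pow_le_pow_left₀ (Real.sqrt_nonneg _) (hZa a) 2
    rw [Real.sq_sqrt (by linarith [hc a])] at h1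
    linarith
  · have e : ((∑ b, ‖Z a b‖ ^ 2 : ℝ) : ℂ) = c a := by
      rw [← hSa, ← hZ a a]
      push_cast
      exact Finset.sum_congr rfl fun b _ => by
        rw [Complex.conj_mul', ← hZs a b, Complex.norm_conj]
    have e' : ∑ b, ‖Z a b‖ ^ 2 = c a := by exact_mod_cast e
    simp only [norm_div, div_pow, Complex.norm_real, Real.norm_eq_abs, sq_abs,
      Real.sq_sqrt (hc a).le]
    rw [← Finset.sum_div, e', div_self (hc a).ne']
  · show _ = S b d
    rw [← hZ b d]
    refine Finset.sum_congr rfl fun a _ => ?_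
    rw [map_div₀, Complex.conj_ofReal, ← hsq2 a]
    have := hne a
    field_simp

open EuclideanSpace in
theorem correct {μ : Measure X} [IsFiniteMeasure μ] {O : Type} [Fintype O] [DecidableEq O]
    {ι : Type} [Fintype ι] [DecidableEq ι]
    {v : X → EuclideanSpace ℂ O} (hv : Continuous v) (hv1 : ∀ x, ‖v x‖ = 1)
    {β : ι → X → ℝ} (cβ : ∀ i, Continuous (β i)) (β0 : ∀ i x, 0 ≤ β i x) (β1 : ∀ i x, β i x ≤ 1)
    (huq : ∀ i k x, β i x ≠ 0 → β k x ≠ 0 → i = k) (U : O → Finset ι)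
    (hcore : ∀ a, ∀ i ∈ U a, ∀ x, β i x ≠ 0 → ∀ b, v x b = if b = a then 1 else 0)
    {c : O → ℝ} (hc : ∀ a, 0 < c a) (hmass : ∀ a, c a ≤ ∑ i ∈ U a, ∫ x, β i x ^ 2 ∂μ)
    (hsmall : ∀ a, ∀ i ∈ U a, ∫ x, β i x ∂μ ≤ c a / 2)
    (hdiag : ∀ a, ∫ x, ‖v x a‖ ^ 2 ∂μ = 1)
    (hform : ∀ w : O → ℂ, ∫ x, ‖∑ a, w a * v x a‖ ^ 2 ∂μ ≤ ∑ a, (1 + c a / 2) * ‖w a‖ ^ 2)
    {m : X → X → ℝ} (hm0 : ∀ x y, 0 ≤ m x y) (hm : ∀ i x y, |β i y - β i x| ≤ m x y) :
    ∃ h : X → EuclideanSpace ℂ O, (∀ x, ‖v x + h x‖ = 1) ∧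
      (∀ b d, ∫ x, (starRingEnd ℂ) ((v x + h x) b) * (v x + h x) d ∂μ = if b = d then 1 else 0) ∧
      (∀ x, (∀ i, β i x = 0) → h x = 0) ∧ ∀ x y, ‖h y - h x‖ ≤ 4 * m x y := by
  obtain ⟨Y, y, hYa, hy0, hy5, hY1, hY⟩ := exists_Z hv hv1 hc hdiag hform
  have hYle : ∀ a, y a ^ 2 ≤ 1 := fun a => by
    rw [← hY1 a]
    have := Finset.single_le_sum (f := fun b => ‖Y a b‖ ^ 2) (fun _ _ => sq_nonneg _)
      (Finset.mem_univ a)
    simpa [hYa] using this
  choose γ ζ hγ0 hγ1 hζ hA hB using fun a => wphases (μ := μ) cβ β0 β1 (U a) (hc a) (hy5 a) (hy0 a)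
    (by nlinarith [hYle a, hy0 a]) (hmass a) (hsmall a)
  set k : O → ℝ := fun a => γ a ^ 2 * (1 - y a ^ 2) with hk
  have hk0 : ∀ a, 0 ≤ k a := fun a => mul_nonneg (sq_nonneg _) (by linarith [hYle a])
  have hk1 : ∀ a, k a ≤ 1 / 2 := fun a => by
    have : γ a ^ 2 ≤ 1 := by nlinarith [hγ0 a, hγ1 a]
    simp only [hk]; nlinarith [hy5 a, hYle a, sq_nonneg (γ a)]
  set z : O → O → ℂ := fun a b => if b = a then 0 else Y a b with hz
  have hz2 : ∀ a, ∑ b, ‖z a b‖ ^ 2 = 1 - y a ^ 2 := fun a => by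
    rw [← hY1 a, ← Finset.add_sum_erase _ _ (Finset.mem_univ a),
      ← Finset.add_sum_erase _ (fun b => ‖Y a b‖ ^ 2) (Finset.mem_univ a)]
    simp only [hz, if_true]
    rw [Finset.sum_congr rfl (g := fun b => ‖Y a b‖ ^ 2)]
    · simp [hYa]
    · intro b hb; rw [if_neg (Finset.ne_of_mem_erase hb)]
  set Z : O → EuclideanSpace ℂ O := fun a => WithLp.toLp 2 fun b => z a b with hZ
  have hZn : ∀ a, ‖Z a‖ ≤ 1 := fun a => by
    apply le_of_sq_le_sq' zero_le_one
    rw [EuclideanSpace.norm_sq_eq]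
    simp only [hZ, hz2]
    nlinarith [sq_nonneg (y a)]
  set P : O → ι → ℝ → EuclideanSpace ℂ O := fun a i t =>
    ((√(1 - k a * t ^ 2) - 1 : ℝ) : ℂ) • EuclideanSpace.single a (1 : ℂ) +
      (((γ a * t : ℝ) : ℂ) * ζ a i) • Z a with hP
  have hP0 : ∀ a i, P a i 0 = 0 := fun a i => by simp [hP]
  have hPl : ∀ a i t t', 0 ≤ t → t ≤ 1 → 0 ≤ t' → t' ≤ 1 → ‖P a i t - P a i t'‖ ≤ 2 * |t - t'| := by
    intro a i t t' a0 a1 b0 b1
    have e : P a i t - P a i t' =
        ((√(1 - k a * t ^ 2) - √(1 - k a * t' ^ 2) : ℝ) : ℂ) • EuclideanSpace.single a (1 : ℂ) +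
        (((γ a * (t - t') : ℝ) : ℂ) * ζ a i) • Z a := by
      simp only [hP]
      push_cast
      module
    rw [e]
    refine (norm_add_le _ _).trans ?_
    rw [norm_smul, norm_smul, norm_mul, hζ, Complex.norm_real, Complex.norm_real,
      PiLp.norm_single, norm_one, mul_one, mul_one, Real.norm_eq_abs, Real.norm_eq_abs,
      abs_mul, abs_of_nonneg (hγ0 a)]
    have c1 := sqrt_one_sub_lip (hk0 a) (hk1 a) a0 a1 b0 b1
    have c3 : γ a * |t - t'| * ‖Z a‖ ≤ 1 * |t - t'| * 1 := by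
      gcongr
      · exact hγ1 a
      · exact hZn a
    linarith
  set I : Finset (Σ _ : O, ι) := univ.sigma U with hI
  set h : X → EuclideanSpace ℂ O := fun x => ∑ p ∈ I, P p.1 p.2 (β p.2 x) with hh
  have huniq : ∀ x, ∀ p ∈ I, ∀ q ∈ I, β p.2 x ≠ 0 → β q.2 x ≠ 0 → q = p := by
    rintro x ⟨a, i⟩ hp ⟨b, j⟩ hq h1 h2
    simp only [hI, Finset.mem_sigma, Finset.mem_univ, true_and] at hp hq
    have e := huq _ _ x h2 h1
    simp only at e h1 h2
    subst e
    have c1 := hcore a j hp x h1 a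
    have c2 := hcore b j hq x h1 a
    rw [if_pos rfl] at c1
    have : a = b := by
      by_contra hcon
      rw [if_neg hcon] at c2
      rw [c1] at c2
      exact one_ne_zero c2
    subst this
    rfl
  set Q : O → ι → ℝ → O → O → ℂ := fun a i t b c =>
    ((γ a ^ 2 * t ^ 2 : ℝ) : ℂ) * ((starRingEnd ℂ) (z a b) * z a c - ((1 - y a ^ 2 : ℝ) : ℂ) *
      ((if b = a then 1 else 0) * (if c = a then 1 else 0))) +
    ((√(1 - k a * t ^ 2) * (γ a * t) : ℝ) : ℂ) *
      (ζ a i * ((if b = a then 1 else 0) * z a c) +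
        (starRingEnd ℂ) (ζ a i) * ((starRingEnd ℂ) (z a b) * (if c = a then 1 else 0))) with hQ
  have hQ0 : ∀ a i b c, Q a i 0 b c = 0 := fun a i b c => by simp [hQ]
  have hgram : ∀ x b c, (starRingEnd ℂ) ((v x + h x) b) * (v x + h x) c =
      (starRingEnd ℂ) (v x b) * v x c + ∑ p ∈ I, Q p.1 p.2 (β p.2 x) b c := by
    intro x b c
    by_cases hx : ∃ p ∈ I, β p.2 x ≠ 0
    · obtain ⟨p, hp, hpx⟩ := hx
      have hz0 : ∀ q ∈ I, q ≠ p → β q.2 x = 0 := fun q hq hne => by
        by_contra hcon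
        exact hne (huniq x p hp q hq hpx hcon)
      have e1 : ∑ q ∈ I, P q.1 q.2 (β q.2 x) = P p.1 p.2 (β p.2 x) :=
        Finset.sum_eq_single_of_mem p hp fun q hq hne => by rw [hz0 q hq hne, hP0]
      have e2 : ∑ q ∈ I, Q q.1 q.2 (β q.2 x) b c = Q p.1 p.2 (β p.2 x) b c :=
        Finset.sum_eq_single_of_mem p hp fun q hq hne => by rw [hz0 q hq hne, hQ0]
      obtain ⟨a, i⟩ := p
      have hc := hcore a i (by simpa [hI] using hp) x hpx
      simp only at e1 e2 hpx
      set t := β i x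
      have ht : t ^ 2 ≤ 1 := by nlinarith [β0 i x, β1 i x]
      have hsq : √(1 - k a * t ^ 2) ^ 2 = 1 - k a * t ^ 2 :=
        Real.sq_sqrt (by nlinarith [hk1 a, hk0 a, sq_nonneg t])
      have hsq' : ((√(1 - k a * t ^ 2) : ℝ) : ℂ) ^ 2 =
          1 - (γ a : ℂ) ^ 2 * (1 - (y a : ℂ) ^ 2) * (t : ℂ) ^ 2 := by
        have := congrArg (fun r : ℝ => (r : ℂ)) hsq
        simp only [hk] at this ⊢
        push_cast at this
        exact this
      have hζ' : (starRingEnd ℂ) (ζ a i) * ζ a i = 1 := by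
        rw [Complex.conj_mul', hζ]; simp
      have hv' : ∀ b, (v x + h x) b = (if b = a then ((√(1 - k a * t ^ 2) : ℝ) : ℂ) else 0) +
          ((γ a * t : ℝ) : ℂ) * ζ a i * z a b := by
        intro b
        have e3 : h x = P a i t := by simp only [hh]; rw [e1]
        rw [e3]
        simp only [hP, hZ, PiLp.add_apply, PiLp.smul_apply, hc, smul_eq_mul,
          PiLp.single_apply]
        split_ifs <;> push_cast <;> ring
      rw [e2, hv', hv', hc, hc]
      simp only [hQ, map_add, map_mul, Complex.conj_ofReal]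
      have hza : z a a = 0 := by simp [hz]
      by_cases hb : b = a <;> by_cases hc' : c = a
      · subst hb; subst hc'
        simp only [if_true, hza, Complex.conj_ofReal, map_zero, map_one]
        push_cast
        linear_combination hsq'
      · subst hb
        simp only [if_true, if_neg hc', hza, Complex.conj_ofReal, map_zero, map_one]
        push_cast
        ring
      · subst hc'
        simp only [if_true, if_neg hb, hza, map_zero]
        push_cast
        ring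
      · simp only [if_neg hb, if_neg hc', map_zero]
        push_cast
        linear_combination ((γ a : ℂ) ^ 2 * (t : ℂ) ^ 2 * (starRingEnd ℂ) (z a b) * z a c) * hζ'
    · push Not at hx
      have e1 : ∑ q ∈ I, P q.1 q.2 (β q.2 x) = 0 :=
        Finset.sum_eq_zero fun q hq => by rw [hx q hq, hP0]
      have e2 : ∑ q ∈ I, Q q.1 q.2 (β q.2 x) b c = 0 :=
        Finset.sum_eq_zero fun q hq => by rw [hx q hq, hQ0]
      simp only [hh, e1, e2, add_zero]
  have htr : ∀ a i t, ∑ b, Q a i t b b = 0 := by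
    intro a i t
    have hza : z a a = 0 := by simp [hz]
    have e1 : ∑ b, (starRingEnd ℂ) (z a b) * z a b = ((1 - y a ^ 2 : ℝ) : ℂ) := by
      rw [← hz2]; push_cast
      exact Finset.sum_congr rfl fun b _ => Complex.conj_mul' _
    simp only [hQ]
    rw [Finset.sum_add_distrib, ← Finset.mul_sum, ← Finset.mul_sum, Finset.sum_add_distrib,
      ← Finset.mul_sum, ← Finset.mul_sum, Finset.sum_sub_distrib, ← Finset.mul_sum, e1]
    simp [hza]
  refine ⟨h, ?_, ?_, ?_, ?_⟩
  · intro x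
    rw [← pow_left_inj₀ (norm_nonneg _) zero_le_one two_ne_zero, EuclideanSpace.norm_sq_eq]
    have e : ((∑ b, ‖(v x + h x) b‖ ^ 2 : ℝ) : ℂ) = ((∑ b, ‖v x b‖ ^ 2 : ℝ) : ℂ) := by
      push_cast
      simp only [← Complex.conj_mul', hgram]
      rw [Finset.sum_add_distrib, Finset.sum_comm]
      simp only [htr, Finset.sum_const_zero, add_zero]
    rw [← EuclideanSpace.norm_sq_eq (v x), hv1 x] at e
    exact_mod_cast e
  · intro b d
    have i1 : ∀ a i, Integrable (fun x => γ a ^ 2 * β i x ^ 2) μ := fun a i =>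
      (int_bdd (f := fun x => β i x ^ 2) ((cβ i).pow 2) 1 fun x => by
        rw [Real.norm_of_nonneg (sq_nonneg _)]; nlinarith [β0 i x, β1 i x]).const_mul _
    have i2 : ∀ a i, Integrable (fun x => √(1 - k a * β i x ^ 2) * (γ a * β i x)) μ := fun a i =>
      int_bdd (by have := cβ i; fun_prop) 1 fun x => by
        have s1 : √(1 - k a * β i x ^ 2) ≤ 1 :=
          Real.sqrt_le_one.2 (by nlinarith [sq_nonneg (β i x), hk0 a])
        rw [Real.norm_of_nonneg
          (mul_nonneg (Real.sqrt_nonneg _) (mul_nonneg (hγ0 a) (β0 i x)))]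
        exact mul_le_one₀ s1 (mul_nonneg (hγ0 a) (β0 i x))
          (mul_le_one₀ (hγ1 a) (β0 i x) (β1 i x))
    have i3 : ∀ a i, Integrable (fun x => Q a i (β i x) b d) μ := fun a i =>
      ((i1 a i).ofReal.mul_const _).add ((i2 a i).ofReal.mul_const _)
    simp only [hgram]
    rw [integral_add (int_gram hv hv1 b d) (integrable_finsetSum _ fun p _ => i3 p.1 p.2),
      integral_finsetSum _ fun p _ => i3 p.1 p.2, hI, Finset.sum_sigma]
    have e : ∀ a, ∑ i ∈ U a, ∫ x, Q a i (β i x) b d ∂μ =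
        (c a : ℂ) * ((starRingEnd ℂ) (Y a b) * Y a d) -
          (c a : ℂ) * ((if b = a then 1 else 0) * (if d = a then 1 else 0)) := by
      intro a
      have e1 : ∀ i, ∫ x, Q a i (β i x) b d ∂μ =
          ((∫ x, γ a ^ 2 * β i x ^ 2 ∂μ : ℝ) : ℂ) * ((starRingEnd ℂ) (z a b) * z a d -
            ((1 - y a ^ 2 : ℝ) : ℂ) * ((if b = a then 1 else 0) * (if d = a then 1 else 0))) +
          (((∫ x, √(1 - k a * β i x ^ 2) * (γ a * β i x) ∂μ : ℝ) : ℂ) * ζ a i *
            ((if b = a then 1 else 0) * z a d) +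
          (starRingEnd ℂ) (((∫ x, √(1 - k a * β i x ^ 2) * (γ a * β i x) ∂μ : ℝ) : ℂ) * ζ a i) *
            ((starRingEnd ℂ) (z a b) * (if d = a then 1 else 0))) := by
        intro i
        simp only [hQ]
        rw [integral_add ((i1 a i).ofReal.mul_const _) ((i2 a i).ofReal.mul_const _),
          integral_mul_const, integral_mul_const, integral_complex_ofReal,
          integral_complex_ofReal, map_mul, Complex.conj_ofReal]
        ring
      simp only [e1]
      rw [Finset.sum_add_distrib, Finset.sum_add_distrib, ← Finset.sum_mul, ← Finset.sum_mul,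
        ← Finset.sum_mul, ← map_sum, ← Complex.ofReal_sum, hA a, hB a, Complex.conj_ofReal]
      simp only [hz]
      by_cases hb : b = a <;> by_cases hd : d = a
      · subst hb; subst hd
        simp only [if_true, hYa, Complex.conj_ofReal, map_zero]
        push_cast; ring
      · subst hb
        simp only [if_true, if_neg hd, hYa, Complex.conj_ofReal, map_zero]
        push_cast; ring
      · subst hd
        simp only [if_true, if_neg hb, hYa]
        push_cast; ring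
      · simp only [if_neg hb, if_neg hd]
        push_cast; ring
    simp only [e]
    rw [Finset.sum_sub_distrib, hY]
    by_cases hbc : b = d
    · subst hbc; simp; ring
    · have : ∑ a, (c a : ℂ) * ((if b = a then (1 : ℂ) else 0) * (if d = a then 1 else 0)) = 0 :=
        Finset.sum_eq_zero fun a _ => by
          by_cases hb : b = a
          · rw [if_neg (fun hc : d = a => hbc (hb.trans hc.symm)), mul_zero, mul_zero]
          · rw [if_neg hb, zero_mul, mul_zero]
      rw [this]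
      simp [hbc]
  · intro x hx
    exact Finset.sum_eq_zero fun q _ => by rw [hx, hP0]
  · intro x y
    have hd := hm0 x y
    have e : h y - h x =
        ∑ p ∈ I with (β p.2 x ≠ 0 ∨ β p.2 y ≠ 0), (P p.1 p.2 (β p.2 y) - P p.1 p.2 (β p.2 x)) := by
      rw [Finset.sum_filter_of_ne, Finset.sum_sub_distrib]
      intro p _ hne
      by_contra hcon
      push Not at hcon
      rw [hcon.1, hcon.2, sub_self] at hne
      exact hne rfl
    have c2 : (I.filter fun p => β p.2 x ≠ 0 ∨ β p.2 y ≠ 0).card ≤ 2 := by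
      rw [Finset.filter_or]
      refine (Finset.card_union_le _ _).trans ?_
      have : ∀ w, (I.filter fun p => β p.2 w ≠ 0).card ≤ 1 := fun w =>
        Finset.card_le_one.2 fun p hp q hq =>
          huniq w q (Finset.mem_filter.1 hq).1 p (Finset.mem_filter.1 hp).1
            (Finset.mem_filter.1 hq).2 (Finset.mem_filter.1 hp).2
      linarith [this x, this y]
    rw [e]
    refine (norm_sum_le _ _).trans ?_
    refine (Finset.sum_le_card_nsmul _ _ (2 * m x y) fun p _ => ?_).trans ?_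
    · refine (hPl _ _ _ _ (β0 _ _) (β1 _ _) (β0 _ _) (β1 _ _)).trans ?_
      linarith [hm p.2 x y]
    · rw [nsmul_eq_mul]
      have : ((I.filter fun p => β p.2 x ≠ 0 ∨ β p.2 y ≠ 0).card : ℝ) ≤ 2 := by exact_mod_cast c2
      nlinarith

end Pool.Agent.MP_2c73ad_mp.H67
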