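import Pool.Agent.MP_2c73ad_mp.H42.Grid
import Pool.Agent.MP_2c73ad_mp.H67.Correct

/-! Gluing a real family of waves to a partition into small atoms. -/

set_option linter.unusedSectionVars false

open Finset MeasureTheory Metric Pool.Agent.MP_2c73ad_mp.H42

namespace Pool.Agent.MP_2c73ad_mp.H67

variable {X : Type*} [PseudoMetricSpace X] [MeasurableSpace X] [BorelSpace X]

/-- A real family `p` of waves, the amplitude `cB` left for the atoms, and a cutoff `κ` that
vanishes where the waves live. -/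
structure Plane (μ : Measure X) {O : Type} [Fintype O] (θ e : ℝ) (p : O → X → ℝ)
    (cB κ : X → ℝ) : Prop where
  cp : ∀ a, Continuous (p a)
  ccB : Continuous cB
  cκ : Continuous κ
  cB0 : ∀ x, 0 ≤ cB x
  one : ∀ x, ∑ a, p a x ^ 2 + cB x ^ 2 = 1
  κ0 : ∀ x, 0 ≤ κ x
  κ1 : ∀ x, κ x ≤ 1
  free : ∀ x, κ x ≠ 0 → cB x = 1
  mass : ∀ a, ∫ x, p a x ^ 2 ∂μ ≤ 1 - θ
  form : ∀ w : O → ℝ, ∫ x, (∑ a, w a * p a x) ^ 2 ∂μ ≤ ∑ a, w a ^ 2 * (∫ x, p a x ^ 2 ∂μ + e)
  zone : ∀ w : O → ℝ, ∫ x in {x | cB x ≠ 0}, (∑ a, w a * p a x) ^ 2 ∂μ ≤ e * ∑ a, w a ^ 2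
  shell : ∫ x in {x | κ x ≠ 1}, cB x ^ 2 ∂μ ≤ e * Fintype.card O

/-- weighted groups of atoms -/
theorem wgroups {ν ν' : Measure X} [IsFiniteMeasure ν] {N' : ℕ} {L : X → ℝ} {ι : Type} [Fintype ι]
    [DecidableEq ι] {ψ β : ι → X → ℝ} (h : Atoms ν' N' L ψ β) {O : Type} [Fintype O]
    [DecidableEq O] [Nonempty O] {κ : X → ℝ} (cκ : Continuous κ)
    {D : O → ℝ} (hD : ∀ a, 0 < D a) (hV : ν.real Set.univ = ∑ a, D a) {δ : ℝ}
    (hsm : ∀ i, ν.real {x | ψ i x ≠ 0} ≤ δ)
    (htr : ∑ i, ν.real ({x | ψ i x ≠ 0} \ {x | β i x = 1}) + ν.real {x | κ x ≠ 1} ≤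
      1 / 16 * ∑ a, D a) :
    ∃ (g : O → X → ℝ) (U : O → Finset ι) (B : O → Set X), (∀ a, Continuous (g a)) ∧
      (∀ a x, 0 ≤ g a x) ∧ (∀ x, ∑ a, g a x ^ 2 = 1) ∧ (∀ a, ∫ x, g a x ^ 2 ∂ν = D a) ∧
      (∀ a, ∀ i ∈ U a, ∀ x, β i x ≠ 0 → ∀ b, g b x = if b = a then 1 else 0) ∧
      (∀ a, MeasurableSet (B a)) ∧ (∀ a, ν.real (B a) ≤ 1 / 16 * D a + 4 * δ) ∧
      (∀ a x, x ∉ B a → g a x = 0 ∨ ∃ i ∈ U a, β i x * κ x = 1) ∧
      ∀ x y, ∑ a, (g a y - g a x) ^ 2 ≤ (L x * dist y x) ^ 2 := by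
  set S : ι → Set X := fun i => {x | ψ i x ≠ 0} with hS
  set T : ι → Set X := fun i => {x | ψ i x ≠ 0} \ {x | β i x * κ x = 1} with hT
  have mS : ∀ i, MeasurableSet (S i) := fun i =>
    (isOpen_ne_fun (h.cψ i) continuous_const).measurableSet
  have mT : ∀ i, MeasurableSet (T i) := fun i =>
    (mS i).diff (isClosed_eq ((h.cβ i).mul cκ) continuous_const).measurableSet
  have iψ : ∀ i, Integrable (fun x => ψ i x ^ 2) ν := fun i =>
    int_bdd ((h.cψ i).pow 2) 1 fun x => by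
      rw [Real.norm_of_nonneg (sq_nonneg _)]; exact h.ψ_le i x
  have hmS : ∀ i, ∫ x, ψ i x ^ 2 ∂ν ≤ ν.real (S i) := fun i =>
    integral_le_of_indicator (iψ i) (mS i) (h.ψ_le i) fun x hx => by
      have : ψ i x = 0 := by simpa [hS] using hx
      simp [this]
  have hTS : ∀ i, ν.real (T i) ≤ ν.real (S i) := fun i => measureReal_mono Set.sdiff_subset
  have hsumT : ∑ i, ν.real (T i) ≤ 1 / 16 * ∑ a, D a := by
    refine le_trans ?_ htr
    set W : ι → Set X := fun i => {x | β i x = 1} ∩ {x | κ x ≠ 1} with hW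
    have mW : ∀ i, MeasurableSet (W i) := fun i =>
      (isClosed_eq (h.cβ i) continuous_const).measurableSet.inter
        (isOpen_ne_fun cκ continuous_const).measurableSet
    have e1 : ∀ i, ν.real (T i) ≤ ν.real ({x | ψ i x ≠ 0} \ {x | β i x = 1}) + ν.real (W i) := by
      intro i
      refine le_trans (measureReal_mono ?_) (measureReal_union_le _ _)
      rintro x ⟨h1, h2⟩
      by_cases hb : β i x = 1
      · right
        refine ⟨hb, fun hk => h2 ?_⟩
        show β i x * κ x = 1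
        rw [hb, hk, mul_one]
      · exact Or.inl ⟨h1, hb⟩
    have e2 : ∑ i, ν.real (W i) ≤ ν.real {x | κ x ≠ 1} := by
      rw [← measureReal_biUnion_finset (fun i _ k _ hik => ?_) (fun i _ => mW i)]
      · exact measureReal_mono (Set.iUnion₂_subset fun i _ => Set.inter_subset_right)
      · refine Set.disjoint_left.2 fun x hi hk => hik ?_
        exact (h.β_unique (x := x) (by rw [hi.1]; exact one_ne_zero)
          (by rw [hk.1]; exact one_ne_zero)).symm
    refine (Finset.sum_le_sum fun i _ => e1 i).trans ?_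
    rw [Finset.sum_add_distrib]
    linarith
  obtain ⟨lam, l0, l1, lm, lt, lc⟩ := assignW D hD (fun i => ∫ x, ψ i x ^ 2 ∂ν)
    (fun i => ν.real (T i)) δ (1 / 16)
    (fun i => ⟨integral_nonneg fun x => sq_nonneg _, (hmS i).trans (hsm i)⟩)
    (fun i => ⟨measureReal_nonneg, (hTS i).trans (hsm i)⟩)
    (fun i hi => by
      have := (integral_eq_zero_iff_of_nonneg (fun x => sq_nonneg (ψ i x)) (iψ i)).1 hi
      have h0 : ν (S i) = 0 := by
        rw [Filter.EventuallyEq, ae_iff] at this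
        convert this using 2
        ext x; simp [hS]
      have : ν.real (S i) = 0 := by simp [Measure.real, h0]
      exact le_antisymm (this ▸ hTS i) measureReal_nonneg)
    (by
      rw [← integral_finsetSum _ fun i _ => iψ i]
      simp [h.ψ1, hV])
    hsumT (by norm_num)
  have hnn : ∀ a x, 0 ≤ ∑ i, lam a i * ψ i x ^ 2 := fun a x =>
    Finset.sum_nonneg fun i _ => mul_nonneg (l0 a i) (sq_nonneg _)
  have hone : ∀ a i, lam a i = 1 → ∀ b, lam b i = if b = a then 1 else 0 := by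
    intro a i ha b
    split_ifs with hb
    · rw [hb, ha]
    · have h1 := l1 i
      rw [← Finset.add_sum_erase _ _ (Finset.mem_univ a), ha] at h1
      have h2 : ∑ c ∈ univ.erase a, lam c i = 0 := by linarith
      exact (Finset.sum_eq_zero_iff_of_nonneg fun c _ => l0 c i).1 h2 b (by simp [hb])
  refine ⟨fun a x => √(∑ i, lam a i * ψ i x ^ 2), fun a => univ.filter fun i => lam a i = 1,
    fun a => (⋃ i ∈ univ.filter fun i => lam a i = 1, T i) ∪
      ⋃ i ∈ univ.filter fun i => lam a i ≠ 0 ∧ lam a i ≠ 1, S i, ?_, ?_, ?_, ?_, ?_, ?_, ?_, ?_, ?_⟩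
  · intro a
    have := h.cψ
    fun_prop
  · intro a x; exact Real.sqrt_nonneg _
  · intro x
    simp only [Real.sq_sqrt (hnn _ _)]
    rw [Finset.sum_comm]
    simp only [← Finset.sum_mul, l1, one_mul, h.ψ1]
  · intro a
    simp only [Real.sq_sqrt (hnn _ _)]
    rw [integral_finsetSum _ fun i _ => (iψ i).const_mul _]
    simp only [integral_const_mul]
    exact lm a
  · intro a i hi x hx b
    dsimp only at hi ⊢
    rw [Finset.sum_eq_single i, h.ψ_one hx, hone a i (Finset.mem_filter.1 hi).2 b]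
    · split_ifs <;> simp
    · intro k _ hk; rw [h.alone i x hx k hk]; simp
    · simp
  · intro a
    exact (Finset.measurableSet_biUnion _ fun i _ => mT i).union
      (Finset.measurableSet_biUnion _ fun i _ => mS i)
  · intro a
    refine (measureReal_union_le _ _).trans ?_
    have e1 := (measureReal_biUnion_finset_le (μ := ν)
      (univ.filter fun i => lam a i = 1) T).trans (lt a)
    have e2 := measureReal_biUnion_finset_le (μ := ν)
      (univ.filter fun i => lam a i ≠ 0 ∧ lam a i ≠ 1) S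
    have e3 : ∑ i ∈ univ.filter fun i => lam a i ≠ 0 ∧ lam a i ≠ 1, ν.real (S i) ≤ 2 * δ := by
      refine (Finset.sum_le_card_nsmul _ _ δ fun i _ => hsm i).trans ?_
      rw [nsmul_eq_mul]
      have : ((univ.filter fun i => lam a i ≠ 0 ∧ lam a i ≠ 1).card : ℝ) ≤ 2 := by
        exact_mod_cast lc a
      have hδ : 0 ≤ δ := by
        by_contra hcon
        have : IsEmpty ι := ⟨fun i => hcon (measureReal_nonneg.trans (hsm i))⟩
        have h1 := lm a
        simp at h1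
        linarith [hD a]
      exact mul_le_mul_of_nonneg_right this hδ
    linarith
  · intro a x hx
    by_cases h0 : ∃ i, lam a i ≠ 0 ∧ ψ i x ≠ 0
    · obtain ⟨i, hi, hix⟩ := h0
      right
      simp only [Set.mem_union, Set.mem_iUnion, Finset.mem_filter, Finset.mem_univ, true_and,
        not_or, not_exists] at hx
      have h1 : lam a i = 1 := by
        by_contra hcon
        exact hx.2 i ⟨hi, hcon⟩ hix
      refine ⟨i, by simp [h1], ?_⟩
      by_contra hcon
      exact hx.1 i h1 ⟨hix, hcon⟩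
    · left
      push Not at h0
      dsimp only
      rw [Finset.sum_eq_zero, Real.sqrt_zero]
      intro i _
      by_cases hi : lam a i = 0
      · simp [hi]
      · simp [h0 i hi]
  · intro x y
    refine le_trans ?_ (h.lψ x y)
    refine (Finset.sum_le_sum fun a _ => sqrt_sum_lip (lam a) _ _ (l0 a)).trans ?_
    rw [Finset.sum_comm]
    simp only [← Finset.sum_mul, l1, one_mul, le_refl]

theorem cs_unit {O : Type} [Fintype O] (w g : O → ℝ) (hg : ∑ a, g a ^ 2 ≤ 1) :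
    (∑ a, w a * g a) ^ 2 ≤ ∑ a, w a ^ 2 :=
  (Finset.sum_mul_sq_le_sq_mul_sq univ w g).trans
    (mul_le_of_le_one_right (Finset.sum_nonneg fun _ _ => sq_nonneg _) hg)

theorem int_form {μ : Measure X} [IsFiniteMeasure μ] {O : Type} [Fintype O] {g : O → X → ℝ}
    (cg : ∀ a, Continuous (g a)) (hg : ∀ x, ∑ a, g a x ^ 2 ≤ 1) (w : O → ℝ) :
    Integrable (fun x => (∑ a, w a * g a x) ^ 2) μ :=
  int_bdd (by fun_prop) (∑ a, w a ^ 2) fun x => by
    rw [Real.norm_of_nonneg (sq_nonneg _)]; exact cs_unit w _ (hg x)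

theorem int_sq {μ : Measure X} [IsFiniteMeasure μ] {O : Type} [Fintype O] {g : O → X → ℝ}
    (cg : ∀ a, Continuous (g a)) (hg : ∀ x, ∑ a, g a x ^ 2 ≤ 1) (a : O) :
    Integrable (fun x => g a x ^ 2) μ :=
  int_bdd ((cg a).pow 2) 1 fun x => by
    rw [Real.norm_of_nonneg (sq_nonneg _)]
    exact (Finset.single_le_sum (f := fun a => g a x ^ 2) (fun _ _ => sq_nonneg _)
      (Finset.mem_univ a)).trans (hg x)

theorem group_form {ν : Measure X} [IsFiniteMeasure ν] {O : Type} [Fintype O] [DecidableEq O]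
    {g : O → X → ℝ} {B : O → Set X} (cg : ∀ a, Continuous (g a)) (g1 : ∀ x, ∑ a, g a x ^ 2 = 1)
    (mB : ∀ a, MeasurableSet (B a))
    (hg : ∀ a x, x ∉ B a → g a x = 0 ∨ ∀ b, g b x = if b = a then 1 else 0) (w : O → ℝ) :
    ∫ x, (∑ a, w a * g a x) ^ 2 ∂ν ≤ ∑ a, w a ^ 2 * (∫ x, g a x ^ 2 ∂ν + ν.real (B a)) := by
  have iB : ∀ a, Integrable ((B a).indicator (1 : X → ℝ)) ν := fun a =>
    (integrable_const (1 : ℝ)).indicator (mB a)
  have ig := int_sq (μ := ν) cg fun x => (g1 x).le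
  have hb : ∀ x, (∑ a, w a * g a x) ^ 2 ≤
      ∑ a, w a ^ 2 * (g a x ^ 2 + (B a).indicator (1 : X → ℝ) x) := by
    intro x
    have hnn : ∀ a, 0 ≤ (B a).indicator (1 : X → ℝ) x := fun a =>
      Set.indicator_nonneg (fun _ _ => zero_le_one) _
    by_cases hx : ∀ a, x ∉ B a → g a x = 0
    · set v : O → ℝ := fun a => w a * (B a).indicator (1 : X → ℝ) x with hv
      have e1 : ∀ a, w a * g a x = v a * g a x := fun a => by
        by_cases ha : x ∈ B a
        · simp [hv, ha]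
        · simp [hx a ha]
      have e2 : ∀ a, v a ^ 2 ≤ w a ^ 2 * (g a x ^ 2 + (B a).indicator (1 : X → ℝ) x) := fun a => by
        by_cases ha : x ∈ B a
        · simp only [hv, Set.indicator_of_mem ha, Pi.one_apply, mul_one]
          nlinarith [sq_nonneg (w a * g a x)]
        · simp only [hv, Set.indicator_of_notMem ha]
          nlinarith [sq_nonneg (w a * g a x)]
      simp only [e1]
      exact (cs_unit v _ (g1 x).le).trans (Finset.sum_le_sum fun a _ => e2 a)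
    · push Not at hx
      obtain ⟨a, ha, hχ⟩ := hx
      have hc := (hg a x ha).resolve_left hχ
      have e1 : ∑ b, w b * g b x = w a := by simp [hc]
      rw [e1]
      refine le_trans ?_ (Finset.single_le_sum
        (f := fun a => w a ^ 2 * (g a x ^ 2 + (B a).indicator (1 : X → ℝ) x))
        (fun b _ => mul_nonneg (sq_nonneg _) (add_nonneg (sq_nonneg _) (hnn b))) (Finset.mem_univ a))
      simp only [hc a, if_true]
      nlinarith [hnn a, sq_nonneg (w a)]
  have iS : ∀ a, Integrable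
      (fun x => w a ^ 2 * (g a x ^ 2 + (B a).indicator (1 : X → ℝ) x)) ν := fun a =>
    ((ig a).add (iB a)).const_mul _
  refine (integral_mono (int_form cg (fun x => (g1 x).le) w)
    (integrable_finsetSum _ fun a _ => iS a) hb).trans (le_of_eq ?_)
  rw [integral_finsetSum _ fun a _ => iS a]
  refine Finset.sum_congr rfl fun a _ => ?_
  rw [integral_const_mul, integral_add (ig a) (iB a), integral_indicator_one (mB a)]

theorem norm_real_vec {O : Type} [Fintype O] (a : O → ℝ) :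
    ‖(WithLp.toLp 2 fun i => (a i : ℂ) : EuclideanSpace ℂ O)‖ = √(∑ i, a i ^ 2) := by
  rw [EuclideanSpace.norm_eq]
  simp

/-- the field before the correction -/
noncomputable def vf {O : Type} (cB : X → ℝ) (g p : O → X → ℝ) (x : X) : EuclideanSpace ℂ O :=
  WithLp.toLp 2 fun a => ((cB x * g a x : ℝ) : ℂ) + (p a x : ℂ) * Complex.I

theorem vf_apply {O : Type} (cB : X → ℝ) (g p : O → X → ℝ) (x : X) (a : O) :
    vf cB g p x a = ((cB x * g a x : ℝ) : ℂ) + (p a x : ℂ) * Complex.I := rfl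

theorem vf_sq {O : Type} (cB : X → ℝ) (g p : O → X → ℝ) (x : X) (a : O) :
    ‖vf cB g p x a‖ ^ 2 = cB x ^ 2 * g a x ^ 2 + p a x ^ 2 := by
  rw [vf_apply, Complex.sq_norm, Complex.normSq_add_mul_I, mul_pow]

namespace Plane

variable {μ : Measure X} [IsFiniteMeasure μ] {O : Type} [Fintype O] {θ e : ℝ} {p : O → X → ℝ}
  {cB κ : X → ℝ}

theorem p1 (P : Plane μ θ e p cB κ) (x : X) : ∑ a, p a x ^ 2 ≤ 1 := by
  linarith [P.one x, sq_nonneg (cB x)]

theorem c2 (P : Plane μ θ e p cB κ) (x : X) : cB x ^ 2 ≤ 1 := by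
  have : 0 ≤ ∑ a, p a x ^ 2 := Finset.sum_nonneg fun _ _ => sq_nonneg _
  linarith [P.one x]

theorem c1 (P : Plane μ θ e p cB κ) (x : X) : cB x ≤ 1 := by nlinarith [P.c2 x, P.cB0 x]

theorem p0 (P : Plane μ θ e p cB κ) {x : X} (hx : cB x = 1) (a : O) : p a x = 0 := by
  have h1 := P.one x
  rw [hx] at h1
  have h2 : ∑ a, p a x ^ 2 = 0 := by linarith
  exact pow_eq_zero_iff two_ne_zero |>.1
    ((Finset.sum_eq_zero_iff_of_nonneg fun _ _ => sq_nonneg _).1 h2 a (Finset.mem_univ a))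

theorem vf_cont (P : Plane μ θ e p cB κ) {g : O → X → ℝ} (cg : ∀ a, Continuous (g a)) :
    Continuous (vf cB g p) := by
  have c1 := P.cp
  have c2 := P.ccB
  unfold vf
  fun_prop

theorem vf_form (P : Plane μ θ e p cB κ) {g : O → X → ℝ} (cg : ∀ a, Continuous (g a))
    (g1 : ∀ x, ∑ a, g a x ^ 2 = 1) {D : O → ℝ} (hD : ∀ a, ∫ x, p a x ^ 2 ∂μ = 1 - D a)
    (hDe : ∀ a, 200 * e ≤ D a) (he : 0 ≤ e)
    (hA : ∀ w : O → ℝ, ∫ x, (∑ a, w a * (cB x * g a x)) ^ 2 ∂μ ≤ ∑ a, w a ^ 2 * (15 / 14 * D a))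
    (w : O → ℂ) :
    ∫ x, ‖∑ a, w a * vf cB g p x a‖ ^ 2 ∂μ ≤ ∑ a, (1 + D a / 2 / 2) * ‖w a‖ ^ 2 := by
  have cg' : ∀ a, Continuous fun x => cB x * g a x := fun a => P.ccB.mul (cg a)
  have hg' : ∀ x, ∑ a, (cB x * g a x) ^ 2 ≤ 1 := fun x => by
    simp only [mul_pow]
    rw [← Finset.mul_sum, g1, mul_one]; exact P.c2 x
  have mZ : MeasurableSet {x | cB x ≠ 0} := (isOpen_ne_fun P.ccB continuous_const).measurableSet
  have iA := int_form (μ := μ) cg' hg'
  have iQ := int_form (μ := μ) P.cp P.p1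
  obtain ⟨F, hF⟩ : ∃ F : (O → ℝ) → X → ℝ, ∀ w x, F w x =
      21 / 20 * (∑ a, w a * (cB x * g a x)) ^ 2 + (∑ a, w a * p a x) ^ 2 +
        20 * {x | cB x ≠ 0}.indicator (fun x => (∑ a, w a * p a x) ^ 2) x :=
    ⟨_, fun _ _ => rfl⟩
  have iF : ∀ w, Integrable (F w) μ := fun w => by
    rw [funext (hF w)]
    exact (((iA w).const_mul _).add (iQ w)).add (((iQ w).indicator mZ).const_mul _)
  have hpt : ∀ x, ‖∑ a, w a * vf cB g p x a‖ ^ 2 ≤
      F (fun a => (w a).re) x + F (fun a => (w a).im) x := fun x => by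
    have e1 : ∑ a, w a * vf cB g p x a =
        (((∑ a, (w a).re * (cB x * g a x)) - ∑ a, (w a).im * p a x : ℝ) : ℂ) +
        (((∑ a, (w a).im * (cB x * g a x)) + ∑ a, (w a).re * p a x : ℝ) : ℂ) * Complex.I := by
      apply Complex.ext
      · simp [vf_apply, Finset.sum_sub_distrib]
      · simp [vf_apply, Finset.sum_add_distrib, add_comm]
    rw [e1, Complex.sq_norm, Complex.normSq_add_mul_I, hF, hF]
    by_cases hx : cB x = 0
    · simp [hx, add_comm]
    · rw [Set.indicator_of_mem (show x ∈ {x | cB x ≠ 0} from hx),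
        Set.indicator_of_mem (show x ∈ {x | cB x ≠ 0} from hx)]
      generalize (∑ a, (w a).re * (cB x * g a x)) = A1
      generalize (∑ a, (w a).im * (cB x * g a x)) = A2
      generalize (∑ a, (w a).re * p a x) = P1
      generalize (∑ a, (w a).im * p a x) = P2
      nlinarith [sq_nonneg (A1 + 20 * P2), sq_nonneg (A2 - 20 * P1)]
  have hFb : ∀ w : O → ℝ, ∫ x, F w x ∂μ ≤ ∑ a, (1 + D a / 2 / 2) * w a ^ 2 := fun w => by
    have j1 : Integrable (fun x => 21 / 20 * (∑ a, w a * (cB x * g a x)) ^ 2) μ :=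
      (iA w).const_mul _
    have j2 : Integrable (fun x => 21 / 20 * (∑ a, w a * (cB x * g a x)) ^ 2 +
        (∑ a, w a * p a x) ^ 2) μ := j1.add (iQ w)
    have j3 : Integrable (fun x =>
        20 * {x | cB x ≠ 0}.indicator (fun x => (∑ a, w a * p a x) ^ 2) x) μ :=
      ((iQ w).indicator mZ).const_mul _
    simp only [hF]
    rw [integral_add j2 j3, integral_add j1 (iQ w), integral_const_mul, integral_const_mul,
      integral_indicator mZ]
    have a1 := hA w
    have a2 := P.form w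
    have a3 := P.zone w
    have a4 : 21 / 20 * ∑ a, w a ^ 2 * (15 / 14 * D a) +
        ∑ a, w a ^ 2 * (∫ x, p a x ^ 2 ∂μ + e) + 20 * (e * ∑ a, w a ^ 2) ≤
        ∑ a, (1 + D a / 2 / 2) * w a ^ 2 := by
      rw [Finset.mul_sum, Finset.mul_sum, Finset.mul_sum, ← Finset.sum_add_distrib,
        ← Finset.sum_add_distrib]
      refine Finset.sum_le_sum fun a _ => ?_
      rw [hD]
      have : 0 ≤ w a ^ 2 * (D a / 8 - 21 * e) :=
        mul_nonneg (sq_nonneg _) (by linarith [hDe a])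
      linarith
    linarith
  have cv := P.vf_cont cg
  have cw : Continuous fun x => ‖∑ a, w a * vf cB g p x a‖ ^ 2 := by
    generalize vf cB g p = v at cv
    fun_prop
  have iL : Integrable (fun x => ‖∑ a, w a * vf cB g p x a‖ ^ 2) μ :=
    ((iF _).add (iF _)).mono' cw.aestronglyMeasurable
      (Filter.Eventually.of_forall fun x => by
        rw [Real.norm_of_nonneg (sq_nonneg _)]; exact hpt x)
  refine (integral_mono iL ((iF _).add (iF _)) hpt).trans ?_
  rw [integral_add' (iF _) (iF _)]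
  refine (add_le_add (hFb _) (hFb _)).trans (le_of_eq ?_)
  rw [← Finset.sum_add_distrib]
  refine Finset.sum_congr rfl fun a _ => ?_
  rw [Complex.sq_norm, Complex.normSq_apply]
  ring

theorem vf_lip (P : Plane μ θ e p cB κ) {g : O → X → ℝ} (g1 : ∀ x, ∑ a, g a x ^ 2 = 1) (x y : X) :
    ‖vf cB g p y - vf cB g p x‖ ≤ √(∑ a, (p a y - p a x) ^ 2) + |cB y - cB x| +
      √(∑ a, (g a y - g a x) ^ 2) := by
  have e1 : vf cB g p y - vf cB g p x =
      Complex.I • (WithLp.toLp 2 fun a => ((p a y - p a x : ℝ) : ℂ) : EuclideanSpace ℂ O) +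
      ((cB y - cB x : ℝ) : ℂ) • (WithLp.toLp 2 fun a => ((g a y : ℝ) : ℂ) : EuclideanSpace ℂ O) +
      ((cB x : ℝ) : ℂ) •
        (WithLp.toLp 2 fun a => ((g a y - g a x : ℝ) : ℂ) : EuclideanSpace ℂ O) := by
    ext a
    simp only [vf_apply, PiLp.add_apply, PiLp.sub_apply, PiLp.smul_apply, smul_eq_mul]
    push_cast
    ring
  rw [e1]
  refine (norm_add_le _ _).trans ((add_le_add (norm_add_le _ _) le_rfl).trans ?_)
  rw [norm_smul, norm_smul, norm_smul, norm_real_vec, norm_real_vec, norm_real_vec, g1,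
    Real.sqrt_one, Complex.norm_I, Complex.norm_real, Complex.norm_real, Real.norm_eq_abs,
    Real.norm_of_nonneg (P.cB0 x)]
  have c2 := mul_le_of_le_one_left (Real.sqrt_nonneg (∑ a, (g a y - g a x) ^ 2)) (P.c1 x)
  linarith

end Plane

theorem glue_core {μ ν ν' : Measure X} [IsFiniteMeasure μ] [IsFiniteMeasure ν] {O : Type}
    [Fintype O] [DecidableEq O] [Nonempty O] {θ δ e : ℝ} {p : O → X → ℝ} {cB κ : X → ℝ}
    (P : Plane μ θ e p cB κ) {N' : ℕ} {L : X → ℝ} (hL : ∀ x, 0 ≤ L x) {ι : Type} [Fintype ι]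
    [DecidableEq ι] {ψ β : ι → X → ℝ} (hA : Atoms ν' N' L ψ β)
    (hint : ∀ F : X → ℝ, ∫ x, F x ∂ν = ∫ x, cB x ^ 2 * F x ∂μ)
    {D : O → ℝ} (hD : ∀ a, ∫ x, p a x ^ 2 ∂μ = 1 - D a) (hV : ν.real Set.univ = ∑ a, D a)
    (hθ : 0 < θ) (hδθ : δ ≤ θ / 500) (he : 0 ≤ e) (heθ : e ≤ θ / 200)
    (hsm : ∀ i, ν.real {x | ψ i x ≠ 0} ≤ δ)
    (htr : ∑ i, ν.real ({x | ψ i x ≠ 0} \ {x | β i x = 1}) + ν.real {x | κ x ≠ 1} ≤
      1 / 16 * ∑ a, D a) :
    ∃ u : X → EuclideanSpace ℂ O, (∀ x, ‖u x‖ = 1) ∧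
      (∀ b d, ∫ x, (starRingEnd ℂ) (u x b) * u x d ∂μ = if b = d then 1 else 0) ∧
      (∀ x, cB x = 0 → ∀ a, u x a = Complex.I * p a x) ∧
      ∀ x y, ‖u y - u x‖ ≤ √(∑ a, (p a y - p a x) ^ 2) + |cB y - cB x| + 4 * |κ y - κ x| +
        5 * (L x * dist y x) := by
  have hDθ : ∀ a, θ ≤ D a := fun a => by linarith [P.mass a, hD a]
  have hD0 : ∀ a, 0 < D a := fun a => hθ.trans_le (hDθ a)
  obtain ⟨g, U, B, cg, g0, g1, gm, gc, mB, gb, gg, gl⟩ := wgroups (ν := ν) hA P.cκ hD0 hV hsm htr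
  have hBD : ∀ a, ν.real (B a) ≤ D a / 14 := fun a => by linarith [gb a, hDθ a]
  obtain ⟨β', hβ'⟩ : ∃ β' : ι → X → ℝ, ∀ i x, β' i x = β i x * κ x := ⟨_, fun _ _ => rfl⟩
  have b0 : ∀ i x, 0 ≤ β' i x := fun i x => by
    rw [hβ']; exact mul_nonneg (hA.β0 i x) (P.κ0 x)
  have b1 : ∀ i x, β' i x ≤ 1 := fun i x => by
    rw [hβ']; exact mul_le_one₀ (hA.β1 i x) (P.κ0 x) (P.κ1 x)
  have cb : ∀ i, Continuous (β' i) := fun i => by
    rw [funext (hβ' i)]; exact (hA.cβ i).mul P.cκ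
  have hb1 : ∀ i x, β' i x ≠ 0 → β i x ≠ 0 := fun i x hx => by
    rw [hβ'] at hx; exact left_ne_zero_of_mul hx
  have hbc : ∀ i x, β' i x ≠ 0 → cB x = 1 := fun i x hx => by
    rw [hβ'] at hx; exact P.free x (right_ne_zero_of_mul hx)
  have hbν : ∀ i (F : ℝ → ℝ), F 0 = 0 → ∫ x, F (β' i x) ∂μ = ∫ x, F (β' i x) ∂ν := fun i F hF => by
    rw [hint]
    refine integral_congr_ae (Filter.Eventually.of_forall fun x => ?_)
    by_cases hx : β' i x = 0
    · simp [hx, hF]
    · simp [hbc i x hx]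
  have cv := P.vf_cont cg
  have hv1 : ∀ x, ‖vf cB g p x‖ = 1 := fun x => by
    rw [← pow_left_inj₀ (norm_nonneg _) zero_le_one two_ne_zero, EuclideanSpace.norm_sq_eq]
    simp only [vf_sq]
    rw [Finset.sum_add_distrib, ← Finset.mul_sum, g1]
    linarith [P.one x]
  have ig := int_sq (μ := ν) cg fun x => (g1 x).le
  have hAform : ∀ w : O → ℝ, ∫ x, (∑ a, w a * (cB x * g a x)) ^ 2 ∂μ ≤
      ∑ a, w a ^ 2 * (15 / 14 * D a) := fun w => by
    have h1 := group_form (ν := ν) cg g1 mB (fun a x hx => (gg a x hx).imp id fun ⟨i, hi, h1⟩ =>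
      gc a i hi x (left_ne_zero_of_mul_eq_one h1)) w
    rw [hint] at h1
    have e1 : ∀ x, (∑ a, w a * (cB x * g a x)) ^ 2 = cB x ^ 2 * (∑ a, w a * g a x) ^ 2 := fun x => by
      rw [← mul_pow, Finset.mul_sum]
      congr 1
      exact Finset.sum_congr rfl fun a _ => by ring
    simp only [e1]
    refine h1.trans (Finset.sum_le_sum fun a _ => mul_le_mul_of_nonneg_left ?_ (sq_nonneg _))
    rw [gm]; linarith [hBD a]
  have q1 : ∀ a, ∀ i ∈ U a, ∀ x, β' i x ≠ 0 → ∀ b, vf cB g p x b = if b = a then 1 else 0 := by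
    intro a i hi x hx b
    have e1 := hbc i x hx
    rw [vf_apply, e1, P.p0 e1, gc a i hi x (hb1 i x hx) b]
    split_ifs <;> simp
  have q2 : ∀ a, D a / 2 ≤ ∑ i ∈ U a, ∫ x, β' i x ^ 2 ∂μ := by
    intro a
    have iβ : ∀ i, Integrable (fun x => β' i x ^ 2) ν := fun i =>
      int_bdd ((cb i).pow 2) 1 fun x => by
        rw [Real.norm_of_nonneg (sq_nonneg _)]; nlinarith [b0 i x, b1 i x]
    have hg1 : ∀ x, g a x ^ 2 ≤ 1 := fun x => (g1 x) ▸ Finset.single_le_sum
      (f := fun a => g a x ^ 2) (fun _ _ => sq_nonneg _) (Finset.mem_univ a)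
    have := integral_le_of_indicator (μ := ν)
      (f := fun x => g a x ^ 2 - ∑ i ∈ U a, β' i x ^ 2)
      ((ig a).sub (integrable_finsetSum _ fun i _ => iβ i)) (mB a)
      (fun x => by
        have : 0 ≤ ∑ i ∈ U a, β' i x ^ 2 := Finset.sum_nonneg fun i _ => sq_nonneg _
        linarith [hg1 x])
      (fun x hx => by
        rcases gg a x hx with h0 | ⟨i, hi, h1⟩
        · have : 0 ≤ ∑ i ∈ U a, β' i x ^ 2 := Finset.sum_nonneg fun i _ => sq_nonneg _
          rw [h0]; linarith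
        · have := Finset.single_le_sum (f := fun i => β' i x ^ 2) (fun _ _ => sq_nonneg _) hi
          rw [hβ' i, h1] at this
          linarith [hg1 x])
    rw [integral_sub (ig a) (integrable_finsetSum _ fun i _ => iβ i), gm,
      integral_finsetSum _ fun i _ => iβ i] at this
    rw [Finset.sum_congr rfl fun i _ => hbν i (fun t => t ^ 2) (by simp)]
    linarith [hBD a, hD0 a]
  have q3 : ∀ a, ∀ i ∈ U a, ∫ x, β' i x ∂μ ≤ D a / 2 / 2 := by
    intro a i _
    have e1 := hbν i (fun t => t) rfl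
    have := integral_le_of_indicator (μ := ν) (f := β' i)
      (int_bdd (cb i) 1 fun x => by rw [Real.norm_of_nonneg (b0 i x)]; exact b1 i x)
      (isOpen_ne_fun (hA.cψ i) continuous_const).measurableSet (b1 i) fun x hx => by
        by_contra hcon
        have h1 := hA.ψ_one (hb1 i x fun h => hcon h.le)
        have h2 : ψ i x = 0 := by simpa using hx
        rw [h2] at h1
        simp at h1
    linarith [hDθ a, hsm i]
  have q4 : ∀ a, ∫ x, ‖vf cB g p x a‖ ^ 2 ∂μ = 1 := by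
    intro a
    simp only [vf_sq]
    have i1 : Integrable (fun x => cB x ^ 2 * g a x ^ 2) μ :=
      int_bdd ((P.ccB.pow 2).mul ((cg a).pow 2)) 1 fun x => by
        rw [Real.norm_of_nonneg (by positivity)]
        exact mul_le_one₀ (P.c2 x) (sq_nonneg _) ((g1 x) ▸ Finset.single_le_sum
          (f := fun a => g a x ^ 2) (fun _ _ => sq_nonneg _) (Finset.mem_univ a))
    rw [integral_add i1 (int_sq P.cp P.p1 a), ← hint, gm, hD]
    ring
  have q5 := P.vf_form cg g1 hD (fun a => by linarith [hDθ a]) he hAform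
  have q6 : ∀ i x y, |β' i y - β' i x| ≤ L x * dist y x + |κ y - κ x| := by
    intro i x y
    have e1 : β' i y - β' i x = (β i y - β i x) * κ y + β i x * (κ y - κ x) := by
      simp only [hβ']; ring
    rw [e1]
    refine (abs_add_le _ _).trans (add_le_add ?_ ?_)
    · rw [abs_mul, abs_of_nonneg (P.κ0 y)]
      exact (mul_le_of_le_one_right (abs_nonneg _) (P.κ1 y)).trans (hA.lβ i x y)
    · rw [abs_mul, abs_of_nonneg (hA.β0 i x)]
      exact mul_le_of_le_one_left (abs_nonneg _) (hA.β1 i x)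
  have hd : ∀ x y, 0 ≤ L x * dist y x := fun x y => mul_nonneg (hL x) dist_nonneg
  obtain ⟨h, h1, h2, h3, h4⟩ := correct (μ := μ) cv hv1 cb b0 b1
    (fun i k x hi hk => (hA.β_unique (hb1 _ _ hi) (hb1 _ _ hk)).symm) U q1
    (c := fun a => D a / 2) (fun a => half_pos (hD0 a)) q2 q3 q4 q5
    (m := fun x y => L x * dist y x + |κ y - κ x|)
    (fun x y => add_nonneg (hd x y) (abs_nonneg _)) q6
  refine ⟨fun x => vf cB g p x + h x, h1, h2, fun x hx a => ?_, fun x y => ?_⟩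
  · have hκ : κ x = 0 := by
      by_contra hcon
      have := P.free x hcon
      rw [hx] at this
      exact zero_ne_one this
    simp only [h3 x fun i => by simp [hβ', hκ], add_zero, vf_apply, hx]
    simp [mul_comm]
  · have e1 : vf cB g p y + h y - (vf cB g p x + h x) =
        (vf cB g p y - vf cB g p x) + (h y - h x) := by abel
    dsimp only
    rw [e1]
    refine (norm_add_le _ _).trans ?_
    have c0 := P.vf_lip g1 x y
    have c1 : √(∑ a, (g a y - g a x) ^ 2) ≤ L x * dist y x := Real.sqrt_le_iff.2 ⟨hd x y, gl x y⟩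
    have c3 := h4 x y
    linarith

theorem glue : ∃ C : ℝ, 0 < C ∧ ∀ (μ : Measure (Fin 3 → ℝ)) [IsFiniteMeasure μ] (O : Type)
    [Fintype O] [DecidableEq O] [Nonempty O] (r : (Fin 3 → ℝ) → ℝ) (r0 R1 θ δ e : ℝ)
    (p : O → (Fin 3 → ℝ) → ℝ) (cB κ : (Fin 3 → ℝ) → ℝ),
    μ.real Set.univ = Fintype.card O → LipschitzWith 1 r → 0 < r0 → (∀ x, r0 ≤ r x) →
    (∀ x, r x ≤ R1) → (∀ x, μ.real (ball x (r x)) ≤ δ) → 0 < δ → δ ≤ θ / 1000 → 0 ≤ e →
    e ≤ θ / 200 → Plane μ θ e p cB κ →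
    ∃ u : (Fin 3 → ℝ) → EuclideanSpace ℂ O, (∀ x, ‖u x‖ = 1) ∧
      (∀ b d, ∫ x, (starRingEnd ℂ) (u x b) * u x d ∂μ = if b = d then 1 else 0) ∧
      (∀ x, cB x = 0 → ∀ a, u x a = Complex.I * p a x) ∧
      ∀ x y, ‖u y - u x‖ ≤ √(∑ a, (p a y - p a x) ^ 2) + |cB y - cB x| + 4 * |κ y - κ x| +
        5 * (C / r x * dist y x) := by
  obtain ⟨C, hC, hat⟩ := exists_atoms
  refine ⟨C, hC, ?_⟩
  intro μ _ O _ _ _ r r0 R1 θ δ e p cB κ hμ hr h0 hlo hhi hb hδ hδθ he heθ P
  have hθ : 0 < θ := by linarith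
  have hpos : ∀ x, 0 < r x := fun x => h0.trans_le (hlo x)
  have mc : Measurable fun x => ENNReal.ofReal (cB x ^ 2) :=
    (P.ccB.measurable.pow_const 2).ennreal_ofReal
  obtain ⟨ν, hν⟩ : ∃ ν : Measure (Fin 3 → ℝ),
    ν = μ.withDensity fun x => ENNReal.ofReal (cB x ^ 2) := ⟨_, rfl⟩
  have hνμ : ν ≤ μ := by
    have := withDensity_mono (μ := μ) (f := fun x => ENNReal.ofReal (cB x ^ 2)) (g := 1)
      (Filter.Eventually.of_forall fun x => ENNReal.ofReal_le_one.2 (P.c2 x))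
    rwa [withDensity_one, ← hν] at this
  have : IsFiniteMeasure ν := isFiniteMeasure_of_le μ hνμ
  have hint : ∀ F : (Fin 3 → ℝ) → ℝ, ∫ x, F x ∂ν = ∫ x, cB x ^ 2 * F x ∂μ := fun F => by
    rw [hν, integral_withDensity_eq_integral_toReal_smul mc (by simp)]
    simp only [ENNReal.toReal_ofReal (sq_nonneg _), smul_eq_mul]
  have hset : ∀ S, MeasurableSet S → ν.real S = ∫ x in S, cB x ^ 2 ∂μ := fun S hS => by
    rw [← integral_indicator_one hS, hint, ← integral_indicator hS]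
    refine integral_congr_ae (Filter.Eventually.of_forall fun x => ?_)
    by_cases hx : x ∈ S <;> simp [hx]
  have ip := int_sq (μ := μ) P.cp P.p1
  have ic : Integrable (fun x => cB x ^ 2) μ :=
    int_bdd (P.ccB.pow 2) 1 fun x => by rw [Real.norm_of_nonneg (sq_nonneg _)]; exact P.c2 x
  obtain ⟨D, hD⟩ : ∃ D : O → ℝ, ∀ a, ∫ x, p a x ^ 2 ∂μ = 1 - D a :=
    ⟨fun a => 1 - ∫ x, p a x ^ 2 ∂μ, fun a => by ring⟩
  have hDθ : ∀ a, θ ≤ D a := fun a => by linarith [P.mass a, hD a]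
  have hV : ν.real Set.univ = ∑ a, D a := by
    rw [hset _ MeasurableSet.univ, Measure.restrict_univ]
    have e1 : ∫ x, (∑ a, p a x ^ 2 + cB x ^ 2) ∂μ = Fintype.card O := by simp [P.one, hμ]
    rw [integral_add (integrable_finsetSum _ fun a _ => ip a) ic,
      integral_finsetSum _ fun a _ => ip a] at e1
    simp only [hD, Finset.sum_sub_distrib, Finset.sum_const, Finset.card_univ, nsmul_eq_mul] at e1
    linarith
  obtain ⟨V, hVdef⟩ : ∃ V, V = ∑ a, D a := ⟨_, rfl⟩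
  have hcard : (1 : ℝ) ≤ Fintype.card O := by exact_mod_cast Fintype.card_pos
  have hVθ : θ * Fintype.card O ≤ V := by
    have := Finset.card_nsmul_le_sum univ D θ fun a _ => hDθ a
    rw [nsmul_eq_mul, Finset.card_univ] at this
    linarith
  have hVθ' : θ ≤ V := by nlinarith
  have hV0 : 0 < V := hθ.trans_le hVθ'
  have hq : 1 ≤ V / (20 * δ) := by rw [le_div_iff₀ (by positivity)]; linarith
  obtain ⟨N', hN0, hN1, hN2⟩ : ∃ N' : ℕ, (1 : ℝ) ≤ N' ∧ (N' : ℝ) ≤ V / (20 * δ) ∧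
      V / (20 * δ) ≤ 2 * N' := by
    have hN0 : (1 : ℝ) ≤ ⌊V / (20 * δ)⌋₊ := by exact_mod_cast Nat.le_floor (by simpa using hq)
    exact ⟨⌊V / (20 * δ)⌋₊, hN0, Nat.floor_le (by positivity),
      by linarith [Nat.lt_floor_add_one (V / (20 * δ))]⟩
  obtain ⟨s, hs⟩ : ∃ s : ℝ, s = N' / V := ⟨_, rfl⟩
  have hs0 : 0 < s := by rw [hs]; positivity
  have hsV : (N' : ℝ) = s * V := by rw [hs]; field_simp
  have hν'r : ∀ S, (s.toNNReal • ν).real S = s * ν.real S := fun S => by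
    rw [measureReal_nnreal_smul_apply, Real.coe_toNNReal _ hs0.le]
  have hsδ : s * δ ≤ 1 / 20 := by
    rw [le_div_iff₀ (by positivity)] at hN1
    rw [hs, div_mul_eq_mul_div, div_le_iff₀ hV0]
    linarith
  have hsδ' : 1 / 20 ≤ s * (2 * δ) := by
    rw [div_le_iff₀ (by positivity)] at hN2
    rw [hs, div_mul_eq_mul_div, le_div_iff₀ hV0]
    linarith
  obtain ⟨I, ψ, β, hA⟩ := hat (s.toNNReal • ν) N' r r0 R1 (by rw [hν'r, hV, ← hVdef, hsV]) hr h0
    hlo hhi fun x => by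
      rw [hν'r]
      have : ν.real (ball x (r x)) ≤ δ :=
        (ENNReal.toReal_mono (measure_ne_top μ _) (hνμ _)).trans (hb x)
      exact (mul_le_mul_of_nonneg_left this hs0.le).trans hsδ
  have mκ : MeasurableSet {x | κ x ≠ 1} := (isOpen_ne_fun P.cκ continuous_const).measurableSet
  refine glue_core (δ := 2 * δ) P (fun x => (div_pos hC (hpos x)).le) hA hint hD hV hθ
    (by linarith) he heθ (fun i => ?_) ?_
  · have := hA.small i
    rw [hν'r] at this
    exact le_of_mul_le_mul_left (this.trans hsδ') hs0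
  · have h1 := hA.trans
    simp only [hν'r] at h1
    rw [← Finset.mul_sum, hsV] at h1
    have h2 : ∑ i, ν.real ({x | ψ i x ≠ 0} \ {x | β i x = 1}) ≤ 1 / 20 * V :=
      le_of_mul_le_mul_left (by linarith) hs0
    have h3 := P.shell
    rw [← hset _ mκ] at h3
    have h4 : e * Fintype.card O ≤ θ / 200 * Fintype.card O :=
      mul_le_mul_of_nonneg_right heθ (by linarith)
    rw [← hVdef]
    linarith

end Pool.Agent.MP_2c73ad_mp.H67
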