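import Pool.Agent.MP_2c73ad_mp.H67.Waves
import Pool.Agent.MP_2c73ad_mp.H67.Glue

/-! One cell filled with plane waves. -/

open MeasureTheory Metric Set Real Pool.Agent.MP_2c73ad_mp.H42

namespace Pool.Agent.MP_2c73ad_mp.H67

/-- `μ` has the integrable density `f` -/
structure Dens (μ : Measure (Fin 3 → ℝ)) (f : (Fin 3 → ℝ) → ℝ) : Prop where
  int : Integrable f
  eq : ∀ F : (Fin 3 → ℝ) → ℝ, ∫ x, F x ∂μ = ∫ x, f x * F x

theorem Dens.cmp {μ : Measure (Fin 3 → ℝ)} {f : (Fin 3 → ℝ) → ℝ} (h : Dens μ f)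
    {S : Set (Fin 3 → ℝ)} (mS : MeasurableSet S) (hS : volume S ≠ ⊤) {n η : ℝ}
    (hη : ∫ x in S, |f x - n| ≤ η) {F : (Fin 3 → ℝ) → ℝ} (mF : Measurable F) {B : ℝ} (hB0 : 0 ≤ B)
    (hB : ∀ x, |F x| ≤ B) (h0 : ∀ x, x ∉ S → F x = 0) :
    |∫ x, F x ∂μ - n * ∫ x, F x| ≤ B * η := by
  have iF : Integrable F := (integrableOn_iff_integrable_of_support_subset
    (s := S) fun x hx => by by_contra hc; exact hx (h0 x hc)).1
    (Measure.integrableOn_of_bounded hS mF.aestronglyMeasurable (Filter.Eventually.of_forall hB))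
  have i1 : Integrable fun x => f x * F x :=
    h.int.mul_bdd mF.aestronglyMeasurable (Filter.Eventually.of_forall hB)
  have i2 : IntegrableOn (fun x => |f x - n|) S :=
    (h.int.integrableOn.sub (integrableOn_const hS)).abs
  rw [h.eq, ← integral_const_mul, ← integral_sub i1 (iF.const_mul _)]
  refine (norm_integral_le_of_norm_le (f := fun x => f x * F x - n * F x) (IntegrableOn.integrable_indicator (i2.const_mul B) mS)
    (Filter.Eventually.of_forall fun x => ?_)).trans ?_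
  · by_cases hx : x ∈ S
    · rw [indicator_of_mem hx, ← sub_mul, norm_mul, mul_comm]
      exact mul_le_mul_of_nonneg_right (hB x) (abs_nonneg _)
    · simp [indicator_of_notMem hx, h0 x hx]
  · rw [integral_indicator mS, integral_const_mul]
    exact mul_le_mul_of_nonneg_left hη hB0

theorem Dens.meas {μ : Measure (Fin 3 → ℝ)} {f : (Fin 3 → ℝ) → ℝ} (h : Dens μ f)
    {S : Set (Fin 3 → ℝ)} (mS : MeasurableSet S) (hS : volume S ≠ ⊤) {n η : ℝ}
    (hη : ∫ x in S, |f x - n| ≤ η) {T : Set (Fin 3 → ℝ)} (mT : MeasurableSet T) (hT : T ⊆ S) :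
    |μ.real T - n * volume.real T| ≤ η := by
  have := h.cmp mS hS hη (F := T.indicator 1) (measurable_const.indicator mT) zero_le_one
    (fun x => by by_cases hx : x ∈ T <;> simp [hx])
    fun x hx => indicator_of_notMem (fun h => hx (hT h)) _
  rwa [integral_indicator_one mT, integral_indicator_one mT, one_mul] at this

/-- rescaled distance to the boundary of the cube of the waves -/
noncomputable def tau (z : Fin 3 → ℝ) (a d : ℝ) (x : Fin 3 → ℝ) : ℝ := (a - dist x z) / d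

/-- amplitude of the waves -/
noncomputable def amp (z : Fin 3 → ℝ) (a d : ℝ) (x : Fin 3 → ℝ) : ℝ := sin (π / 2 * cl (tau z a d x))

/-- normalized wave -/
noncomputable def wv (a R : ℝ) (k : Fin 3 → ℤ) (x : Fin 3 → ℝ) : ℝ :=
  cas (ph a k x) / √((lat R).card)

theorem tau_cont (z : Fin 3 → ℝ) (a d : ℝ) : Continuous (tau z a d) := by unfold tau; fun_prop

theorem amp_cont (z : Fin 3 → ℝ) (a d : ℝ) : Continuous (amp z a d) := by
  have := tau_cont z a d
  have := cl_cont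
  unfold amp; fun_prop

theorem wv_cont (a R : ℝ) (k : Fin 3 → ℤ) : Continuous (wv a R k) := by
  have := ph_cont a k
  have := cas_cont
  unfold wv; fun_prop

theorem tau_lip (z : Fin 3 → ℝ) (a : ℝ) {d : ℝ} (hd : 0 < d) (c : ℝ) (x y : Fin 3 → ℝ) :
    |cl (tau z a d y + c) - cl (tau z a d x + c)| ≤ 1 / d * dist y x := by
  refine (cl_lip _ _).trans ?_
  have e : tau z a d y + c - (tau z a d x + c) = 1 / d * (dist x z - dist y z) := by
    unfold tau; field_simp; ring
  rw [e, abs_mul, abs_of_pos (by positivity), dist_comm y x]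
  exact mul_le_mul_of_nonneg_left (abs_dist_sub_le _ _ _) (by positivity)

theorem cl_tau_one {z : Fin 3 → ℝ} {a d : ℝ} (hd : 0 < d) {x : Fin 3 → ℝ}
    (hx : x ∈ ball z (a - d)) : cl (tau z a d x) = 1 :=
  cl_of_one_le (by rw [tau, le_div_iff₀ hd]; linarith [mem_ball.1 hx])

theorem cl_tau_zero {z : Fin 3 → ℝ} {a d : ℝ} (hd : 0 < d) {x : Fin 3 → ℝ}
    (hx : a ≤ dist x z) : cl (tau z a d x) = 0 :=
  cl_of_nonpos (div_nonpos_of_nonpos_of_nonneg (by linarith) hd.le)

theorem cl_tau_zero' {z : Fin 3 → ℝ} {a d : ℝ} (hd : 0 < d) {x : Fin 3 → ℝ}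
    (hx : a + d ≤ dist x z) : cl (tau z a d x + 1) = 0 :=
  cl_of_nonpos (by
    have : tau z a d x ≤ -1 := by rw [tau, div_le_iff₀ hd]; linarith
    linarith)

theorem amp_sq_le (z : Fin 3 → ℝ) (a d : ℝ) (x : Fin 3 → ℝ) : amp z a d x ^ 2 ≤ 1 := sin_sq_le_one _

theorem amp_one {z : Fin 3 → ℝ} {a d : ℝ} (hd : 0 < d) {x : Fin 3 → ℝ}
    (hx : x ∈ ball z (a - d)) : amp z a d x = 1 := by rw [amp, cl_tau_one hd hx]; simp

theorem amp_zero {z : Fin 3 → ℝ} {a d : ℝ} (hd : 0 < d) {x : Fin 3 → ℝ}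
    (hx : a ≤ dist x z) : amp z a d x = 0 := by rw [amp, cl_tau_zero hd hx]; simp

theorem card_pos {R : ℝ} (hR : 0 ≤ R) : (0 : ℝ) < (lat R).card := by
  have : (0 : Fin 3 → ℤ) ∈ lat R := mem_lat.2 (by simpa [nrm, ← Pi.zero_def] using hR)
  exact_mod_cast Finset.card_pos.2 ⟨_, this⟩

theorem sum_wv_sq (a : ℝ) {R : ℝ} (hR : 0 ≤ R) (x : Fin 3 → ℝ) :
    ∑ k ∈ lat R, wv a R k x ^ 2 = 1 := by
  simp only [wv, div_pow, Real.sq_sqrt (card_pos hR).le]
  rw [← Finset.sum_div, sum_cas_sq, div_self (card_pos hR).ne']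

theorem wform (a : ℝ) {R : ℝ} (hR : 0 ≤ R) (w : (Fin 3 → ℤ) → ℝ) (x : Fin 3 → ℝ) :
    (∑ k ∈ lat R, w k * wv a R k x) ^ 2 =
      (∑ k ∈ lat R, w k * cas (ph a k x)) ^ 2 / (lat R).card := by
  simp only [wv, ← mul_div_assoc]
  rw [← Finset.sum_div, div_pow, Real.sq_sqrt (card_pos hR).le]

theorem wform_le (a : ℝ) {R : ℝ} (hR : 0 ≤ R) (w : (Fin 3 → ℤ) → ℝ) (x : Fin 3 → ℝ) :
    (∑ k ∈ lat R, w k * wv a R k x) ^ 2 ≤ ∑ k ∈ lat R, w k ^ 2 := by
  have := Finset.sum_mul_sq_le_sq_mul_sq (lat R) w fun k => wv a R k x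
  rwa [sum_wv_sq a hR, mul_one] at this

theorem pform (z : Fin 3 → ℝ) (a d R : ℝ) (w : (Fin 3 → ℤ) → ℝ) (x : Fin 3 → ℝ) :
    (∑ k ∈ lat R, w k * (amp z a d x * wv a R k x)) ^ 2 =
      amp z a d x ^ 2 * (∑ k ∈ lat R, w k * wv a R k x) ^ 2 := by
  rw [← mul_pow, Finset.mul_sum]
  congr 1
  exact Finset.sum_congr rfl fun k _ => by ring

theorem cell_forms {μ : Measure (Fin 3 → ℝ)} {f : (Fin 3 → ℝ) → ℝ} (h : Dens μ f)
    {z : Fin 3 → ℝ} {a d R n η s : ℝ} (ha : 0 < a) (hd : 0 < d) (hR : 0 ≤ R) (hn : 0 ≤ n)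
    (has : a ≤ s) (hη : ∫ x in ball z s, |f x - n| ≤ η) (w : (Fin 3 → ℤ) → ℝ) :
    (∫ x, (∑ k ∈ lat R, w k * (amp z a d x * wv a R k x)) ^ 2 ∂μ ≤
      (n * (2 * a) ^ 3 / (lat R).card + η) * ∑ k ∈ lat R, w k ^ 2) ∧
    ((n * (2 * a) ^ 3 / (lat R).card - n * (12 * (2 * R + 1) * d * (2 * a) ^ 2) / (lat R).card - η) *
      ∑ k ∈ lat R, w k ^ 2 ≤ ∫ x, (∑ k ∈ lat R, w k * (amp z a d x * wv a R k x)) ^ 2 ∂μ) ∧
    ∫ x in (ball z (a - d))ᶜ, (∑ k ∈ lat R, w k * (amp z a d x * wv a R k x)) ^ 2 ∂μ ≤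
      (n * (12 * (2 * R + 1) * d * (2 * a) ^ 2) / (lat R).card + η) * ∑ k ∈ lat R, w k ^ 2 := by
  obtain ⟨G, hG⟩ : ∃ G : (Fin 3 → ℝ) → ℝ, ∀ x, G x = (∑ k ∈ lat R, w k * wv a R k x) ^ 2 :=
    ⟨_, fun _ => rfl⟩
  obtain ⟨F, hF⟩ : ∃ F : (Fin 3 → ℝ) → ℝ, ∀ x, F x = amp z a d x ^ 2 * G x := ⟨_, fun _ => rfl⟩
  set W := ∑ k ∈ lat R, w k ^ 2 with hW
  have hW0 : 0 ≤ W := Finset.sum_nonneg fun _ _ => sq_nonneg _
  simp only [pform, ← hG, ← hF]
  have cG : Continuous G := by rw [funext hG]; have := wv_cont a R; fun_prop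
  have cF : Continuous F := by rw [funext hF]; have := amp_cont z a d; fun_prop
  have G0 : ∀ x, 0 ≤ G x := fun x => by rw [hG]; exact sq_nonneg _
  have GW : ∀ x, G x ≤ W := fun x => by rw [hG]; exact wform_le a hR w x
  have F0 : ∀ x, 0 ≤ F x := fun x => by rw [hF]; exact mul_nonneg (sq_nonneg _) (G0 x)
  have FG : ∀ x, F x ≤ G x := fun x => by
    rw [hF]; exact mul_le_of_le_one_left (G0 x) (amp_sq_le _ _ _ _)
  have Fz : ∀ x, x ∉ ball z a → F x = 0 := fun x hx => by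
    rw [hF, amp_zero hd (not_lt.1 hx)]; simp
  have Fz' : ∀ x, x ∉ ball z s → F x = 0 := fun x hx => Fz x fun h => hx (ball_subset_ball has h)
  have hv : ∀ r, volume (ball z r) ≠ ⊤ := fun r => measure_ball_lt_top.ne
  have iG : IntegrableOn G (ball z a) := int_on (hv a) cG W fun x => by
    rw [Real.norm_of_nonneg (G0 x)]; exact GW x
  have iF : IntegrableOn F (ball z a) := int_on (hv a) cF W fun x => by
    rw [Real.norm_of_nonneg (F0 x)]; exact (FG x).trans (GW x)
  have c0 := card_pos hR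
  have b1 : ∫ x in ball z a, G x = (2 * a) ^ 3 / (lat R).card * W := by
    simp only [hG, wform a hR]
    rw [integral_div, ball_form ha]; ring
  have b2 : ∫ x in ball z a \ ball z (a - d), G x ≤
      12 * (2 * R + 1) * d * (2 * a) ^ 2 / (lat R).card * W := by
    simp only [hG, wform a hR]
    rw [integral_div, div_mul_eq_mul_div]
    exact div_le_div_of_nonneg_right (shell_form ha hR hd.le z w) c0.le
  have hsub : ball z (a - d) ⊆ ball z a := ball_subset_ball (by linarith)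
  have e1 : ∫ x, F x = ∫ x in ball z a, F x := (setIntegral_eq_integral_of_forall_compl_eq_zero Fz).symm
  have e2 : ∫ x in ball z a, F x ≤ ∫ x in ball z a, G x := integral_mono iF iG FG
  have e3 : ∫ x in ball z (a - d), G x ≤ ∫ x in ball z a, F x := by
    rw [← setIntegral_congr_fun (f := F) measurableSet_ball fun x hx => by
      simp only [hF, amp_one hd hx]; ring]
    exact setIntegral_mono_set iF (Filter.Eventually.of_forall F0) hsub.eventuallyLE
  have e4 := setIntegral_sdiff measurableSet_ball iG hsub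
  have k1 := abs_le.1 (h.cmp measurableSet_ball (hv s) hη cF.measurable hW0
    (fun x => by rw [abs_of_nonneg (F0 x)]; exact (FG x).trans (GW x)) Fz')
  have mc : MeasurableSet (ball z (a - d))ᶜ := measurableSet_ball.compl
  have k2 := abs_le.1 (h.cmp measurableSet_ball (hv s) hη (F := (ball z (a - d))ᶜ.indicator F)
    (cF.measurable.indicator mc) hW0
    (fun x => by
      by_cases hx : x ∈ (ball z (a - d))ᶜ
      · rw [indicator_of_mem hx, abs_of_nonneg (F0 x)]; exact (FG x).trans (GW x)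
      · rw [indicator_of_notMem hx, abs_zero]; exact hW0)
    fun x hx => by
      by_cases hx' : x ∈ (ball z (a - d))ᶜ
      · rw [indicator_of_mem hx', Fz' x hx]
      · rw [indicator_of_notMem hx'])
  have e5 : ∫ x, (ball z (a - d))ᶜ.indicator F x ≤ ∫ x in ball z a \ ball z (a - d), G x := by
    have mZ : MeasurableSet (ball z a \ ball z (a - d)) := measurableSet_ball.diff measurableSet_ball
    rw [← integral_indicator mZ]
    refine integral_mono_of_nonneg (Filter.Eventually.of_forall fun x =>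
      indicator_nonneg (fun x _ => F0 x) _) ((iG.mono_set sdiff_subset).integrable_indicator mZ)
      (Filter.Eventually.of_forall fun x => ?_)
    by_cases h1 : x ∈ ball z (a - d)
    · rw [indicator_of_notMem (not_not.2 h1), indicator_of_notMem fun h => h.2 h1]
    · rw [indicator_of_mem (show x ∈ (ball z (a - d))ᶜ from h1)]
      by_cases h2 : x ∈ ball z a
      · rw [indicator_of_mem (show x ∈ ball z a \ ball z (a - d) from ⟨h2, h1⟩)]; exact FG x
      · rw [indicator_of_notMem fun h => h2 h.1, Fz x h2]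
  rw [integral_indicator mc] at k2
  rw [mul_div_assoc, mul_div_assoc]
  generalize (2 * a) ^ 3 / ((lat R).card : ℝ) = m at *
  generalize 12 * (2 * R + 1) * d * (2 * a) ^ 2 / ((lat R).card : ℝ) = ζ at *
  refine ⟨?_, ?_, ?_⟩
  · have : n * ∫ x, F x ≤ n * (m * W) := mul_le_mul_of_nonneg_left (by linarith) hn
    linarith [k1.2]
  · have : n * (m * W - ζ * W) ≤ n * ∫ x, F x := mul_le_mul_of_nonneg_left (by linarith) hn
    linarith [k1.1]
  · have : n * ∫ x, (ball z (a - d))ᶜ.indicator F x ≤ n * (ζ * W) :=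
      mul_le_mul_of_nonneg_left (by linarith) hn
    linarith [k2.2]

theorem amp_lip (z : Fin 3 → ℝ) (a : ℝ) {d : ℝ} (hd : 0 < d) (x y : Fin 3 → ℝ) :
    |amp z a d y - amp z a d x| ≤ 2 / d * dist y x := by
  refine (abs_sin_sub_sin_le _ _).trans ?_
  rw [← mul_sub, abs_mul, abs_of_pos (by positivity)]
  have h1 := tau_lip z a hd 0 x y
  simp only [add_zero] at h1
  have : π / 2 ≤ 2 := by linarith [pi_le_four]
  calc _ ≤ 2 * (1 / d * dist y x) := mul_le_mul this h1 (abs_nonneg _) zero_le_two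
    _ = _ := by ring

theorem cell_lip (z : Fin 3 → ℝ) {a d R : ℝ} (ha : 0 < a) (hd : 0 < d) (hR : 0 ≤ R)
    (x y : Fin 3 → ℝ) :
    √(∑ k ∈ lat R, (amp z a d y * wv a R k y - amp z a d x * wv a R k x) ^ 2) ≤
      (4 / d + 12 * π * R / a) * dist y x := by
  have c0 := card_pos hR
  have h1 := amp_lip z a hd x y
  have h2 : ∑ k ∈ lat R, (wv a R k y - wv a R k x) ^ 2 ≤ (6 * π * R / a * dist y x) ^ 2 := by
    simp only [wv, ← sub_div, div_pow, Real.sq_sqrt c0.le]
    rw [← Finset.sum_div, div_le_iff₀ c0, mul_comm, ← nsmul_eq_mul]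
    refine Finset.sum_le_card_nsmul _ _ _ fun k hk => ?_
    rw [← sq_abs]
    exact pow_le_pow_left₀ (abs_nonneg _) (cas_lip ha hk x y) 2
  have h3 : (amp z a d y - amp z a d x) ^ 2 ≤ (2 / d * dist y x) ^ 2 := by
    rw [← sq_abs]; exact pow_le_pow_left₀ (abs_nonneg _) h1 2
  have hA : 0 ≤ 2 / d * dist y x := by positivity
  have hB : 0 ≤ 6 * π * R / a * dist y x := by positivity
  refine Real.sqrt_le_iff.2 ⟨by positivity, ?_⟩
  calc _ ≤ ∑ k ∈ lat R, (2 * (amp z a d y - amp z a d x) ^ 2 * wv a R k y ^ 2 +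
        2 * (wv a R k y - wv a R k x) ^ 2) := Finset.sum_le_sum fun k _ => by
        have e : amp z a d y * wv a R k y - amp z a d x * wv a R k x =
          (amp z a d y - amp z a d x) * wv a R k y + amp z a d x * (wv a R k y - wv a R k x) := by
          ring
        have h4 := mul_le_of_le_one_left (sq_nonneg (wv a R k y - wv a R k x)) (amp_sq_le z a d x)
        rw [e]
        nlinarith [sq_nonneg ((amp z a d y - amp z a d x) * wv a R k y -
          amp z a d x * (wv a R k y - wv a R k x))]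
    _ ≤ _ := by
        rw [Finset.sum_add_distrib, ← Finset.mul_sum, ← Finset.mul_sum, sum_wv_sq a hR,
          show (4 / d + 12 * π * R / a) * dist y x =
            2 * (2 / d * dist y x) + 2 * (6 * π * R / a * dist y x) by ring]
        nlinarith [mul_nonneg hA hB]

end Pool.Agent.MP_2c73ad_mp.H67
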