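import Pool.Agent.MP_2c73ad_mp.H67.Cell

/-! The choice of the parameters of one cell. -/

open Real

namespace Pool.Agent.MP_2c73ad_mp.H67

theorem a0_bounds {a0 : ℝ} (h : 4 * π / 3 * a0 ^ 3 = 1) (h0 : 0 < a0) : 1 / 2 ≤ a0 ∧ a0 ≤ 1 := by
  have h3 := pi_gt_three
  have h4 := pi_le_four
  constructor
  · refine le_of_pow_le_pow_left₀ three_ne_zero h0.le ?_
    nlinarith [pow_pos h0 3]
  · refine le_of_pow_le_pow_left₀ three_ne_zero zero_le_one ?_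
    nlinarith [pow_pos h0 3]

theorem cube_diff {p q : ℝ} (hq : 0 ≤ q) (h : q ≤ p) : p ^ 3 - q ^ 3 ≤ 3 * p ^ 2 * (p - q) := by
  have : 0 ≤ (p - q) ^ 2 * (2 * p + q) := mul_nonneg (sq_nonneg _) (by linarith)
  nlinarith

theorem lat_num {σ y a0 R : ℝ} (hσ0 : 0 < σ) (hσ : σ ≤ 1 / 25) (hy : 4 ≤ σ * y)
    (h : 4 * π / 3 * a0 ^ 3 = 1) (h0 : 0 < a0) (hR : R = (1 - σ) * a0 * y - 1) :
    0 ≤ R ∧ 2 * R + 1 ≤ 2 * y ∧ ((1 - 2 * σ) * y) ^ 3 ≤ (lat R).card ∧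
      ((lat R).card : ℝ) ≤ ((1 - σ) * y) ^ 3 ∧
      (∑ k ∈ lat R, ∑ j, (k j : ℝ) ^ 2) / (lat R).card ≤
        3 / 5 * a0 ^ 2 * y ^ 2 / (1 - 2 * σ) ^ 3 := by
  obtain ⟨a1, a2⟩ := a0_bounds h h0
  have y0 : 0 < y := (mul_pos_iff_of_pos_left hσ0).1 (by linarith)
  have hy' : 100 ≤ y := by nlinarith
  have s2 : 2 ≤ σ * a0 * y := by nlinarith
  have u0 : 0 < a0 * y := by positivity
  have u1 : 50 ≤ a0 * y := by nlinarith
  have r1 : (1 - 2 * σ) * (a0 * y) ≤ R - 1 := by rw [hR]; nlinarith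
  have r2 : R + 2 ≤ a0 * y := by rw [hR]; nlinarith
  have r0 : 1 ≤ R := by nlinarith
  have p0 : 0 < 1 - 2 * σ := by linarith
  have c1 : ((1 - 2 * σ) * y) ^ 3 ≤ (lat R).card := by
    refine le_trans ?_ (le_card_lat r0)
    have := pow_le_pow_left₀ (by positivity) r1 3
    calc _ = 4 * π / 3 * ((1 - 2 * σ) * (a0 * y)) ^ 3 := by
          linear_combination (-((1 - 2 * σ) * y) ^ 3) * h
      _ ≤ _ := mul_le_mul_of_nonneg_left this (by positivity)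
  refine ⟨by linarith, by nlinarith, c1, (card_lat_le (by linarith)).trans (le_of_eq ?_), ?_⟩
  · rw [hR]
    linear_combination (((1 - σ) * y) ^ 3) * h
  · have c2 : ∑ k ∈ lat R, ∑ j, (k j : ℝ) ^ 2 ≤ 3 / 5 * a0 ^ 2 * y ^ 5 := by
      refine (sum_lat_le (by linarith)).trans ?_
      have := pow_le_pow_left₀ (by linarith) r2 5
      calc _ ≤ 4 * π / 5 * (a0 * y) ^ 5 := mul_le_mul_of_nonneg_left this (by positivity)
        _ = _ := by linear_combination (3 / 5 * a0 ^ 2 * y ^ 5) * h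
    calc _ ≤ 3 / 5 * a0 ^ 2 * y ^ 5 / ((1 - 2 * σ) * y) ^ 3 :=
          div_le_div₀ (by positivity) c2 (by positivity) c1
      _ = _ := by field_simp

theorem num_basic {b y η : ℝ} (hb : 0 < b) (hb1 : b ≤ 1 / 100) (hη : η = b ^ 3)
    (hy : 48000 / b ^ 4 ≤ y) :
    0 < η ∧ 48000 ≤ y * η * b ∧ η ≤ b / 10000 ∧ 4800000 ≤ y * η ∧ 1 ≤ y ∧ 1 / b ≤ y ^ 3 - η := by
  have hb4 : 0 < b ^ 4 := by positivity
  have y0 : 0 < y := lt_of_lt_of_le (by positivity) hy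
  have η0 : 0 < η := by rw [hη]; positivity
  have hyb : 48000 ≤ y * η * b := by
    rw [div_le_iff₀ hb4] at hy
    rw [hη]; linarith
  have hηb : η ≤ b / 10000 := by
    have : b ^ 2 ≤ (1 / 100) ^ 2 := pow_le_pow_left₀ hb.le hb1 2
    have := mul_le_mul_of_nonneg_left this hb.le
    rw [hη]; linarith
  have hyη : 4800000 ≤ y * η := by
    have := mul_le_mul_of_nonneg_left hb1 (mul_pos y0 η0).le
    linarith
  have h1 := mul_le_mul_of_nonneg_left (show η ≤ 1 by linarith) y0.le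
  have hy1 : 1 ≤ y := by linarith
  refine ⟨η0, hyb, hηb, hyη, hy1, ?_⟩
  have y3 : y ≤ y ^ 3 := le_self_pow₀ hy1 three_ne_zero
  have h2 := mul_le_mul_of_nonneg_right h1 hb.le
  have h3 := mul_le_mul_of_nonneg_right y3 hb.le
  have h4 : η * b ≤ 1 := mul_le_one₀ (by linarith) hb.le (by linarith)
  rw [div_le_iff₀ hb]
  linarith

theorem num_shell {y η σ α : ℝ} (η0 : 0 < η) (η1 : η ≤ 1 / 1000000) (hyη : 4800000 ≤ y * η)
    (hy1 : 1 ≤ y) (hσ : σ = 40000 * η) (hα : α = (1 - 3 * σ) * y) :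
    y / 2 ≤ α ∧ α + η / 2 < y ∧ (α + η / 2) ^ 3 - (α - η / 2) ^ 3 + η ≤ 4 * η * y ^ 2 ∧
      y ^ 3 - (α - η / 2) ^ 3 + η ≤ 13 * σ * y ^ 3 := by
  have h1 := mul_le_mul_of_nonneg_left η1 (show 0 ≤ y by linarith)
  have α0 : y / 2 ≤ α := by rw [hα, hσ]; linarith
  have α1 : α + η / 2 < y := by rw [hα, hσ]; linarith
  have α2 : y - (α - η / 2) ≤ 4 * σ * y := by rw [hα, hσ]; linarith
  have y2 : 1 ≤ y ^ 2 := one_le_pow₀ hy1
  have y3 : 1 ≤ y ^ 3 := one_le_pow₀ hy1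
  refine ⟨α0, α1, ?_, ?_⟩
  · have h2 := cube_diff (p := α + η / 2) (q := α - η / 2) (by linarith) (by linarith)
    have h3 := mul_le_mul_of_nonneg_left (pow_le_pow_left₀ (by linarith) α1.le 2) η0.le
    have h4 := mul_le_mul_of_nonneg_left y2 η0.le
    linarith
  · have h2 := cube_diff (p := y) (q := α - η / 2) (by linarith) (by linarith)
    have h3 := mul_le_mul_of_nonneg_left α2 (show 0 ≤ 3 * y ^ 2 by positivity)
    have h4 := mul_le_mul_of_nonneg_left y3 η0.le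
    have h5 := mul_pos η0 (show 0 < y ^ 3 by linarith)
    rw [hσ] at h3 ⊢
    linarith

theorem num_count {y η σ α N R : ℝ} (η0 : 0 < η) (η1 : η ≤ 1 / 1000000)
    (hy1 : 1 ≤ y) (hσ : σ = 40000 * η) (hα : α = (1 - 3 * σ) * y) (r0 : 0 ≤ R)
    (r1 : 2 * R + 1 ≤ 2 * y) (c1 : ((1 - 2 * σ) * y) ^ 3 ≤ N) (c2 : N ≤ ((1 - σ) * y) ^ 3) :
    α ^ 3 / N + η ≤ 1 - σ / 2 ∧ 3 * (2 * R + 1) * η * α ^ 2 / N + 2 * η ≤ σ / 400 ∧
      4 * η * y ^ 2 ≤ σ / 400 * N ∧ N ≤ y ^ 3 - η := by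
  have y0 : 0 < y := by linarith
  have σ0 : 0 < σ := by rw [hσ]; positivity
  have σ1 : σ ≤ 1 / 25 := by rw [hσ]; linarith
  have sy := mul_le_mul_of_nonneg_right σ1 y0.le
  have sy0 := mul_pos σ0 y0
  have α0 : 0 ≤ α := by rw [hα]; linarith
  have αy : α ≤ y := by rw [hα]; linarith
  have N0 : y ^ 3 / 8 ≤ N := by
    refine le_trans ?_ c1
    have := pow_le_pow_left₀ (by positivity) (show y / 2 ≤ (1 - 2 * σ) * y by linarith) 3
    linarith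
  have N1 : 0 < N := lt_of_lt_of_le (by positivity) N0
  have b3 : (1 - σ) ^ 3 ≤ 1 - σ := pow_le_of_le_one (by linarith) (by linarith) three_ne_zero
  have y3 : y ^ 2 ≤ y ^ 3 := pow_le_pow_right₀ hy1 (by norm_num)
  have hN := mul_le_mul_of_nonneg_left N0 η0.le
  refine ⟨?_, ?_, ?_, ?_⟩
  · have : α ^ 3 / N ≤ 1 - σ := by
      rw [div_le_iff₀ N1]
      have b1 : α ≤ (1 - σ) * ((1 - 2 * σ) * y) := by
        have := mul_pos σ0 sy0
        rw [hα]; linarith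
      have b2 := pow_le_pow_left₀ α0 b1 3
      rw [mul_pow] at b2
      exact b2.trans (mul_le_mul b3 c1 (pow_nonneg (mul_nonneg (by linarith) y0.le) 3) (by linarith))
    linarith
  · have : 3 * (2 * R + 1) * η * α ^ 2 / N ≤ 48 * η := by
      rw [div_le_iff₀ N1]
      have b2 : 3 * (2 * R + 1) * η * α ^ 2 ≤ 3 * (2 * y) * η * y ^ 2 := by gcongr
      linarith
    linarith
  · have := mul_le_mul_of_nonneg_left y3 η0.le
    have := mul_pos η0 (pow_pos y0 3)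
    rw [hσ]; linarith
  · rw [mul_pow] at c2
    have h1 := mul_le_mul_of_nonneg_right b3 (pow_pos y0 3).le
    have h2 := mul_le_mul_of_nonneg_left (one_le_pow₀ (n := 3) hy1) σ0.le
    linarith

theorem num_den {σ b : ℝ} (σ0 : 0 < σ) (σ1 : σ ≤ 1 / 25) (hσb : σ ≤ 4 * b) :
    1 / ((1 - 2 * σ) ^ 3 * (1 - 3 * σ) ^ 2) ≤ 1 + 96 * b := by
  have p1 : 0 < 1 - 2 * σ := by linarith
  have p2 : 0 < 1 - 3 * σ := by linarith
  have b3 : 1 - 6 * σ ≤ (1 - 2 * σ) ^ 3 := by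
    have := one_add_mul_le_pow (a := -(2 * σ)) (by linarith) 3
    norm_num at this
    linarith
  have b4 : 1 - 6 * σ ≤ (1 - 3 * σ) ^ 2 := by nlinarith
  have b5 : 1 - 12 * σ ≤ (1 - 2 * σ) ^ 3 * (1 - 3 * σ) ^ 2 := by
    have := mul_le_mul b3 b4 (by linarith) (by positivity)
    nlinarith
  rw [div_le_iff₀ (by positivity)]
  have := mul_le_mul (show 1 + 24 * σ ≤ 1 + 96 * b by linarith) b5 (by linarith) (by linarith)
  nlinarith

theorem num_final {K b C0 η y T m1 m2 m3 : ℝ} (K0 : 0 ≤ K) (K1 : K ≤ 24) (hb : 0 < b)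
    (hb1 : b ≤ 1 / 100) (hC0 : 0 ≤ C0) (hηb : η ≤ b / 10000) (hy1 : 1 ≤ y) (hT : 0 ≤ T)
    (h1 : m1 ≤ K * T * (1 + 96 * b) * ((1 + b) * y ^ 3)) (h2 : m2 ≤ b * (T * y ^ 3))
    (h3 : m3 ≤ 520000 * C0 * b * (T * y ^ 3)) :
    m1 + m2 + m3 ≤ (K + (5000 + 1040000 * C0) * b) * (T * (y ^ 3 - 5 / 3 * η)) := by
  have y3 : 1 ≤ y ^ 3 := one_le_pow₀ hy1
  have hP : 0 ≤ T * y ^ 3 := by positivity
  have bb : b * b ≤ 1 / 100 * b := mul_le_mul_of_nonneg_right hb1 hb.le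
  have m6 : m1 ≤ (K + 2352 * b) * (T * y ^ 3) := by
    refine h1.trans (le_trans (le_of_eq ?_) (mul_le_mul_of_nonneg_right
      (show K * ((1 + 96 * b) * (1 + b)) ≤ K + 2352 * b from ?_) hP))
    · ring
    · have a1 := mul_le_mul_of_nonneg_left
        (show (1 + 96 * b) * (1 + b) ≤ 1 + 98 * b by linarith) K0
      have a2 := mul_le_mul_of_nonneg_right K1 hb.le
      linarith
  have m7 : (1 - 2 * b) * (T * y ^ 3) ≤ T * (y ^ 3 - 5 / 3 * η) := by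
    have a1 := mul_le_mul_of_nonneg_left y3 hb.le
    have := mul_le_mul_of_nonneg_left
      (show (1 - 2 * b) * y ^ 3 ≤ y ^ 3 - 5 / 3 * η by linarith) hT
    linarith
  have m8 : K + 2353 * b + 520000 * C0 * b ≤ (K + (5000 + 1040000 * C0) * b) * (1 - 2 * b) := by
    have a1 := mul_nonneg hC0 hb.le
    have a2 := mul_le_mul_of_nonneg_right K1 hb.le
    have a3 := mul_le_mul_of_nonneg_left bb hC0
    linarith
  have m9 := mul_le_mul_of_nonneg_right m8 hP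
  have m10 := mul_le_mul_of_nonneg_left m7
    (show 0 ≤ K + (5000 + 1040000 * C0) * b by positivity)
  linarith

theorem num_lip {η y α R : ℝ} (η0 : 0 < η) (η1 : η ≤ 1 / 1000000) (hy1 : 1 ≤ y) (α0 : y / 2 ≤ α)
    (r0 : 0 ≤ R) (r1 : 2 * R + 1 ≤ 2 * y) : 24 * π * R / α ≤ 4 / η := by
  rw [div_le_div_iff₀ (by linarith) η0]
  have a1 : π * R ≤ 4 * y := mul_le_mul pi_le_four (by linarith) r0 (by norm_num)
  have a2 := mul_le_mul a1 η1 η0.le (by linarith)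
  linarith

theorem cell_num {b t l a0 σ a d R C0 : ℝ} (hb : 0 < b) (hb1 : b ≤ 1 / 100) (hl : 0 < l)
    (hy : 48000 / b ^ 4 ≤ t * l) (h : 4 * π / 3 * a0 ^ 3 = 1) (h0 : 0 < a0) (hC0 : 0 ≤ C0)
    (hσ : σ = 40000 * b ^ 3) (ha : a = (1 - 3 * σ) * l / 2) (hd : d = b ^ 3 / 4 / t)
    (hR : R = (1 - σ) * a0 * (t * l) - 1) :
    0 < t ∧ 0 < d ∧ d < a ∧ a + d < l / 2 ∧ 0 ≤ R ∧ b / t ≤ l ∧
    t ^ 3 * (2 * a) ^ 3 / (lat R).card + b ^ 3 ≤ 1 - σ / 2 ∧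
    t ^ 3 * (12 * (2 * R + 1) * d * (2 * a) ^ 2) / (lat R).card + 2 * b ^ 3 ≤ σ / 400 ∧
    t ^ 3 * ((2 * (a + d)) ^ 3 - (2 * (a - d)) ^ 3) + b ^ 3 ≤ σ / 400 * (lat R).card ∧
    ((lat R).card : ℝ) ≤ t ^ 3 * l ^ 3 - b ^ 3 ∧ 1 / b ≤ t ^ 3 * l ^ 3 - b ^ 3 ∧
    (π / a) ^ 2 * (∑ k ∈ lat R, ∑ j, (k j : ℝ) ^ 2) / (lat R).card * (t ^ 3 * (2 * a) ^ 3 + b ^ 3) +
      6 * (10 / d + 12 * π * R / a) ^ 2 *
        (t ^ 3 * ((2 * (a + d)) ^ 3 - (2 * (a - d)) ^ 3) + b ^ 3) +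
      C0 * (t / b) ^ 2 * (t ^ 3 * (l ^ 3 - (2 * (a - d)) ^ 3) + b ^ 3) ≤
      (12 / 5 * π ^ 2 * a0 ^ 2 + (5000 + 1040000 * C0) * b) *
        (t ^ 2 * (t ^ 3 * l ^ 3 - 5 / 3 * b ^ 3)) := by
  obtain ⟨a1, a2⟩ := a0_bounds h h0
  have ht : 0 < t := (mul_pos_iff_of_pos_right hl).1 (lt_of_lt_of_le (by positivity) hy)
  obtain ⟨y, hyd⟩ : ∃ y, y = t * l := ⟨_, rfl⟩
  obtain ⟨η, hη⟩ : ∃ η, η = b ^ 3 := ⟨_, rfl⟩
  rw [← hyd] at hy hR
  obtain ⟨η0, hyb, hηb, hyη, hy1, hbig⟩ := num_basic hb hb1 hη hy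
  have η1 : η ≤ 1 / 1000000 := by linarith
  rw [← hη] at hσ hd ⊢
  have σ0 : 0 < σ := by rw [hσ]; positivity
  have σ1 : σ ≤ 1 / 25 := by rw [hσ]; linarith
  obtain ⟨r0, r1, c1, c2, c3⟩ := lat_num σ0 σ1 (by rw [hσ]; linarith) h h0 hR
  generalize ((lat R).card : ℝ) = N at *
  generalize ∑ k ∈ lat R, ∑ j, (k j : ℝ) ^ 2 = S at *
  obtain ⟨α, hα⟩ : ∃ α, α = (1 - 3 * σ) * y := ⟨_, rfl⟩
  obtain ⟨α0, α1, z1, z2⟩ := num_shell η0 η1 hyη hy1 hσ hα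
  obtain ⟨k1, k2, k3, k4⟩ := num_count η0 η1 hy1 hσ hα r0 r1 c1 c2
  have αp : 0 < α := by linarith
  have ea : a = α / 2 / t := by rw [ha, hα, hyd]; field_simp
  have el : l = y / t := by rw [hyd]; field_simp
  have e1 : t ^ 3 * (2 * a) ^ 3 = α ^ 3 := by rw [ea]; field_simp
  have e2 : t ^ 3 * (12 * (2 * R + 1) * d * (2 * a) ^ 2) = 3 * (2 * R + 1) * η * α ^ 2 := by
    rw [ea, hd]; field_simp; ring
  have e3 : t ^ 3 * ((2 * (a + d)) ^ 3 - (2 * (a - d)) ^ 3) =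
      (α + η / 2) ^ 3 - (α - η / 2) ^ 3 := by rw [ea, hd]; field_simp; ring
  have e4 : t ^ 3 * l ^ 3 = y ^ 3 := by rw [hyd]; ring
  have e5 : t ^ 3 * (l ^ 3 - (2 * (a - d)) ^ 3) = y ^ 3 - (α - η / 2) ^ 3 := by
    rw [ea, hd, el]; field_simp; ring
  have e6 : 10 / d + 12 * π * R / a = t * (40 / η + 24 * π * R / α) := by
    rw [ea, hd]; field_simp; ring
  rw [e1, e2, e3, e4, e5, e6]
  refine ⟨ht, by rw [hd]; positivity, ?_, ?_, r0, ?_, k1, k2, z1.trans k3, k4, hbig, ?_⟩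
  · rw [ea, hd]
    exact div_lt_div_of_pos_right (by linarith) ht
  · rw [ea, hd, el, ← add_div, div_right_comm y]
    exact div_lt_div_of_pos_right (by linarith) ht
  · rw [el]
    exact div_le_div_of_nonneg_right (by linarith) ht.le
  · have hp2 : π ^ 2 ≤ 10 := by
      have := pow_le_pow_left₀ pi_pos.le pi_lt_d2.le 2
      linarith
    refine num_final (by positivity) ?_ hb hb1 hC0 hηb hy1 (sq_nonneg t) ?_ ?_ ?_
    · have := mul_le_mul hp2 (pow_le_one₀ (n := 2) h0.le a2) (sq_nonneg _) (by norm_num)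
      linarith
    · refine mul_le_mul ?_ ?_ (by positivity) (by positivity)
      · have p1 : 0 < 1 - 2 * σ := by linarith
        have p2 : 0 < 1 - 3 * σ := by linarith
        have y0 : 0 < y := by linarith
        calc _ ≤ (π / a) ^ 2 * (3 / 5 * a0 ^ 2 * y ^ 2 / (1 - 2 * σ) ^ 3) := by
              rw [mul_div_assoc]; exact mul_le_mul_of_nonneg_left c3 (sq_nonneg _)
          _ = 12 / 5 * π ^ 2 * a0 ^ 2 * t ^ 2 * (1 / ((1 - 2 * σ) ^ 3 * (1 - 3 * σ) ^ 2)) := by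
              rw [ea, hα]; field_simp; ring
          _ ≤ _ := mul_le_mul_of_nonneg_left (num_den σ0 σ1 (by rw [hσ]; linarith)) (by positivity)
      · have b1 := pow_le_pow_left₀ αp.le (show α ≤ y by linarith) 3
        have b2 := mul_le_mul_of_nonneg_left (one_le_pow₀ (n := 3) hy1) hb.le
        linarith
    · have b1 : t * (40 / η + 24 * π * R / α) ≤ 44 * t / η := by
        rw [show 44 * t / η = t * (40 / η + 4 / η) by ring]
        exact mul_le_mul_of_nonneg_left (add_le_add_right (num_lip η0 η1 hy1 α0 r0 r1) _) ht.le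
      have b2 : 0 ≤ (α + η / 2) ^ 3 - (α - η / 2) ^ 3 + η := by
        have := pow_le_pow_left₀ (show 0 ≤ α - η / 2 by linarith)
          (show α - η / 2 ≤ α + η / 2 by linarith) 3
        linarith
      calc _ ≤ 6 * (44 * t / η) ^ 2 * (4 * η * y ^ 2) :=
            mul_le_mul (mul_le_mul_of_nonneg_left (pow_le_pow_left₀ (by positivity) b1 2)
              (by norm_num)) z1 b2 (by positivity)
        _ = 46464 / η * (t ^ 2 * y ^ 2) := by field_simp; ring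
        _ ≤ (y * b) * (t ^ 2 * y ^ 2) := by
            refine mul_le_mul_of_nonneg_right ?_ (by positivity)
            rw [div_le_iff₀ η0]; linarith
        _ = _ := by ring
    · calc _ ≤ C0 * (t / b) ^ 2 * (13 * σ * y ^ 3) := mul_le_mul_of_nonneg_left z2 (by positivity)
        _ = _ := by rw [hσ, hη]; field_simp; ring

end Pool.Agent.MP_2c73ad_mp.H67
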