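import Pool.Agent.MP_2c73ad_mp.H67.Poinc
import Pool.Agent.MP_2c73ad_mp.H67.Cell

/-! Length scales and the choice of the dyadic cells on which the density is almost constant. -/

open MeasureTheory Metric Set Filter Topology Pool.Agent.MP_2c73ad_mp.H42
open scoped ENNReal NNReal

namespace Pool.Agent.MP_2c73ad_mp.H67

theorem volr_ball (z : Fin 3 → ℝ) {s : ℝ} (hs : 0 < s) : volume.real (ball z s) = (2 * s) ^ 3 := by
  rw [Measure.real, vol_ball _ hs, ENNReal.toReal_ofReal (by positivity)]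

theorem scaleW {f : (Fin 3 → ℝ) → ℝ} (hf : Measurable f) (hf0 : ∀ x, 0 ≤ f x)
    (μ : Measure (Fin 3 → ℝ)) [IsFiniteMeasure μ]
    (hμ : μ = volume.withDensity fun x => ENNReal.ofReal (f x))
    (hJ0 : ∫⁻ x, ENNReal.ofReal (f x ^ (5 / 3 : ℝ)) ≠ 0) {s ε : ℝ} (hs : 0 < s) (hε : 0 < ε) :
    ∃ (r : (Fin 3 → ℝ) → ℝ) (r0 R1 : ℝ), LipschitzWith 1 r ∧ 0 < r0 ∧ (∀ x, r0 ≤ r x) ∧
      (∀ x, r x ≤ R1) ∧ (∀ x, μ.real (ball x (r x)) ≤ s ^ 3 / 20) ∧
      (∀ x, r x < R1 → ∀ t, r x < t → s ^ 3 / 20 < μ.real (ball x t)) ∧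
      ∫⁻ x in {x | r x < R1}, ENNReal.ofReal (1 / r x ^ 2) ∂μ ≤
        ENNReal.ofReal (100000 / s ^ 2) * ∫⁻ x, ENNReal.ofReal (f x ^ (5 / 3 : ℝ)) ∧
      ENNReal.ofReal (1 / R1 ^ 2) * μ univ ≤
        ENNReal.ofReal ε * ∫⁻ x, ENNReal.ofReal (f x ^ (5 / 3 : ℝ)) := by
  have hs3 : 0 < s ^ 3 := by positivity
  have hfin : ∫⁻ x, ENNReal.ofReal (f x) ≠ ∞ := by
    have := measure_ne_top μ univ
    rwa [hμ, withDensity_apply _ MeasurableSet.univ, Measure.restrict_univ] at this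
  obtain ⟨η, hη, hηs⟩ := exists_pos_setLIntegral_lt_of_measure_lt hfin
    (ε := ENNReal.ofReal (s ^ 3 / 20)) (by simp; positivity)
  have ht : Tendsto (fun s : ℝ => ENNReal.ofReal ((2 * s) ^ 3)) (nhdsWithin 0 (Ioi 0)) (𝓝 0) := by
    have : Continuous fun s : ℝ => ENNReal.ofReal ((2 * s) ^ 3) :=
      ENNReal.continuous_ofReal.comp (by fun_prop)
    simpa using (this.tendsto 0).mono_left nhdsWithin_le_nhds
  obtain ⟨r0, hr0, h0⟩ := ((ht.eventually (gt_mem_nhds hη)).and self_mem_nhdsWithin).exists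
  have h0' : 0 < r0 := h0
  have hsmall : ∀ x, μ.real (ball x r0) ≤ s ^ 3 / 20 := fun x => by
    apply ENNReal.toReal_le_of_le_ofReal (by positivity)
    rw [hμ, withDensity_apply _ measurableSet_ball]
    exact (hηs _ (by rw [vol_ball x h0']; exact hr0)).le
  set J := ∫⁻ x, ENNReal.ofReal (f x ^ (5 / 3 : ℝ)) with hJ
  obtain ⟨R1, h01, hR1⟩ : ∃ R1, r0 ≤ R1 ∧
      ENNReal.ofReal (1 / R1 ^ 2) * μ univ ≤ ENNReal.ofReal ε * J := by
    have ht2 : Tendsto (fun s : ℝ => ENNReal.ofReal (1 / s ^ 2) * μ univ) atTop (𝓝 0) := by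
      have h1 : Tendsto (fun s : ℝ => 1 / s ^ 2) atTop (𝓝 0) :=
        tendsto_const_nhds.div_atTop (tendsto_pow_atTop two_ne_zero)
      have h2 := ENNReal.Tendsto.mul_const (b := μ univ)
        ((ENNReal.continuous_ofReal.tendsto 0).comp h1) (Or.inr (measure_ne_top _ _))
      simpa using h2
    obtain ⟨R1, h1, h2⟩ := ((eventually_ge_atTop r0).and (ht2.eventually (gt_mem_nhds
      (ENNReal.mul_pos (ENNReal.ofReal_pos.2 hε).ne' hJ0)))).exists
    exact ⟨R1, h1, h2.le⟩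
  set c : ℝ≥0 := (1 / s ^ 3).toNNReal with hc
  have hcc : (c : ℝ) = 1 / s ^ 3 := Real.coe_toNNReal _ (by positivity)
  have hre : ∀ S, (c • μ).real S = 1 / s ^ 3 * μ.real S := fun S => by
    rw [measureReal_nnreal_smul_apply, hcc]
  have hle : ∀ y : ℝ, 1 / s ^ 3 * y ≤ 1 / 20 ↔ y ≤ s ^ 3 / 20 := fun y => by
    rw [one_div_mul_eq_div, div_le_iff₀ hs3]; constructor <;> intro h <;> linarith
  obtain ⟨r, hr, hlo, hhi, hb1, hb2⟩ := exists_radius (c • μ) h01 fun x => by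
    rw [hre, hle]; exact hsmall x
  have mS : MeasurableSet {x | r x < R1} :=
    (isOpen_lt hr.continuous continuous_const).measurableSet
  have b1 := scale_bound (f := fun x => 1 / s ^ 3 * f x) (hf.const_mul _)
    (fun x => mul_nonneg (by positivity) (hf0 x)) (c • μ) (by
      simp only [ENNReal.ofReal_mul (show 0 ≤ 1 / s ^ 3 by positivity)]
      rw [hμ]
      exact (withDensity_smul (ENNReal.ofReal (1 / s ^ 3)) hf.ennreal_ofReal).symm)
    hr.continuous.measurable (fun x => h0'.trans_le (hlo x)) mS hb1 hb2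
  refine ⟨r, r0, R1, hr, h0', hlo, hhi, fun x => ?_, fun x hx t ht => ?_, ?_, hR1⟩
  · rw [← hle, ← hre]; exact hb1 x
  · rw [← not_le, ← hle, ← hre, not_le]; exact hb2 x hx t ht
  · have e1 : ∀ x, ENNReal.ofReal ((1 / s ^ 3 * f x) ^ (5 / 3 : ℝ)) =
        ENNReal.ofReal (1 / s ^ 5) * ENNReal.ofReal (f x ^ (5 / 3 : ℝ)) := fun x => by
      rw [Real.mul_rpow (by positivity) (hf0 x), ← ENNReal.ofReal_mul (by positivity),
        ← one_div_pow, ← one_div_pow, ← Real.rpow_natCast, ← Real.rpow_mul (by positivity),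
        ← Real.rpow_natCast]
      norm_num
    simp only [e1] at b1
    rw [lintegral_const_mul' _ _ ENNReal.ofReal_ne_top, Measure.restrict_smul,
      lintegral_smul_measure, ← hJ] at b1
    have e2 : ENNReal.ofReal (s ^ 3) * (c : ℝ≥0∞) = 1 := by
      rw [show (c : ℝ≥0∞) = ENNReal.ofReal (1 / s ^ 3) from rfl, ← ENNReal.ofReal_mul hs3.le,
        mul_one_div_cancel hs3.ne', ENNReal.ofReal_one]
    calc _ = ENNReal.ofReal (s ^ 3) *
          (c • ∫⁻ x in {x | r x < R1}, ENNReal.ofReal (1 / r x ^ 2) ∂μ) := by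
          rw [ENNReal.smul_def, smul_eq_mul, ← mul_assoc, e2, one_mul]
      _ ≤ ENNReal.ofReal (s ^ 3) * (100000 * (ENNReal.ofReal (1 / s ^ 5) * J)) :=
          mul_le_mul_right b1 _
      _ = _ := by
          rw [← mul_assoc, ← mul_assoc, ← ENNReal.ofReal_ofNat, ← ENNReal.ofReal_mul hs3.le,
            ← ENNReal.ofReal_mul (by positivity)]
          congr 2
          field_simp

theorem fubini_near (μ ω : Measure (Fin 3 → ℝ)) [IsFiniteMeasure μ] [SFinite ω]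
    {c R : (Fin 3 → ℝ) → ℝ} (hc : Continuous c) (hR : LipschitzWith 1 R) {M : ℝ}
    (hM : ∀ x, μ.real (ball x (R x)) ≤ M) :
    ∫⁻ x, ω {y | dist y x < c x ∧ 2 * c x ≤ R x} ∂μ ≤ ENNReal.ofReal M * ω univ := by
  have cR := hR.continuous
  set D : Set ((Fin 3 → ℝ) × (Fin 3 → ℝ)) := {p | dist p.2 p.1 < c p.1 ∧ 2 * c p.1 ≤ R p.1} with hD
  have mD : MeasurableSet D :=
    (isOpen_lt (f := fun p : (Fin 3 → ℝ) × (Fin 3 → ℝ) => dist p.2 p.1) (g := fun p => c p.1)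
      (by fun_prop) (by fun_prop)).measurableSet.inter
      (isClosed_le (f := fun p : (Fin 3 → ℝ) × (Fin 3 → ℝ) => 2 * c p.1) (g := fun p => R p.1)
        (by fun_prop) (by fun_prop)).measurableSet
  have e1 := Measure.prod_apply (μ := μ) (ν := ω) mD
  rw [Measure.prod_apply_symm mD] at e1
  refine le_trans (le_of_eq e1.symm) ?_
  rw [← lintegral_const]
  refine lintegral_mono fun y => ?_
  refine le_trans (measure_mono (t := ball y (R y)) fun x hx => ?_) ?_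
  · have h1 : dist y x < c x := hx.1
    have h2 : 2 * c x ≤ R x := hx.2
    have h3 := hR.le_add_mul x y
    rw [NNReal.coe_one, one_mul, dist_comm] at h3
    rw [mem_ball, dist_comm]
    linarith
  · rw [← ofReal_measureReal (μ := μ)]
    exact ENNReal.ofReal_le_ofReal (hM y)

/-- centre of a dyadic cube -/
noncomputable def dz (p : ℤ × (Fin 3 → ℤ)) : Fin 3 → ℝ := fun i => (p.2 i + 1 / 2) * 2 ^ p.1

theorem dz_nest {p q : ℤ × (Fin 3 → ℤ)} (h : p.1 ≤ q.1)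
    (hd : ¬Disjoint (ball (dz p) (2 ^ p.1 / 2)) (ball (dz q) (2 ^ q.1 / 2))) (i : Fin 3) :
    ∃ c : ℕ, (2 : ℝ) ^ q.1 = c * 2 ^ p.1 ∧ (p.1 = q.1 → c = 1) ∧
      c * q.2 i ≤ p.2 i ∧ p.2 i + 1 ≤ c * (q.2 i + 1) := by
  obtain ⟨x, h1, h2⟩ := not_disjoint_iff.1 hd
  obtain ⟨k, hk⟩ := Int.le.dest h
  have e : (2 : ℝ) ^ q.1 = (2 ^ k : ℕ) * 2 ^ p.1 := by
    rw [← hk, zpow_add₀ two_ne_zero, zpow_natCast]; push_cast; ring
  have a1 := abs_lt.1 ((dist_le_pi_dist x (dz p) i).trans_lt h1)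
  have a2 := abs_lt.1 ((dist_le_pi_dist x (dz q) i).trans_lt h2)
  simp only [dz, e] at a1 a2
  have hp : (0 : ℝ) < 2 ^ p.1 := by positivity
  refine ⟨2 ^ k, e, fun h0 => ?_, ?_, ?_⟩
  · have : k = 0 := by omega
    simp [this]
  · have : (((2 ^ k : ℕ) : ℝ) * q.2 i) * 2 ^ p.1 < (p.2 i + 1) * 2 ^ p.1 := by linarith [a1.2, a2.1]
    have h3 : (((2 ^ k : ℕ) : ℤ) * q.2 i) < p.2 i + 1 := by
      exact_mod_cast lt_of_mul_lt_mul_right this hp.le
    omega
  · have : (p.2 i : ℝ) * 2 ^ p.1 < (((2 ^ k : ℕ) : ℝ) * (q.2 i + 1)) * 2 ^ p.1 := by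
      linarith [a1.1, a2.2]
    have h3 : p.2 i < (((2 ^ k : ℕ) : ℤ) * (q.2 i + 1)) := by
      exact_mod_cast lt_of_mul_lt_mul_right this hp.le
    omega

theorem dz_sub {p q : ℤ × (Fin 3 → ℤ)} (h : p.1 ≤ q.1)
    (hd : ¬Disjoint (ball (dz p) (2 ^ p.1 / 2)) (ball (dz q) (2 ^ q.1 / 2))) :
    closedBall (dz p) (2 ^ p.1 / 2) ⊆ closedBall (dz q) (2 ^ q.1 / 2) := by
  intro y hy
  rw [mem_closedBall, dist_pi_le_iff (by positivity)]
  intro i
  obtain ⟨c, e, -, h1, h2⟩ := dz_nest h hd i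
  have a1 := abs_le.1 ((dist_le_pi_dist y (dz p) i).trans hy)
  have hp : (0 : ℝ) < 2 ^ p.1 := by positivity
  have b1 : ((c : ℝ) * q.2 i) * 2 ^ p.1 ≤ p.2 i * 2 ^ p.1 :=
    mul_le_mul_of_nonneg_right (by exact_mod_cast h1) hp.le
  have b2 : ((p.2 i : ℝ) + 1) * 2 ^ p.1 ≤ (c * (q.2 i + 1)) * 2 ^ p.1 :=
    mul_le_mul_of_nonneg_right (by exact_mod_cast h2) hp.le
  simp only [dz] at a1
  rw [Real.dist_eq, abs_le]
  simp only [dz, e]
  constructor <;> linarith [a1.1, a1.2]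

theorem dz_disj {p q : ℤ × (Fin 3 → ℤ)} (h : p.1 = q.1) (hne : p ≠ q) :
    Disjoint (ball (dz p) (2 ^ p.1 / 2)) (ball (dz q) (2 ^ q.1 / 2)) := by
  by_contra hd
  refine hne (Prod.ext h (funext fun i => ?_))
  obtain ⟨c, -, h0, h1, h2⟩ := dz_nest h.le hd i
  rw [h0 h] at h1 h2
  omega

theorem exists_maximal (S : Set (ℤ × (Fin 3 → ℤ))) (hS : S.Finite) :
    ∃ I : Finset (ℤ × (Fin 3 → ℤ)), (∀ p ∈ I, p ∈ S) ∧
      (∀ p ∈ I, ∀ q ∈ I, p ≠ q →
        Disjoint (ball (dz p) (2 ^ p.1 / 2)) (ball (dz q) (2 ^ q.1 / 2))) ∧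
      ∀ p ∈ S, ∃ q ∈ I, closedBall (dz p) (2 ^ p.1 / 2) ⊆ closedBall (dz q) (2 ^ q.1 / 2) := by
  classical
  refine ⟨hS.toFinset.filter fun p => ∀ q ∈ S, p.1 < q.1 →
    Disjoint (ball (dz p) (2 ^ p.1 / 2)) (ball (dz q) (2 ^ q.1 / 2)), fun p hp => ?_,
    fun p hp q hq hne => ?_, fun p hp => ?_⟩
  · exact hS.mem_toFinset.1 (Finset.mem_filter.1 hp).1
  · rw [Finset.mem_filter, hS.mem_toFinset] at hp hq
    rcases lt_trichotomy p.1 q.1 with h | h | h
    · exact hp.2 q hq.1 h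
    · exact dz_disj h hne
    · exact (hq.2 p hp.1 h).symm
  · obtain ⟨q, hq, hmax⟩ := Set.exists_max_image {q ∈ S |
      closedBall (dz p) (2 ^ p.1 / 2) ⊆ closedBall (dz q) (2 ^ q.1 / 2)} (fun q => q.1)
      (hS.subset (sep_subset _ _)) ⟨p, hp, Subset.rfl⟩
    refine ⟨q, ?_, hq.2⟩
    rw [Finset.mem_filter, hS.mem_toFinset]
    refine ⟨hq.1, fun q' hq' hlt => ?_⟩
    by_contra hd
    exact absurd (hmax q' ⟨hq', hq.2.trans (dz_sub hlt.le hd)⟩) (not_le.2 hlt)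

theorem close_const {f : (Fin 3 → ℝ) → ℝ} {G : Fin 3 → (Fin 3 → ℝ) → ℝ} (mf : Measurable f)
    (f0 : ∀ x, 0 ≤ f x) {μ : Measure (Fin 3 → ℝ)} (hD : Dens μ f)
    (hH : InH1 (fun x => √(f x)) G) (x : Fin 3 → ℝ) {s M η Δ : ℝ} (hs : 0 < s) (hM : 0 < M)
    (hη : 0 < η) (hΔ0 : 0 ≤ Δ) (hm : μ.real (ball x s) ≤ M) (hΔ : (1 + 2 * M / η) * Δ ≤ η / 2)
    (hω : ENNReal.ofReal (96 * s ^ 2) *
      ∫⁻ y in ball x (2 * s), ENNReal.ofReal (∑ k, G k y ^ 2) ≤ ENNReal.ofReal Δ) :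
    ∃ t, 0 ≤ t ∧ ∫ y in ball x s, |f y - t ^ 3| ≤ η := by
  obtain ⟨x0, hx0⟩ := poincare mf.sqrt hH x hs
  set c := √(f x0) with hc
  have c0 : 0 ≤ c := Real.sqrt_nonneg _
  have hv : volume (ball x s) ≠ ⊤ := measure_ball_lt_top.ne
  have : IsFiniteMeasure (volume.restrict (ball x s)) := isFiniteMeasure_restrict.2 hv
  have i1 : IntegrableOn (fun y => (√(f y) - c) ^ 2) (ball x s) :=
    ((hH.1.restrict _).sub (memLp_const c)).integrable_sq
  have h1 : ∫ y in ball x s, (√(f y) - c) ^ 2 ≤ Δ := by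
    rw [← ENNReal.ofReal_le_ofReal_iff hΔ0,
      ofReal_integral_eq_lintegral_ofReal i1 (Eventually.of_forall fun y => sq_nonneg _)]
    exact hx0.trans hω
  have h2 : ∫ y in ball x s, f y ≤ M := by
    rw [← integral_indicator_one measurableSet_ball, hD.eq] at hm
    rw [← integral_indicator measurableSet_ball]
    refine le_trans (le_of_eq (integral_congr_ae (Eventually.of_forall fun y => ?_))) hm
    by_cases hy : y ∈ ball x s <;> simp [hy]
  refine ⟨(c ^ 2) ^ ((3 : ℕ) : ℝ)⁻¹, by positivity, ?_⟩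
  rw [Real.rpow_inv_natCast_pow (sq_nonneg _) three_ne_zero]
  have hl : 0 < η / (2 * M) := by positivity
  calc _ ≤ ∫ y in ball x s, ((1 + 2 * M / η) * (√(f y) - c) ^ 2 + η / (2 * M) * f y) := by
        refine integral_mono (hD.int.integrableOn.sub (integrableOn_const hv)).abs
          ((i1.const_mul _).add (hD.int.integrableOn.const_mul _)) fun y => ?_
        have e1 : f y = √(f y) ^ 2 := (Real.sq_sqrt (f0 y)).symm
        have g0 := Real.sqrt_nonneg (f y)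
        dsimp only
        generalize √(f y) = g at *
        rw [e1, show 2 * M / η = (η / (2 * M))⁻¹ by rw [inv_div]]
        generalize η / (2 * M) = lam at *
        have e2 : |g ^ 2 - c ^ 2| ≤ |g - c| * (2 * g + |g - c|) := by
          rw [sq_sub_sq, abs_mul, mul_comm, abs_of_nonneg (add_nonneg g0 c0)]
          exact mul_le_mul_of_nonneg_left (by linarith [neg_abs_le (g - c)]) (abs_nonneg _)
        have e3 : 2 * g * |g - c| ≤ lam⁻¹ * |g - c| ^ 2 + lam * g ^ 2 := by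
          have := mul_nonneg (inv_pos.2 hl).le (sq_nonneg (|g - c| - lam * g))
          have e4 : lam⁻¹ * (|g - c| - lam * g) ^ 2 =
            lam⁻¹ * |g - c| ^ 2 + lam * g ^ 2 - 2 * g * |g - c| := by field_simp; ring
          linarith
        rw [← sq_abs (g - c)]
        nlinarith
    _ ≤ η := by
        rw [integral_add (i1.const_mul _) (hD.int.integrableOn.const_mul _), integral_const_mul,
          integral_const_mul]
        have a1 : (1 + 2 * M / η) * ∫ y in ball x s, (√(f y) - c) ^ 2 ≤ (1 + 2 * M / η) * Δ :=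
          mul_le_mul_of_nonneg_left h1 (by positivity)
        have a2 : η / (2 * M) * ∫ y in ball x s, f y ≤ η / (2 * M) * M :=
          mul_le_mul_of_nonneg_left h2 hl.le
        have a3 : η / (2 * M) * M = η / 2 := by field_simp
        linarith

theorem select {f : (Fin 3 → ℝ) → ℝ} {G : Fin 3 → (Fin 3 → ℝ) → ℝ} (mf : Measurable f)
    (f0 : ∀ x, 0 ≤ f x) {μ : Measure (Fin 3 → ℝ)} [IsFiniteMeasure μ] (hD : Dens μ f)
    (hH : InH1 (fun x => √(f x)) G) {r R : (Fin 3 → ℝ) → ℝ} {r0 R1 b A M η κ : ℝ}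
    (h0 : 0 < r0) (hlo : ∀ x, r0 ≤ r x) (hhi : ∀ x, r x ≤ R1)
    (hmax : ∀ x, r x < R1 → ∀ t, r x < t → 16 * b ^ 3 < μ.real (ball x t))
    (hR : ∀ x, 0 < R x) (hM : ∀ x, μ.real (ball x (R x)) ≤ M) (hM0 : 0 < M) (hb : 0 < b)
    (hA : 1 ≤ A) (hη : 0 < η) (hηb : η ≤ 8 * b ^ 3) (hη1 : 1 + η ≤ (A * b / 4) ^ 3) (hκ : 0 < κ)
    (hκη : (1 + 2 * M / η) * (384 * A ^ 2 * κ) ≤ η / 2) :
    ∃ (I : Finset (ℤ × (Fin 3 → ℤ))) (z : I → Fin 3 → ℝ) (l t : I → ℝ), (∀ Q, 0 < l Q) ∧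
      (∀ Q, A * b / 4 ≤ t Q * l Q) ∧
      (∀ Q Q', Q ≠ Q' → Disjoint (ball (z Q) (l Q / 2)) (ball (z Q') (l Q' / 2))) ∧
      (∀ Q, ∫ x in ball (z Q) (3 * l Q / 2), |f x - t Q ^ 3| ≤ η) ∧
      ∀ x, x ∉ ⋃ Q, closedBall (z Q) (l Q / 2) → r x < R1 → ENNReal.ofReal (1 / r x ^ 2) ≤
        ENNReal.ofReal (64 * A ^ 2) * ENNReal.ofReal (1 / R x ^ 2) + ENNReal.ofReal (1 / κ) *
          (volume.withDensity fun y => ENNReal.ofReal (∑ k, G k y ^ 2))
            {y | dist y x < 4 * A * r x ∧ 2 * (4 * A * r x) ≤ R x} := by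
  have hA0 : 0 < A := by linarith
  have hpos : ∀ x, 0 < r x := fun x => h0.trans_le (hlo x)
  have iabs : ∀ x s n, IntegrableOn (fun y => |f y - n|) (ball x s) := fun x s n =>
    (hD.int.integrableOn.sub (integrableOn_const measure_ball_lt_top.ne)).abs
  have hmono : ∀ {x x' s s' n}, ball x s ⊆ ball x' s' → ∫ y in ball x' s', |f y - n| ≤ η →
      ∫ y in ball x s, |f y - n| ≤ η := fun h1 h2 =>
    (setIntegral_mono_set (iabs _ _ _) (Eventually.of_forall fun y => abs_nonneg _)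
      h1.eventuallyLE).trans h2
  obtain ⟨j0, hj0⟩ := exists_mem_Ico_zpow (x := A * r0 / 2) (y := 2) (by positivity) one_lt_two
  obtain ⟨j1, hj1⟩ := exists_mem_Ico_zpow (x := A * R1) (y := 2)
    (mul_pos hA0 ((hpos 0).trans_le (hhi 0))) one_lt_two
  set S : Set (ℤ × (Fin 3 → ℤ)) := {p | p.1 ∈ Icc j0 j1 ∧ ∃ t, A * b / 4 ≤ t * 2 ^ p.1 ∧
    ∫ x in ball (dz p) (3 * 2 ^ p.1 / 2), |f x - t ^ 3| ≤ η} with hS
  have hfin : S.Finite := by
    refine Set.Finite.subset ((finite_Icc j0 j1).biUnion (t := fun j => Prod.mk j ''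
      {m | 1 ≤ μ (ball (dz (j, m)) (2 ^ j / 2))}) fun j _ => Set.Finite.image _ ?_) ?_
    · exact Measure.finite_const_le_meas_of_disjoint_iUnion μ one_pos (fun m => measurableSet_ball)
        (fun m m' h => dz_disj (p := (j, m)) (q := (j, m')) rfl fun h' => h (congrArg Prod.snd h'))
        (measure_ne_top _ _)
    · rintro ⟨j, m⟩ ⟨h1, t, h2, h3⟩
      refine mem_biUnion h1 ⟨m, ?_, rfl⟩
      have hp : (0 : ℝ) < 2 ^ j := by positivity
      have h4 := abs_le.1 (hD.meas measurableSet_ball measure_ball_lt_top.ne h3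
        (T := ball (dz (j, m)) (2 ^ j / 2)) measurableSet_ball (ball_subset_ball (by linarith)))
      rw [volr_ball _ (by positivity)] at h4
      have h5 : (A * b / 4) ^ 3 ≤ (t * 2 ^ j) ^ 3 := pow_le_pow_left₀ (by positivity) h2 3
      show 1 ≤ μ _
      rw [← ofReal_measureReal (μ := μ), ← ENNReal.ofReal_one]
      refine ENNReal.ofReal_le_ofReal ?_
      have e : t ^ 3 * (2 * (2 ^ j / 2)) ^ 3 = (t * 2 ^ j) ^ 3 := by ring
      linarith [h4.1]
  obtain ⟨I, hI1, hI2, hI3⟩ := exists_maximal S hfin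
  choose t ht1 ht2 using fun Q : I => (hI1 Q.1 Q.2).2
  refine ⟨I, fun Q => dz Q.1, fun Q => 2 ^ Q.1.1, t, fun Q => by positivity, ht1,
    fun Q Q' h => hI2 _ Q.2 _ Q'.2 fun h' => h (Subtype.ext h'), ht2, fun x hx hr => ?_⟩
  have hrx := hpos x
  have hRx := hR x
  by_cases h1 : 2 * (4 * A * r x) ≤ R x
  · refine le_add_left ?_
    have e1 : {y | dist y x < 4 * A * r x ∧ 2 * (4 * A * r x) ≤ R x} =
        ball x (2 * (2 * A * r x)) := by
      ext y
      simp only [mem_setOf_eq, h1, and_true, mem_ball]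
      rw [show 2 * (2 * A * r x) = 4 * A * r x by ring]
    rw [e1, withDensity_apply _ measurableSet_ball]
    by_contra hcon
    have h2 : ∫⁻ y in ball x (2 * (2 * A * r x)), ENNReal.ofReal (∑ k, G k y ^ 2) ≤
        ENNReal.ofReal (κ * (1 / r x ^ 2)) := by
      have h3 := mul_le_mul_right (not_le.1 hcon).le (ENNReal.ofReal κ)
      rwa [← mul_assoc, ← ENNReal.ofReal_mul hκ.le, mul_one_div_cancel hκ.ne', ENNReal.ofReal_one,
        one_mul, ← ENNReal.ofReal_mul hκ.le] at h3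
    have hAr : r x ≤ A * r x := le_mul_of_one_le_left hrx.le hA
    obtain ⟨τ, τ0, hτ⟩ := close_const mf f0 hD hH x (s := 2 * A * r x) (by positivity) hM0 hη
      (by positivity) ((measureReal_mono (ball_subset_ball (by nlinarith))).trans (hM x)) hκη
      ((mul_le_mul_right h2 _).trans (le_of_eq (by
        rw [← ENNReal.ofReal_mul (by positivity)]
        congr 1
        field_simp
        ring)))
    have h4 := abs_le.1 (hD.meas measurableSet_ball measure_ball_lt_top.ne hτ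
      (T := ball x (2 * r x)) measurableSet_ball (ball_subset_ball (by linarith)))
    rw [volr_ball _ (by positivity)] at h4
    have h5 := hmax x hr (2 * r x) (by linarith)
    have h6 : 2 * b ≤ 4 * (τ * r x) := by
      refine le_of_pow_le_pow_left₀ three_ne_zero (by positivity) ?_
      have e : τ ^ 3 * (2 * (2 * r x)) ^ 3 = (4 * (τ * r x)) ^ 3 := by ring
      nlinarith [h4.2]
    obtain ⟨j, hj⟩ := exists_mem_Ico_zpow (x := A * r x) (y := 2) (by positivity) one_lt_two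
    have hp : (0 : ℝ) < 2 ^ j := by positivity
    have hj2 : A * r x < 2 * 2 ^ j := by
      have := hj.2
      rwa [zpow_add_one₀ two_ne_zero, mul_comm _ (2 : ℝ)] at this
    have hxc : x ∈ closedBall (dz (j, fun i => ⌊x i / 2 ^ j⌋)) (2 ^ j / 2) := by
      rw [mem_closedBall, dist_pi_le_iff (by positivity)]
      intro i
      have a1 := (le_div_iff₀ hp).1 (Int.floor_le (x i / 2 ^ j))
      have a2 := (div_lt_iff₀ hp).1 (Int.lt_floor_add_one (x i / 2 ^ j))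
      rw [Real.dist_eq, abs_le]
      simp only [dz]
      constructor <;> linarith
    have hmem : (j, fun i => ⌊x i / 2 ^ j⌋) ∈ S := by
      refine ⟨⟨?_, ?_⟩, τ, ?_, hmono (fun y hy => ?_) hτ⟩
      · have : (2 : ℝ) ^ j0 < 2 ^ j := by
          have := mul_le_mul_of_nonneg_left (hlo x) hA0.le
          linarith [hj0.1]
        exact ((zpow_lt_zpow_iff_right₀ one_lt_two).1 this).le
      · have : (2 : ℝ) ^ j < 2 ^ (j1 + 1) := by
          have := mul_le_mul_of_nonneg_left (hhi x) hA0.le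
          linarith [hj1.2, hj.1]
        exact Int.lt_add_one_iff.1 ((zpow_lt_zpow_iff_right₀ one_lt_two).1 this)
      · show A * b / 4 ≤ τ * 2 ^ j
        have a1 := mul_le_mul_of_nonneg_left h6 hA0.le
        have a2 := mul_le_mul_of_nonneg_left hj2.le τ0
        nlinarith
      · have a1 := dist_triangle_right y x (dz (j, fun i => ⌊x i / 2 ^ j⌋))
        have a2 : dist y (dz (j, fun i => ⌊x i / 2 ^ j⌋)) < 3 * 2 ^ j / 2 := hy
        rw [mem_ball]
        linarith [mem_closedBall.1 hxc, hj.1]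
    obtain ⟨q, hq, hsub⟩ := hI3 _ hmem
    exact hx (mem_iUnion.2 ⟨⟨q, hq⟩, hsub hxc⟩)
  · refine le_add_right ?_
    rw [← ENNReal.ofReal_mul (by positivity)]
    refine ENNReal.ofReal_le_ofReal ?_
    rw [mul_one_div, div_le_div_iff₀ (by positivity) (by positivity)]
    have := pow_le_pow_left₀ hRx.le (not_le.1 h1).le 2
    nlinarith

end Pool.Agent.MP_2c73ad_mp.H67
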