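import Pool.Agent.MP_2c73ad_mp.H67.Field
import Pool.Agent.MP_2c73ad_mp.H67.Select
import Pool.Agent.MP_2c73ad_mp.H67.Num

/-! The energy of one cell against its Thomas-Fermi energy. -/

open MeasureTheory Metric Set Real Filter Pool.Agent.MP_2c73ad_mp.H42
open scoped NNReal ENNReal

namespace Pool.Agent.MP_2c73ad_mp.H67

theorem tangent_pt {y t : ℝ} (hy : 0 ≤ y) (ht : 0 < t) :
    t ^ 5 ≤ y ^ (5 / 3 : ℝ) + 5 / 3 * t ^ 2 * |y - t ^ 3| := by
  have h3 : 0 < t ^ 3 := by positivity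
  have h1 := one_add_mul_self_le_rpow_one_add (s := y / t ^ 3 - 1) (p := 5 / 3)
    (by linarith [div_nonneg hy h3.le]) (by norm_num)
  have e1 : (t ^ 3) ^ (5 / 3 : ℝ) = t ^ 5 := by
    rw [← Real.rpow_natCast, ← Real.rpow_mul ht.le, ← Real.rpow_natCast]
    norm_num
  rw [add_sub_cancel, Real.div_rpow hy h3.le, e1, le_div_iff₀ (by positivity)] at h1
  have e2 : (1 + 5 / 3 * (y / t ^ 3 - 1)) * t ^ 5 = t ^ 5 + 5 / 3 * t ^ 2 * (y - t ^ 3) := by
    field_simp
  have h2 := mul_le_mul_of_nonneg_left (neg_abs_le (y - t ^ 3))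
    (show 0 ≤ 5 / 3 * t ^ 2 by positivity)
  linarith

theorem tangent {f : (Fin 3 → ℝ) → ℝ} (mf : Measurable f) (f0 : ∀ x, 0 ≤ f x) (i : Integrable f)
    (z : Fin 3 → ℝ) {t l η : ℝ} (ht : 0 < t) (hl : 0 < l)
    (hcl : ∫ x in ball z (l / 2), |f x - t ^ 3| ≤ η) :
    ENNReal.ofReal (t ^ 2 * (t ^ 3 * l ^ 3 - 5 / 3 * η)) ≤
      ∫⁻ x in ball z (l / 2), ENNReal.ofReal (f x ^ (5 / 3 : ℝ)) := by
  have i2 : IntegrableOn (fun x => 5 / 3 * t ^ 2 * |f x - t ^ 3|) (ball z (l / 2)) :=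
    (i.integrableOn.sub (integrableOn_const measure_ball_lt_top.ne)).abs.const_mul _
  have η0 : 0 ≤ η := (integral_nonneg fun _ => abs_nonneg _).trans hcl
  rw [show t ^ 2 * (t ^ 3 * l ^ 3 - 5 / 3 * η) = t ^ 5 * l ^ 3 - 5 / 3 * t ^ 2 * η by ring,
    ENNReal.ofReal_sub _ (by positivity), tsub_le_iff_right]
  calc _ = ∫⁻ x in ball z (l / 2), ENNReal.ofReal (t ^ 5) := by
        rw [setLIntegral_const, vol_ball _ (by positivity), ← ENNReal.ofReal_mul (by positivity)]
        congr 2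
        ring
    _ ≤ ∫⁻ x in ball z (l / 2), (ENNReal.ofReal (f x ^ (5 / 3 : ℝ)) +
          ENNReal.ofReal (5 / 3 * t ^ 2 * |f x - t ^ 3|)) := lintegral_mono fun x =>
        (ENNReal.ofReal_le_ofReal (tangent_pt (f0 x) ht)).trans ENNReal.ofReal_add_le
    _ ≤ _ := by
        rw [lintegral_add_left (by fun_prop), ← ofReal_integral_eq_lintegral_ofReal i2
          (Eventually.of_forall fun x => by positivity), integral_const_mul]
        exact add_le_add_right (ENNReal.ofReal_le_ofReal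
          (mul_le_mul_of_nonneg_left hcl (by positivity))) _

theorem lint_ind {μ : Measure (Fin 3 → ℝ)} [IsFiniteMeasure μ] {S : Set (Fin 3 → ℝ)}
    (mS : MeasurableSet S) {P m : ℝ} (hP : 0 ≤ P) (hm : μ.real S ≤ m) :
    ∫⁻ x, ENNReal.ofReal (S.indicator (fun _ => P) x) ∂μ ≤ ENNReal.ofReal (P * m) := by
  have e : ∀ x, ENNReal.ofReal (S.indicator (fun _ => P) x) =
      S.indicator (fun _ => ENNReal.ofReal P) x := fun x => by
    by_cases hx : x ∈ S <;> simp [hx]
  simp only [e]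
  rw [lintegral_indicator_const mS, ENNReal.ofReal_mul hP, ← ofReal_measureReal (μ := μ)]
  exact mul_le_mul_right (ENNReal.ofReal_le_ofReal hm) _

theorem cell_int {μ : Measure (Fin 3 → ℝ)} [IsFiniteMeasure μ] {f : (Fin 3 → ℝ) → ℝ}
    (hD : Dens μ f) (z : Fin 3 → ℝ) {n l a d η P S W T : ℝ} (hn : 0 ≤ n)
    (hcl : ∫ x in ball z (3 * l / 2), |f x - n| ≤ η) (d0 : 0 < d) (da : d < a)
    (ad : a + d < l / 2) (hP : 0 ≤ P) (hS : 0 ≤ S) (hW : 0 ≤ W)
    (hT : P * (n * (2 * a) ^ 3 + η) + S * (n * ((2 * (a + d)) ^ 3 - (2 * (a - d)) ^ 3) + η) +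
      W * (n * (l ^ 3 - (2 * (a - d)) ^ 3) + η) ≤ T) :
    ∫⁻ x, ENNReal.ofReal ((ball z a).indicator (fun _ => P) x +
      (closedBall z (a + d) \ ball z (a - d)).indicator (fun _ => S) x +
      (closedBall z (l / 2) \ ball z (a - d)).indicator (fun _ => W) x) ∂μ ≤ ENNReal.ofReal T := by
  have hm := fun T mT hT => (abs_le.1 (hD.meas (T := T) measurableSet_ball
    measure_ball_lt_top.ne hcl mT hT)).2
  have m2 : MeasurableSet (closedBall z (a + d) \ ball z (a - d)) :=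
    measurableSet_closedBall.diff measurableSet_ball
  have m3 : MeasurableSet (closedBall z (l / 2) \ ball z (a - d)) :=
    measurableSet_closedBall.diff measurableSet_ball
  have h1 := hm (ball z a) measurableSet_ball (ball_subset_ball (by linarith))
  have h2 := hm _ m2 (sdiff_subset.trans (closedBall_subset_ball (by linarith)))
  have h3 := hm _ m3 (sdiff_subset.trans (closedBall_subset_ball (by linarith)))
  rw [volr_ball _ (by linarith)] at h1
  rw [vol_shell _ (by linarith) (by linarith)] at h2 h3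
  rw [show 2 * (l / 2) = l by ring] at h3
  have b1 := lint_ind measurableSet_ball hP (sub_le_iff_le_add'.1 h1)
  have b2 := lint_ind m2 hS (sub_le_iff_le_add'.1 h2)
  have b3 := lint_ind m3 hW (sub_le_iff_le_add'.1 h3)
  have p1 := mul_nonneg hP (measureReal_nonneg.trans (sub_le_iff_le_add'.1 h1))
  have p2 := mul_nonneg hS (measureReal_nonneg.trans (sub_le_iff_le_add'.1 h2))
  have p3 := mul_nonneg hW (measureReal_nonneg.trans (sub_le_iff_le_add'.1 h3))
  refine (lintegral_mono fun x => ENNReal.ofReal_add_le.trans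
    (add_le_add_left ENNReal.ofReal_add_le _)).trans ?_
  rw [lintegral_add_right _ (measurable_const.indicator m3).ennreal_ofReal,
    lintegral_add_right _ (measurable_const.indicator m2).ennreal_ofReal]
  refine (add_le_add (add_le_add b1 b2) b3).trans ?_
  rw [← ENNReal.ofReal_add p1 p2, ← ENNReal.ofReal_add (add_nonneg p1 p2) p3]
  exact ENNReal.ofReal_le_ofReal hT

theorem sum_setl {ι : Type} [Fintype ι] (μ : Measure (Fin 3 → ℝ)) {S : ι → Set (Fin 3 → ℝ)}
    (mS : ∀ Q, MeasurableSet (S Q)) (hS : ∀ Q Q', Q ≠ Q' → Disjoint (S Q) (S Q'))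
    (F : (Fin 3 → ℝ) → ℝ≥0∞) : ∑ Q, ∫⁻ x in S Q, F x ∂μ ≤ ∫⁻ x, F x ∂μ := by
  rw [← tsum_fintype (L := SummationFilter.unconditional ι), ← lintegral_iUnion mS hS]
  exact setLIntegral_le_lintegral _ _

end Pool.Agent.MP_2c73ad_mp.H67
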