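import Pool.Agent.MP_2c73ad_mp.H67.Multi

/-! Pointwise bound for the gradient of the glued field. -/

set_option linter.unusedSectionVars false

open MeasureTheory Metric Set Real Filter Topology Pool.Agent.MP_2c73ad_mp.H42
open scoped NNReal

namespace Pool.Agent.MP_2c73ad_mp.H67

theorem fderiv_coord {O : Type} [Fintype O] {u : (Fin 3 → ℝ) → EuclideanSpace ℂ O}
    {x : Fin 3 → ℝ} (hx : DifferentiableAt ℝ u x) (v : Fin 3 → ℝ) (a : O) :
    fderiv ℝ (fun y => u y a) x v = fderiv ℝ u x v a := by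
  have := ((EuclideanSpace.proj (𝕜 := ℂ) a).restrictScalars ℝ).hasFDerivAt.comp x hx.hasFDerivAt
  have h2 : HasFDerivAt (fun y => u y a) _ x := this
  rw [h2.fderiv]
  rfl

theorem grad_le {O : Type} [Fintype O] {u : (Fin 3 → ℝ) → EuclideanSpace ℂ O} {x : Fin 3 → ℝ}
    {L : ℝ} (hL : 0 ≤ L) (h : ∀ᶠ y in 𝓝 x, ‖u y - u x‖ ≤ L * dist y x) :
    ∑ j, ‖fderiv ℝ u x (Pi.single j 1)‖ ^ 2 ≤ 3 * L ^ 2 := by
  have h1 : ‖fderiv ℝ u x‖ ≤ L :=
    norm_fderiv_le_of_lip' ℝ hL (h.mono fun y hy => by rwa [dist_eq_norm] at hy)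
  refine (Finset.sum_le_card_nsmul _ _ (L ^ 2) fun j _ => ?_).trans (by simp)
  refine pow_le_pow_left₀ (norm_nonneg _) ((ContinuousLinearMap.le_opNorm _ _).trans ?_) 2
  rw [Pi.norm_single, norm_one, mul_one]
  exact h1

/-- variation of the data of one cell -/
noncomputable def vary (z : Fin 3 → ℝ) (a d R : ℝ) (x y : Fin 3 → ℝ) : ℝ :=
  √(∑ k ∈ lat R, (amp z a d y * wv a R k y - amp z a d x * wv a R k x) ^ 2) +
    2 * |cl (tau z a d y) - cl (tau z a d x)| + 4 * |cl (tau z a d y + 1) - cl (tau z a d x + 1)|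

theorem vary_le (z : Fin 3 → ℝ) {a d R : ℝ} (ha : 0 < a) (hd : 0 < d) (hR : 0 ≤ R)
    (x y : Fin 3 → ℝ) : vary z a d R x y ≤ (10 / d + 12 * π * R / a) * dist y x := by
  have h1 := cell_lip z ha hd hR x y
  have h2 := tau_lip z a hd 0 x y
  have h3 := tau_lip z a hd 1 x y
  simp only [add_zero] at h2
  have e : (10 / d + 12 * π * R / a) * dist y x = (4 / d + 12 * π * R / a) * dist y x +
    2 * (1 / d * dist y x) + 4 * (1 / d * dist y x) := by ring
  rw [vary, e]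
  linarith

theorem wave_grad {a R : ℝ} (hR : 0 ≤ R) (k : Fin 3 → ℤ) (x : Fin 3 → ℝ) (j : Fin 3) :
    ‖fderiv ℝ (fun y => Complex.I * (wv a R k y : ℂ)) x (Pi.single j 1)‖ ^ 2 =
      (π / a * k j * (cos (ph a k x) - sin (ph a k x))) ^ 2 / (lat R).card := by
  obtain ⟨h1, h2⟩ := cas_deriv a k x
  have h3 := (Complex.ofRealCLM.hasFDerivAt.comp x
    (h1.hasFDerivAt.mul_const (√((lat R).card))⁻¹)).const_mul Complex.I
  rw [show fderiv ℝ (fun y => Complex.I * (wv a R k y : ℂ)) x = _ from h3.fderiv]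
  simp only [ContinuousLinearMap.smul_apply, ContinuousLinearMap.comp_apply, h2, smul_eq_mul,
    Complex.ofRealCLM_apply, norm_mul, Complex.norm_I, one_mul, Complex.norm_real, mul_pow,
    Real.norm_eq_abs, sq_abs, inv_pow, Real.sq_sqrt (card_pos hR).le]
  ring

variable {ι : Type} [Fintype ι] [DecidableEq ι]

namespace Cells

variable {f : (Fin 3 → ℝ) → ℝ} {z : ι → Fin 3 → ℝ} {l a d R n : ι → ℝ} {η θ e : ℝ}

theorem vary_sum (z : ι → Fin 3 → ℝ) (a d R : ι → ℝ) (M : ℕ) (x y : Fin 3 → ℝ) :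
    √(∑ o, (pw z a d R M o y - pw z a d R M o x) ^ 2) + |cBf z a d y - cBf z a d x| +
      4 * |kap z a d y - kap z a d x| ≤ ∑ Q, vary (z Q) (a Q) (d Q) (R Q) x y := by
  simp only [vary, Finset.sum_add_distrib]
  refine add_le_add (add_le_add ?_ ?_) ?_
  · rw [sum_pw _ (fun Q k => (amp (z Q) (a Q) (d Q) y * wv (a Q) (R Q) k y -
      amp (z Q) (a Q) (d Q) x * wv (a Q) (R Q) k x) ^ 2) fun Q k => by simp [pw]]
    simp only [pw, Sum.elim_inr, sub_self, zero_pow two_ne_zero, Finset.sum_const_zero, add_zero]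
    refine Real.sqrt_le_iff.2 ⟨Finset.sum_nonneg fun _ _ => Real.sqrt_nonneg _, ?_⟩
    refine le_trans (le_of_eq ?_) (Finset.sum_sq_le_sq_sum_of_nonneg fun _ _ => Real.sqrt_nonneg _)
    exact Finset.sum_congr rfl fun Q _ =>
      (Real.sq_sqrt (Finset.sum_nonneg fun _ _ => sq_nonneg _)).symm
  · refine (abs_cos_sub_cos_le _ _).trans ?_
    rw [← mul_sub, abs_mul, abs_of_pos (by positivity), ← Finset.sum_sub_distrib, ← Finset.mul_sum]
    exact mul_le_mul (by linarith [pi_le_four]) (Finset.abs_sum_le_sum_abs _ _) (abs_nonneg _)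
      zero_le_two
  · rw [← Finset.mul_sum, kap, kap, sub_sub_sub_cancel_left, abs_sub_comm, ← Finset.sum_sub_distrib]
    exact mul_le_mul_of_nonneg_left (Finset.abs_sum_le_sum_abs _ _) (by norm_num)

theorem vary_zero (h : Cells f z l a d R n η θ e) (Q : ι) {x y : Fin 3 → ℝ}
    (hx : a Q + d Q < dist x (z Q)) (hy : a Q + d Q < dist y (z Q)) :
    vary (z Q) (a Q) (d Q) (R Q) x y = 0 := by
  simp [vary, h.z1 x Q hx, h.z1 y Q hy, h.z2 x Q hx, h.z2 y Q hy, h.z3 x Q hx, h.z3 y Q hy]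

theorem field (h : Cells f z l a d R n η θ e) {M : ℕ}
    {u : (Fin 3 → ℝ) → EuclideanSpace ℂ ((Σ Q, lat (R Q)) ⊕ Fin M)} {L : (Fin 3 → ℝ) → ℝ}
    {L0 : ℝ} (hL : ∀ x, 0 ≤ L x) (hL0 : ∀ x, L x ≤ L0)
    (h0 : ∀ x, cBf z a d x = 0 → ∀ o, u x o = Complex.I * pw z a d R M o x)
    (h1 : ∀ x y, ‖u y - u x‖ ≤ √(∑ o, (pw z a d R M o y - pw z a d R M o x) ^ 2) +
      |cBf z a d y - cBf z a d x| + 4 * |kap z a d y - kap z a d x| + 5 * (L x * dist y x)) :
    (∃ K : ℝ≥0, LipschitzWith K u) ∧ ∀ x, ∑ j, ‖fderiv ℝ u x (Pi.single j 1)‖ ^ 2 ≤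
      ∑ Q, ((ball (z Q) (a Q)).indicator (fun _ => (π / a Q) ^ 2 *
          (∑ k ∈ lat (R Q), ∑ j, (k j : ℝ) ^ 2) / (lat (R Q)).card) x +
        (closedBall (z Q) (a Q + d Q) \ ball (z Q) (a Q - d Q)).indicator
          (fun _ => 6 * (10 / d Q + 12 * π * R Q / a Q) ^ 2) x) +
      (⋃ Q, ball (z Q) (a Q - d Q))ᶜ.indicator (fun x => 150 * L x ^ 2) x := by
  have h2 : ∀ x y, ‖u y - u x‖ ≤ ∑ Q, vary (z Q) (a Q) (d Q) (R Q) x y + 5 * (L x * dist y x) :=
    fun x y => (h1 x y).trans (add_le_add_left (vary_sum z a d R M x y) _)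
  have hv := fun Q => vary_le (z Q) (h.a0 Q) (h.d0 Q) (h.R0 Q)
  have hLQ : ∀ Q, 0 ≤ 10 / d Q + 12 * π * R Q / a Q := fun Q => by
    have := h.a0 Q; have := h.d0 Q; have := h.R0 Q; positivity
  constructor
  · refine ⟨(∑ Q, (10 / d Q + 12 * π * R Q / a Q) + 5 * L0).toNNReal,
      LipschitzWith.of_dist_le_mul fun y x => ?_⟩
    rw [dist_eq_norm]
    refine (h2 x y).trans (le_trans ?_ (mul_le_mul_of_nonneg_right (Real.le_coe_toNNReal _)
      dist_nonneg))
    rw [add_mul, Finset.sum_mul, mul_assoc]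
    exact add_le_add (Finset.sum_le_sum fun Q _ => hv Q x y)
      (mul_le_mul_of_nonneg_left (mul_le_mul_of_nonneg_right (hL0 x) dist_nonneg) (by norm_num))
  intro x
  have hE : ∀ Q, 0 ≤ (π / a Q) ^ 2 * (∑ k ∈ lat (R Q), ∑ j, (k j : ℝ) ^ 2) / (lat (R Q)).card :=
    fun Q => by positivity
  have n1 : ∀ Q, 0 ≤ (ball (z Q) (a Q)).indicator (fun _ => (π / a Q) ^ 2 *
      (∑ k ∈ lat (R Q), ∑ j, (k j : ℝ) ^ 2) / (lat (R Q)).card) x := fun Q =>
    indicator_nonneg (fun _ _ => hE Q) _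
  have n2 : ∀ Q, 0 ≤ (closedBall (z Q) (a Q + d Q) \ ball (z Q) (a Q - d Q)).indicator
      (fun _ => 6 * (10 / d Q + 12 * π * R Q / a Q) ^ 2) x := fun Q =>
    indicator_nonneg (fun _ _ => by positivity) _
  have n3 : 0 ≤ (⋃ Q, ball (z Q) (a Q - d Q))ᶜ.indicator (fun x => 150 * L x ^ 2) x :=
    indicator_nonneg (fun _ _ => by positivity) _
  by_cases hx : x ∈ ⋃ Q, ball (z Q) (a Q - d Q)
  · obtain ⟨Q, hQ⟩ := mem_iUnion.1 hx
    refine le_add_of_le_of_nonneg (le_trans ?_ (Finset.single_le_sum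
      (fun Q _ => add_nonneg (n1 Q) (n2 Q)) (Finset.mem_univ Q))) n3
    refine le_add_of_le_of_nonneg ?_ (n2 Q)
    rw [indicator_of_mem (ball_subset_ball (by linarith [h.d0 Q]) hQ)]
    by_cases hd : DifferentiableAt ℝ u x
    · have hev : ∀ᶠ y in 𝓝 x, y ∈ ball (z Q) (a Q - d Q) := isOpen_ball.mem_nhds hQ
      have e1 : ∀ j, ‖fderiv ℝ u x (Pi.single j 1)‖ ^ 2 = ∑ k ∈ lat (R Q),
          (π / a Q * k j * (cos (ph (a Q) k x) - sin (ph (a Q) k x))) ^ 2 / (lat (R Q)).card := by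
        intro j
        have ez : ∀ o, (∀ y ∈ ball (z Q) (a Q - d Q), pw z a d R M o y = 0) →
            ‖fderiv ℝ u x (Pi.single j 1) o‖ ^ 2 = 0 := fun o ho => by
          rw [← fderiv_coord hd, EventuallyEq.fderiv_eq (f := fun _ => (0 : ℂ))
            (hev.mono fun y hy => by simp [h0 y (h.cB_zero hy), ho y hy])]
          simp
        rw [EuclideanSpace.norm_sq_eq, sum_pw _ (fun Q' k => if Q' = Q then
          (π / a Q * k j * (cos (ph (a Q) k x) - sin (ph (a Q) k x))) ^ 2 / (lat (R Q)).card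
          else 0), Finset.sum_eq_zero fun o _ => ez (Sum.inr o) fun _ _ => rfl, add_zero,
          Finset.sum_eq_single Q (fun Q' _ hne => by simp [hne]) (by simp)]
        · simp
        · intro Q' k
          split_ifs with hne
          · subst hne
            rw [← fderiv_coord hd, ← wave_grad (h.R0 Q'), EventuallyEq.fderiv_eq
              (f := fun y => Complex.I * (wv (a Q') (R Q') k y : ℂ))
              (hev.mono fun y hy => by simp [h0 y (h.cB_zero hy), pw, amp_one (h.d0 Q') hy])]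
          · exact ez _ fun y hy => by
              simp [pw, h.z3 y Q' (h.other (by linarith [mem_ball.1 hy, h.ad Q, h.d0 Q]) hne)]
      simp only [e1, ← Finset.sum_div]
      rw [sum_grad]
    · rw [fderiv_zero_of_not_differentiableAt hd]
      simpa using hE Q
  · rw [indicator_of_mem (show x ∈ (⋃ Q, ball (z Q) (a Q - d Q))ᶜ from hx)]
    have hLx := hL x
    by_cases hz : ∃ Q, dist x (z Q) ≤ a Q + d Q
    · obtain ⟨Q, hQ⟩ := hz
      have hxl : dist x (z Q) < l Q / 2 := hQ.trans_lt (h.ad Q)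
      have hev : ∀ᶠ y in 𝓝 x, y ∈ ball (z Q) (l Q / 2) := isOpen_ball.mem_nhds hxl
      have g1 := grad_le (u := u) (x := x) (L := (10 / d Q + 12 * π * R Q / a Q) + 5 * L x)
        (add_nonneg (hLQ Q) (by positivity)) (hev.mono fun y hy => (h2 x y).trans (by
          rw [Finset.sum_eq_single Q (fun Q' _ hne => h.vary_zero Q' (h.other hxl hne)
            (h.other hy hne)) (by simp)]
          linarith [hv Q x y]))
      have g2 := Finset.single_le_sum (fun Q _ => add_nonneg (n1 Q) (n2 Q)) (Finset.mem_univ Q)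
      rw [indicator_of_mem (show x ∈ closedBall (z Q) (a Q + d Q) \ ball (z Q) (a Q - d Q) from
        ⟨hQ, fun hb => hx (mem_iUnion.2 ⟨Q, hb⟩)⟩)] at g2
      nlinarith [n1 Q, sq_nonneg ((10 / d Q + 12 * π * R Q / a Q) - 5 * L x)]
    · push Not at hz
      have hev : ∀ᶠ y in 𝓝 x, ∀ Q, a Q + d Q < dist y (z Q) := eventually_all.2 fun Q =>
        (continuous_id.dist continuous_const).continuousAt.eventually (lt_mem_nhds (hz Q))
      have g1 := grad_le (u := u) (x := x) (L := 5 * L x) (by positivity)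
        (hev.mono fun y hy => (h2 x y).trans (by
          rw [Finset.sum_eq_zero fun Q _ => h.vary_zero Q (hz Q) (hy Q), zero_add, mul_assoc]))
      have g2 := Finset.sum_nonneg (s := Finset.univ) fun Q _ => add_nonneg (n1 Q) (n2 Q)
      nlinarith [sq_nonneg (L x)]

end Cells

end Pool.Agent.MP_2c73ad_mp.H67
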