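import Mathlib

/-! Lattice points in a ball. -/

open MeasureTheory Metric Set Real

namespace Pool.Agent.MP_2c73ad_mp.H67

/-- the Euclidean norm on the coordinate space -/
noncomputable def nrm (y : Fin 3 → ℝ) : ℝ := ‖(WithLp.toLp 2 y : EuclideanSpace ℝ (Fin 3))‖

theorem nrm_sq (y : Fin 3 → ℝ) : nrm y ^ 2 = ∑ i, y i ^ 2 := by
  rw [nrm, EuclideanSpace.norm_sq_eq]; simp

theorem nrm_nonneg (y : Fin 3 → ℝ) : 0 ≤ nrm y := norm_nonneg _

theorem abs_le_nrm (y : Fin 3 → ℝ) (i : Fin 3) : |y i| ≤ nrm y :=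
  PiLp.norm_apply_le (WithLp.toLp 2 y : EuclideanSpace ℝ (Fin 3)) i

theorem nrm_cont : Continuous nrm := by unfold nrm; fun_prop

/-- lattice points in the ball of radius `R` -/
noncomputable def lat (R : ℝ) : Finset (Fin 3 → ℤ) :=
  (Fintype.piFinset fun _ => Finset.Icc (-⌈R⌉) ⌈R⌉).filter fun k => nrm (fun i => k i) ≤ R

theorem mem_lat {R : ℝ} {k : Fin 3 → ℤ} : k ∈ lat R ↔ nrm (fun i => k i) ≤ R := by
  rw [lat, Finset.mem_filter, Fintype.mem_piFinset]
  refine ⟨fun h => h.2, fun h => ⟨fun i => ?_, h⟩⟩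
  have h1 := abs_le.1 (((abs_le_nrm (fun i => (k i : ℝ)) i).trans h).trans (Int.le_ceil R))
  rw [Finset.mem_Icc]
  exact ⟨by exact_mod_cast h1.1, by exact_mod_cast h1.2⟩

theorem neg_mem_lat {R : ℝ} {k : Fin 3 → ℤ} (h : k ∈ lat R) : -k ∈ lat R := by
  rw [mem_lat] at h ⊢
  have : nrm (fun i => ((-k) i : ℝ)) = nrm fun i => k i := by
    rw [← pow_left_inj₀ (nrm_nonneg _) (nrm_nonneg _) two_ne_zero, nrm_sq, nrm_sq]
    simp
  rwa [this]

theorem abs_le_of_mem_lat {R : ℝ} {k : Fin 3 → ℤ} (h : k ∈ lat R) (i : Fin 3) : |(k i : ℝ)| ≤ R :=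
  (abs_le_nrm (fun i => (k i : ℝ)) i).trans (mem_lat.1 h)

theorem fiber_card {R : ℝ} (hR : 0 ≤ R) (k : Fin 3 → ℤ) (i : Fin 3) :
    (((lat R).filter fun k' => ∀ j, j ≠ i → k' j = k j).card : ℝ) ≤ 2 * R + 1 := by
  have h1 : ((lat R).filter fun k' => ∀ j, j ≠ i → k' j = k j).card ≤
      (Finset.Icc (-⌊R⌋) ⌊R⌋).card := by
    refine Finset.card_le_card_of_injOn (fun k' => k' i) (fun k' hk' => ?_) fun a ha b hb hab => ?_
    · have := abs_le.1 (abs_le_of_mem_lat (Finset.mem_filter.1 hk').1 i)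
      simp only [Finset.coe_Icc, mem_Icc]
      refine ⟨?_, Int.le_floor.2 this.2⟩
      rw [neg_le]
      exact Int.le_floor.2 (by push_cast; linarith [this.1])
    · funext j
      by_cases hj : j = i
      · subst hj; exact hab
      · rw [(Finset.mem_filter.1 ha).2 j hj, (Finset.mem_filter.1 hb).2 j hj]
  have h0 : 0 ≤ ⌊R⌋ := Int.floor_nonneg.2 hR
  have h2 : ((Finset.Icc (-⌊R⌋) ⌊R⌋).card : ℤ) = 2 * ⌊R⌋ + 1 := by
    rw [Int.card_Icc_of_le _ _ (by omega)]; ring
  have h3 : (((lat R).filter fun k' => ∀ j, j ≠ i → k' j = k j).card : ℤ) ≤ 2 * ⌊R⌋ + 1 := by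
    rw [← h2]; exact_mod_cast h1
  have h4 : (((lat R).filter fun k' => ∀ j, j ≠ i → k' j = k j).card : ℝ) ≤ 2 * ⌊R⌋ + 1 := by
    exact_mod_cast h3
  linarith [Int.floor_le R]

/-- unit cube around a lattice point -/
def cube (k : Fin 3 → ℤ) : Set (Fin 3 → ℝ) := univ.pi fun i => Ico ((k i : ℝ) - 1 / 2) (k i + 1 / 2)

theorem cube_meas (k : Fin 3 → ℤ) : MeasurableSet (cube k) :=
  MeasurableSet.univ_pi fun _ => measurableSet_Ico

theorem cube_vol (k : Fin 3 → ℤ) : volume (cube k) = 1 := by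
  rw [cube, Real.volume_pi_Ico]
  simp [show ∀ a : ℝ, a + 2⁻¹ - (a - 2⁻¹) = 1 from fun a => by ring]

theorem cube_disj {k k' : Fin 3 → ℤ} (h : k ≠ k') : Disjoint (cube k) (cube k') := by
  refine Set.disjoint_left.2 fun y h1 h2 => h (funext fun i => ?_)
  have a := h1 i (mem_univ _)
  have b := h2 i (mem_univ _)
  have c1 : (k i : ℝ) < k' i + 1 := by linarith [a.1, b.2]
  have c2 : (k' i : ℝ) < k i + 1 := by linarith [a.2, b.1]
  have d1 : k i < k' i + 1 := by exact_mod_cast c1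
  have d2 : k' i < k i + 1 := by exact_mod_cast c2
  omega

theorem cube_near {k : Fin 3 → ℤ} {y : Fin 3 → ℝ} (h : y ∈ cube k) :
    |nrm y - nrm fun i => k i| ≤ 1 := by
  refine (abs_norm_sub_norm_le _ _).trans ?_
  have : nrm (y - fun i => (k i : ℝ)) ^ 2 ≤ 1 ^ 2 := by
    rw [nrm_sq, Fin.sum_univ_three]
    have b : ∀ i, (y - fun i => (k i : ℝ)) i ^ 2 ≤ 1 / 4 := fun i => by
      have a := h i (mem_univ _)
      simp only [Pi.sub_apply]
      nlinarith [a.1, a.2]
    linarith [b 0, b 1, b 2]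
  exact (pow_le_pow_iff_left₀ (nrm_nonneg _) zero_le_one two_ne_zero).1 this

theorem vol_nrm {s : ℝ} (hs : 0 ≤ s) :
    volume {y | nrm y ≤ s} = ENNReal.ofReal (4 * π / 3 * s ^ 3) := by
  have := (PiLp.volume_preserving_toLp (Fin 3)).measure_preimage
    (s := closedBall (0 : EuclideanSpace ℝ (Fin 3)) s) measurableSet_closedBall.nullMeasurableSet
  rw [EuclideanSpace.volume_closedBall_fin_three, ← ENNReal.ofReal_pow hs,
    ← ENNReal.ofReal_mul (by positivity)] at this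
  rw [show 4 * π / 3 * s ^ 3 = s ^ 3 * (π * 4 / 3) by ring, ← this]
  congr 1
  ext y
  simp [nrm]

theorem vol_cubes (K : Finset (Fin 3 → ℤ)) : volume (⋃ k ∈ K, cube k) = K.card := by
  rw [measure_biUnion_finset (fun k _ k' _ h => cube_disj h) fun k _ => cube_meas k]
  simp [cube_vol]

theorem cubes_sub (R : ℝ) : (⋃ k ∈ lat R, cube k) ⊆ {y | nrm y ≤ R + 1} := by
  refine iUnion₂_subset fun k hk y hy => ?_
  have := abs_le.1 (cube_near hy)
  show nrm y ≤ R + 1
  linarith [mem_lat.1 hk]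

theorem card_lat_le {R : ℝ} (hR : 0 ≤ R) : ((lat R).card : ℝ) ≤ 4 * π / 3 * (R + 1) ^ 3 := by
  have := measure_mono (μ := volume) (cubes_sub R)
  rw [vol_cubes, vol_nrm (by linarith), ← ENNReal.ofReal_natCast] at this
  exact (ENNReal.ofReal_le_ofReal_iff (by positivity)).1 this

theorem le_card_lat {R : ℝ} (hR : 1 ≤ R) : 4 * π / 3 * (R - 1) ^ 3 ≤ (lat R).card := by
  have h : {y | nrm y ≤ R - 1} ⊆ ⋃ k ∈ lat R, cube k := by
    intro y hy
    have hc : y ∈ cube fun i => ⌊y i + 1 / 2⌋ := fun i _ =>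
      ⟨by linarith [Int.floor_le (y i + 1 / 2)], by linarith [Int.lt_floor_add_one (y i + 1 / 2)]⟩
    refine mem_biUnion (mem_lat.2 ?_) hc
    have := abs_le.1 (cube_near hc)
    have h1 : nrm y ≤ R - 1 := hy
    linarith
  have := measure_mono (μ := volume) h
  rw [vol_cubes, vol_nrm (by linarith), ← ENNReal.ofReal_natCast] at this
  exact (ENNReal.ofReal_le_ofReal_iff (by positivity)).1 this

theorem int_nrm {s : ℝ} (hs : 0 ≤ s) :
    ∫ y in {y | nrm y ≤ s}, (nrm y + 1) ^ 2 ≤ 4 * π / 5 * (s + 1) ^ 5 := by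
  have mS : MeasurableSet {y | nrm y ≤ s} := (isClosed_le nrm_cont continuous_const).measurableSet
  set F : ℝ → ℝ := (Iic s).indicator fun t => (t + 1) ^ 2 with hF
  have e1 : ∫ y in {y | nrm y ≤ s}, (nrm y + 1) ^ 2 = ∫ x : EuclideanSpace ℝ (Fin 3), F ‖x‖ := by
    rw [← (PiLp.volume_preserving_toLp (Fin 3)).integral_comp
      (MeasurableEquiv.toLp 2 (Fin 3 → ℝ)).measurableEmbedding, ← integral_indicator mS]
    rfl
  have e2 : ∫ t in Ioi (0 : ℝ), t ^ 2 * F t = ∫ t in (0 : ℝ)..s, t ^ 2 * (t + 1) ^ 2 := by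
    rw [intervalIntegral.integral_of_le hs, ← integral_indicator measurableSet_Ioi,
      ← integral_indicator measurableSet_Ioc]
    congr 1
    funext t
    by_cases h0 : 0 < t <;> by_cases h1 : t ≤ s <;> simp [hF, indicator, h0, h1]
  have e3 : ∫ t in (0 : ℝ)..s, t ^ 2 * (t + 1) ^ 2 ≤ ∫ t in (0 : ℝ)..s, (t + 1) ^ 4 :=
    intervalIntegral.integral_mono_on hs (Continuous.intervalIntegrable (by fun_prop) _ _)
      (Continuous.intervalIntegrable (by fun_prop) _ _) fun t ht => by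
        have : t ^ 2 ≤ (t + 1) ^ 2 := by nlinarith [ht.1]
        nlinarith [sq_nonneg (t + 1)]
  rw [intervalIntegral.integral_comp_add_right (fun t => t ^ 4), integral_pow] at e3
  rw [e1, integral_fun_norm_addHaar, Measure.real, EuclideanSpace.volume_ball_fin_three]
  simp only [finrank_euclideanSpace, Fintype.card_fin, smul_eq_mul, nsmul_eq_mul,
    ENNReal.ofReal_one, one_pow, one_mul, Nat.add_one_sub_one]
  rw [ENNReal.toReal_ofReal (by positivity), e2]
  norm_num at e3 ⊢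
  nlinarith [pi_pos]

theorem sum_lat_le {R : ℝ} (hR : 0 ≤ R) :
    ∑ k ∈ lat R, ∑ i, (k i : ℝ) ^ 2 ≤ 4 * π / 5 * (R + 2) ^ 5 := by
  have cF : Continuous fun y => (nrm y + 1) ^ 2 := by have := nrm_cont; fun_prop
  have hK : IsCompact {y | nrm y ≤ R + 1} :=
    (isCompact_closedBall (0 : Fin 3 → ℝ) (R + 1)).of_isClosed_subset
      (isClosed_le nrm_cont continuous_const) fun y hy => by
        rw [mem_closedBall_zero_iff, pi_norm_le_iff_of_nonneg (by linarith)]
        exact fun i => (abs_le_nrm y i).trans hy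
  have iF : IntegrableOn (fun y => (nrm y + 1) ^ 2) {y | nrm y ≤ R + 1} :=
    cF.continuousOn.integrableOn_compact hK
  have ik : ∀ k ∈ lat R, IntegrableOn (fun y => (nrm y + 1) ^ 2) (cube k) := fun k hk =>
    iF.mono_set ((subset_biUnion_of_mem (u := cube) hk).trans (cubes_sub R))
  calc _ ≤ ∑ k ∈ lat R, ∫ y in cube k, (nrm y + 1) ^ 2 := by
        refine Finset.sum_le_sum fun k hk => ?_
        have := setIntegral_ge_of_const_le (μ := volume) (c := ∑ i, (k i : ℝ) ^ 2) (cube_meas k)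
          (by rw [cube_vol]; simp) (fun y hy => by
            rw [← nrm_sq fun i => (k i : ℝ)]
            exact pow_le_pow_left₀ (nrm_nonneg _) (by linarith [(abs_le.1 (cube_near hy)).1]) 2)
          (ik k hk)
        simpa [Measure.real, cube_vol] using this
    _ = ∫ y in ⋃ k ∈ lat R, cube k, (nrm y + 1) ^ 2 :=
        (integral_biUnion_finset _ (fun k _ => cube_meas k) (fun k _ k' _ h => cube_disj h) ik).symm
    _ ≤ ∫ y in {y | nrm y ≤ R + 1}, (nrm y + 1) ^ 2 :=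
        setIntegral_mono_set iF (Filter.Eventually.of_forall fun y => sq_nonneg _)
          (cubes_sub R).eventuallyLE
    _ ≤ _ := (int_nrm (by linarith)).trans (le_of_eq (by ring))

end Pool.Agent.MP_2c73ad_mp.H67
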