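import Pool.Agent.MP_2c73ad_mp.H67.Energy

/-! The unit field whose energy is close to the Thomas-Fermi energy. -/

open MeasureTheory Metric Set Real Filter Pool.Agent.MP_2c73ad_mp.H42
open scoped NNReal ENNReal

namespace Pool.Agent.MP_2c73ad_mp.H67

theorem inv_sq_le {μ : Measure (Fin 3 → ℝ)} [IsFiniteMeasure μ] {f : (Fin 3 → ℝ) → ℝ}
    (hD : Dens μ f) {z x : Fin 3 → ℝ} {b t l s : ℝ} (hb : 0 < b) (ht : 0 < t) (hs : 0 < s)
    (hbl : b / t ≤ l) (hcl : ∫ x in ball z (3 * l / 2), |f x - t ^ 3| ≤ b ^ 3)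
    (hx : x ∈ closedBall z (l / 2)) (hmax : ∀ t, s < t → 16 * b ^ 3 < μ.real (ball x t)) :
    1 / s ^ 2 ≤ (t / b) ^ 2 := by
  have h1 : b / t ≤ s := by
    by_contra hcon
    have h2 := hmax _ (not_le.1 hcon)
    have h3 := (abs_le.1 (hD.meas (T := ball x (b / t)) measurableSet_ball measure_ball_lt_top.ne
      hcl measurableSet_ball fun y hy => by
        have := dist_triangle y x z
        rw [mem_ball] at hy ⊢
        linarith [mem_closedBall.1 hx])).2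
    rw [volr_ball _ (by positivity), show t ^ 3 * (2 * (b / t)) ^ 3 = 8 * b ^ 3 by
      field_simp; norm_num] at h3
    linarith [pow_pos hb 3]
  rw [← one_div_pow, ← one_div_div b t]
  exact pow_le_pow_left₀ (by positivity) (one_div_le_one_div_of_le (by positivity) h1) 2

theorem cells_field : ∃ C : ℝ, 0 < C ∧ ∀ b a0 : ℝ, 0 < b → b ≤ 1 / 100 →
    4 * π / 3 * a0 ^ 3 = 1 → 0 < a0 → ∀ (N : ℕ) (f : (Fin 3 → ℝ) → ℝ) (μ : Measure (Fin 3 → ℝ))
    [IsFiniteMeasure μ], 0 < N → Measurable f → (∀ x, 0 ≤ f x) → Dens μ f → μ.real univ = N →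
    ∀ (r : (Fin 3 → ℝ) → ℝ) (r0 R1 : ℝ), LipschitzWith 1 r → 0 < r0 → (∀ x, r0 ≤ r x) →
    (∀ x, r x ≤ R1) → (∀ x, μ.real (ball x (r x)) ≤ 20 * b ^ 3) →
    (∀ x, r x < R1 → ∀ t, r x < t → 16 * b ^ 3 < μ.real (ball x t)) →
    ∀ (ι : Type) [Fintype ι] [DecidableEq ι] (z : ι → Fin 3 → ℝ) (l t : ι → ℝ), (∀ Q, 0 < l Q) →
    (∀ Q, 48000 / b ^ 4 ≤ t Q * l Q) →
    (∀ Q Q', Q ≠ Q' → Disjoint (ball (z Q) (l Q / 2)) (ball (z Q') (l Q' / 2))) →
    (∀ Q, ∫ x in ball (z Q) (3 * l Q / 2), |f x - t Q ^ 3| ≤ b ^ 3) →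
    ∀ H : (Fin 3 → ℝ) → ℝ≥0∞, (∀ x, x ∉ ⋃ Q, closedBall (z Q) (l Q / 2) → r x < R1 →
      ENNReal.ofReal (1 / r x ^ 2) ≤ H x) →
    ∃ (O : Type) (_ : Fintype O) (_ : DecidableEq O) (u : (Fin 3 → ℝ) → EuclideanSpace ℂ O)
      (K : ℝ≥0), Fintype.card O = N ∧ LipschitzWith K u ∧ (∀ x, ‖u x‖ = 1) ∧
      (∀ b d, ∫ x, (starRingEnd ℂ) (u x b) * u x d ∂μ = if b = d then 1 else 0) ∧
      ∫⁻ x, ENNReal.ofReal (∑ j, ‖fderiv ℝ u x (Pi.single j 1)‖ ^ 2) ∂μ ≤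
        ENNReal.ofReal ((if 1 / b ≤ N then 12 / 5 * π ^ 2 * a0 ^ 2 else 0) + C * b) *
          (∫⁻ x, ENNReal.ofReal (f x ^ (5 / 3 : ℝ))) +
        ENNReal.ofReal C * (ENNReal.ofReal (1 / R1 ^ 2) * μ univ + ∫⁻ x, H x ∂μ) := by
  obtain ⟨C, hC, hglue⟩ := glue
  obtain ⟨C0, hC0⟩ : ∃ C0, C0 = 150 * C ^ 2 := ⟨_, rfl⟩
  have C00 : 0 < C0 := by rw [hC0]; positivity
  refine ⟨5000 + 1040000 * C0, by positivity, ?_⟩
  intro b a0 hb hb1 ha ha0 N f μ _ hN mf f0 hD hμ r r0 R1 hr h0 hlo hhi hball hmax ι _ _ z l t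
    hl hy hdis hcl H hH
  have hpos : ∀ x, 0 < r x := fun x => h0.trans_le (hlo x)
  have b3 : 0 < b ^ 3 := by positivity
  obtain ⟨σ, hσ⟩ : ∃ σ, σ = 40000 * b ^ 3 := ⟨_, rfl⟩
  obtain ⟨a, had⟩ : ∃ a : ι → ℝ, ∀ Q, a Q = (1 - 3 * σ) * l Q / 2 := ⟨_, fun _ => rfl⟩
  obtain ⟨d, hdd⟩ : ∃ d : ι → ℝ, ∀ Q, d Q = b ^ 3 / 4 / t Q := ⟨_, fun _ => rfl⟩
  obtain ⟨R, hRd⟩ : ∃ R : ι → ℝ, ∀ Q, R Q = (1 - σ) * a0 * (t Q * l Q) - 1 := ⟨_, fun _ => rfl⟩
  choose t0 d0 da ad R0 bl c1 c2 c3 c4 c5 c6 using fun Q =>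
    cell_num hb hb1 (hl Q) (hy Q) ha ha0 C00.le hσ (had Q) (hdd Q) (hRd Q)
  have hcl' : ∀ Q, ∫ x in ball (z Q) (l Q / 2), |f x - t Q ^ 3| ≤ b ^ 3 := fun Q =>
    (setIntegral_mono_set (hD.int.integrableOn.sub (integrableOn_const measure_ball_lt_top.ne)).abs
      (Eventually.of_forall fun y => abs_nonneg _)
      (ball_subset_ball (by linarith [hl Q])).eventuallyLE).trans (hcl Q)
  have hcells : Cells f z l a d R (fun Q => t Q ^ 3) (b ^ 3) (σ / 2) (σ / 400) :=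
    ⟨d0, da, ad, R0, fun Q => (pow_pos (t0 Q) 3).le, hdis, hcl', c1, c2, c3⟩
  have hmass : ∀ Q, t Q ^ 3 * l Q ^ 3 - b ^ 3 ≤ μ.real (ball (z Q) (l Q / 2)) := fun Q => by
    have := (abs_le.1 (hD.meas measurableSet_ball measure_ball_lt_top.ne (hcl' Q)
      measurableSet_ball Subset.rfl)).1
    rw [volr_ball _ (half_pos (hl Q)), show 2 * (l Q / 2) = l Q by ring] at this
    linarith
  have hsum : ∑ Q, μ.real (ball (z Q) (l Q / 2)) ≤ N := by
    rw [← hμ, ← measureReal_iUnion_fintype hdis (fun _ => measurableSet_ball)]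
    exact measureReal_mono (subset_univ _)
  have hcard : ∑ Q, (lat (R Q)).card ≤ N := by
    have : ∑ Q, ((lat (R Q)).card : ℝ) ≤ N :=
      (Finset.sum_le_sum fun Q _ => (c4 Q).trans (hmass Q)).trans hsum
    exact_mod_cast this
  obtain ⟨M, hM⟩ := Nat.exists_eq_add_of_le hcard
  have hO : Fintype.card ((Σ Q, lat (R Q)) ⊕ Fin M) = N := by simp [hM]
  have : Nonempty ((Σ Q, lat (R Q)) ⊕ Fin M) := Fintype.card_pos_iff.1 (hO ▸ hN)
  have σ1 : σ / 2 ≤ 1 := by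
    have := pow_le_pow_left₀ hb.le hb1 3
    rw [hσ]; linarith
  have σ0 : 0 ≤ σ / 400 := by rw [hσ]; positivity
  obtain ⟨u, u1, u2, u3, u4⟩ := hglue μ _ r r0 R1 (σ / 2) (20 * b ^ 3) (σ / 400) _ _ _
    (by rw [hO, hμ]) hr h0 hlo hhi hball (by positivity) (by rw [hσ]; linarith) σ0 (by linarith)
    (hcells.plane hD b3.le σ1 σ0 M)
  obtain ⟨⟨K, hK⟩, hE⟩ := hcells.field (L := fun x => C / r x) (L0 := C / r0)
    (fun x => (div_pos hC (hpos x)).le) (fun x => div_le_div_of_nonneg_left hC.le h0 (hlo x)) u3 u4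
  refine ⟨_, inferInstance, inferInstance, u, K, hO, hK, u1, u2, ?_⟩
  obtain ⟨F, hF⟩ : ∃ F : ι → (Fin 3 → ℝ) → ℝ, ∀ Q x, F Q x =
      (ball (z Q) (a Q)).indicator (fun _ => (π / a Q) ^ 2 *
          (∑ k ∈ lat (R Q), ∑ j, (k j : ℝ) ^ 2) / (lat (R Q)).card) x +
        (closedBall (z Q) (a Q + d Q) \ ball (z Q) (a Q - d Q)).indicator
          (fun _ => 6 * (10 / d Q + 12 * π * R Q / a Q) ^ 2) x := ⟨_, fun _ _ => rfl⟩
  obtain ⟨W, hW⟩ : ∃ W : ι → (Fin 3 → ℝ) → ℝ, ∀ Q x, W Q x =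
      (closedBall (z Q) (l Q / 2) \ ball (z Q) (a Q - d Q)).indicator
        (fun _ => C0 * (t Q / b) ^ 2) x := ⟨_, fun _ _ => rfl⟩
  have F0 : ∀ Q x, 0 ≤ F Q x := fun Q x => by
    rw [hF]
    exact add_nonneg (indicator_nonneg (fun _ _ => by positivity) _)
      (indicator_nonneg (fun _ _ => by positivity) _)
  have W0 : ∀ Q x, 0 ≤ W Q x := fun Q x => by
    rw [hW]; exact indicator_nonneg (fun _ _ => by positivity) _
  have mFW : ∀ Q, Measurable fun x => ENNReal.ofReal (F Q x + W Q x) := fun Q => by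
    simp only [hF, hW]
    exact (((measurable_const.indicator measurableSet_ball).add (measurable_const.indicator
      (measurableSet_closedBall.diff measurableSet_ball))).add (measurable_const.indicator
      (measurableSet_closedBall.diff measurableSet_ball))).ennreal_ofReal
  simp only [← hF] at hE
  have hpt : ∀ x, ENNReal.ofReal (∑ j, ‖fderiv ℝ u x (Pi.single j 1)‖ ^ 2) ≤
      ∑ Q, ENNReal.ofReal (F Q x + W Q x) +
        ENNReal.ofReal C0 * (ENNReal.ofReal (1 / R1 ^ 2) + H x) := by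
    intro x
    have e0 : 150 * (C / r x) ^ 2 = C0 * (1 / r x ^ 2) := by rw [hC0]; ring
    have hFW : ∑ Q, F Q x ≤ ∑ Q, (F Q x + W Q x) :=
      Finset.sum_le_sum fun Q _ => le_add_of_nonneg_right (W0 Q x)
    rw [← ENNReal.ofReal_sum_of_nonneg fun Q _ => add_nonneg (F0 Q x) (W0 Q x)]
    refine (ENNReal.ofReal_le_ofReal (hE x)).trans ?_
    by_cases h1 : x ∈ ⋃ Q, ball (z Q) (a Q - d Q)
    · rw [indicator_of_notMem (not_not.2 h1), add_zero]
      exact le_add_right (ENNReal.ofReal_le_ofReal hFW)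
    rw [indicator_of_mem (show x ∈ (⋃ Q, ball (z Q) (a Q - d Q))ᶜ from h1), e0]
    have key : ENNReal.ofReal (1 / r x ^ 2) ≤ ENNReal.ofReal (1 / R1 ^ 2) + H x →
        ENNReal.ofReal (∑ Q, F Q x + C0 * (1 / r x ^ 2)) ≤
          ENNReal.ofReal (∑ Q, (F Q x + W Q x)) +
            ENNReal.ofReal C0 * (ENNReal.ofReal (1 / R1 ^ 2) + H x) := fun h =>
      ENNReal.ofReal_add_le.trans (add_le_add (ENNReal.ofReal_le_ofReal hFW) (by
        rw [ENNReal.ofReal_mul C00.le]; exact mul_le_mul_right h _))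
    by_cases h2 : r x < R1
    · by_cases h3 : x ∈ ⋃ Q, closedBall (z Q) (l Q / 2)
      · obtain ⟨Q, hQ⟩ := mem_iUnion.1 h3
        refine le_add_right (ENNReal.ofReal_le_ofReal ?_)
        rw [Finset.sum_add_distrib]
        refine add_le_add_right (le_trans ?_ (Finset.single_le_sum (fun Q _ => W0 Q x)
          (Finset.mem_univ Q))) _
        rw [hW, indicator_of_mem (show x ∈ closedBall (z Q) (l Q / 2) \ ball (z Q) (a Q - d Q) from
          ⟨hQ, fun h => h1 (mem_iUnion.2 ⟨Q, h⟩)⟩)]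
        exact mul_le_mul_of_nonneg_left
          (inv_sq_le hD hb (t0 Q) (hpos x) (bl Q) (hcl Q) hQ (hmax x h2)) C00.le
      · exact key (le_add_left (hH x h3 h2))
    · exact key (le_add_right (by rw [le_antisymm (hhi x) (not_lt.1 h2)]))
  refine (lintegral_mono hpt).trans ?_
  rw [lintegral_add_left (Finset.measurable_sum _ fun Q _ => mFW Q),
    lintegral_finsetSum _ fun Q _ => mFW Q, lintegral_const_mul' _ _ ENNReal.ofReal_ne_top,
    lintegral_add_left measurable_const, lintegral_const]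
  refine add_le_add ?_ (mul_le_mul_left (ENNReal.ofReal_le_ofReal (by linarith)) _)
  refine le_trans ?_ (mul_le_mul_right (sum_setl volume (fun Q => measurableSet_ball) hdis _) _)
  rw [Finset.mul_sum]
  refine Finset.sum_le_sum fun Q _ => ?_
  have hbN : 1 / b ≤ N := (c5 Q).trans ((hmass Q).trans (hμ ▸ measureReal_mono (subset_univ _)))
  simp only [hF, hW]
  refine (cell_int hD (z Q) (pow_pos (t0 Q) 3).le (hcl Q) (d0 Q) (da Q) (ad Q) (by positivity)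
    (by positivity) (by positivity) (c6 Q)).trans ?_
  rw [if_pos hbN, ENNReal.ofReal_mul (by positivity)]
  exact mul_le_mul_right (tangent mf f0 hD.int _ (t0 Q) (hl Q) (hcl' Q)) _

theorem kap_num {b A M κ : ℝ} (hb : 0 < b) (hb1 : b ≤ 1 / 100) (hA : A = 192000 / b ^ 5)
    (hM : M = (A / b) ^ 3 / 20) (hκ : κ = (b ^ 3) ^ 2 / (768 * A ^ 2 * (b ^ 3 + 2 * M))) :
    1 ≤ A ∧ 0 < M ∧ A * b / 4 = 48000 / b ^ 4 ∧ 1 + b ^ 3 ≤ (A * b / 4) ^ 3 ∧ 0 < κ ∧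
      (1 + 2 * M / b ^ 3) * (384 * A ^ 2 * κ) ≤ b ^ 3 / 2 ∧
      1 / κ * M ≤ 6 * 192000 ^ 8 / b ^ 52 ∧
      64 * A ^ 2 * (100000 / (A / b) ^ 2 + 1 / (A / b) ^ 2) ≤ 64001 * b := by
  have p1 : ∀ n, b ^ n ≤ 1 := fun n => pow_le_one₀ hb.le (by linarith)
  have A0 : 0 < A := by rw [hA]; positivity
  have A1 : 192000 ≤ A := by
    rw [hA, le_div_iff₀ (by positivity)]; linarith [p1 5]
  have M0 : 0 < M := by rw [hM]; positivity
  have e1 : A * b / 4 = 48000 / b ^ 4 := by rw [hA]; field_simp; norm_num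
  have h2 : 2 ≤ A * b / 4 := by
    rw [e1, le_div_iff₀ (by positivity)]; linarith [p1 4]
  have h3 : b ^ 3 ≤ M := by
    have : 20 ≤ A / b := by rw [le_div_iff₀ hb]; linarith
    have := pow_le_pow_left₀ (by norm_num) this 3
    rw [hM]; linarith [p1 3]
  refine ⟨by linarith, M0, e1, ?_, by rw [hκ]; positivity, le_of_eq ?_, ?_, ?_⟩
  · have := pow_le_pow_left₀ (by norm_num) h2 3
    linarith [p1 3]
  · rw [hκ]; field_simp; norm_num
  · calc 1 / κ * M = 768 * A ^ 2 * (b ^ 3 + 2 * M) * M / (b ^ 3) ^ 2 := by rw [hκ]; field_simp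
      _ ≤ 768 * A ^ 2 * (M + 2 * M) * M / (b ^ 3) ^ 2 := by gcongr
      _ = 144 / 25 * 192000 ^ 8 / b ^ 52 := by rw [hM, hA]; field_simp; norm_num
      _ ≤ _ := by gcongr; norm_num
  · have : 64 * A ^ 2 * (100000 / (A / b) ^ 2 + 1 / (A / b) ^ 2) = 6400064 * b * b := by
      field_simp; norm_num
    rw [this]
    nlinarith

theorem field_sharp : ∃ C : ℝ, 0 < C ∧ ∀ b a0 : ℝ, 0 < b → b ≤ 1 / 100 →
    4 * π / 3 * a0 ^ 3 = 1 → 0 < a0 → ∀ (N : ℕ) (f : (Fin 3 → ℝ) → ℝ)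
    (G : Fin 3 → (Fin 3 → ℝ) → ℝ) (μ : Measure (Fin 3 → ℝ)) [IsFiniteMeasure μ], 0 < N →
    Measurable f → (∀ x, 0 ≤ f x) → Integrable f → InH1 (fun x => √(f x)) G →
    μ = volume.withDensity (fun x => ENNReal.ofReal (f x)) → μ.real univ = N →
    ∃ (O : Type) (_ : Fintype O) (_ : DecidableEq O) (u : (Fin 3 → ℝ) → EuclideanSpace ℂ O)
      (K : ℝ≥0), Fintype.card O = N ∧ LipschitzWith K u ∧ (∀ x, ‖u x‖ = 1) ∧
      (∀ b d, ∫ x, (starRingEnd ℂ) (u x b) * u x d ∂μ = if b = d then 1 else 0) ∧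
      ∫⁻ x, ENNReal.ofReal (∑ j, ‖fderiv ℝ u x (Pi.single j 1)‖ ^ 2) ∂μ ≤
        ENNReal.ofReal ((if 1 / b ≤ N then 12 / 5 * π ^ 2 * a0 ^ 2 else 0) + C * b) *
          (∫⁻ x, ENNReal.ofReal (f x ^ (5 / 3 : ℝ))) +
        ENNReal.ofReal (C / b ^ 52) * ∫⁻ x, ENNReal.ofReal (∑ k, G k x ^ 2) := by
  obtain ⟨C, hC, hcf⟩ := cells_field
  refine ⟨C * (64003 + 6 * 192000 ^ 8), by positivity, ?_⟩
  intro b a0 hb hb1 ha ha0 N f G μ _ hN mf f0 i_f hH hμ hμN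
  have hD : Dens μ f := ⟨i_f, fun F => by
    rw [hμ, integral_withDensity_eq_integral_toReal_smul mf.ennreal_ofReal (by simp)]
    simp only [ENNReal.toReal_ofReal (f0 _), smul_eq_mul]⟩
  have hJ0 : ∫⁻ x, ENNReal.ofReal (f x ^ (5 / 3 : ℝ)) ≠ 0 := by
    intro h
    rw [lintegral_eq_zero_iff (by fun_prop)] at h
    have h1 : ∀ᵐ x, f x = 0 := h.mono fun x hx => by
      by_contra hcon
      exact absurd (ENNReal.ofReal_eq_zero.1 hx)
        (not_le.2 (Real.rpow_pos_of_pos ((f0 x).lt_of_ne' hcon) _))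
    have h2 := hD.eq fun _ => 1
    rw [integral_const, hμN, integral_congr_ae (g := fun _ => 0) (h1.mono fun x hx => by simp [hx])]
      at h2
    simp at h2
    omega
  obtain ⟨A, hA⟩ : ∃ A, A = 192000 / b ^ 5 := ⟨_, rfl⟩
  obtain ⟨M, hM⟩ : ∃ M, M = (A / b) ^ 3 / 20 := ⟨_, rfl⟩
  obtain ⟨κ, hκ⟩ : ∃ κ, κ = (b ^ 3) ^ 2 / (768 * A ^ 2 * (b ^ 3 + 2 * M)) := ⟨_, rfl⟩
  obtain ⟨k1, k2, k3, k4, k5, k6, k7, k8⟩ := kap_num hb hb1 hA hM hκ
  have b3 : 0 < b ^ 3 := by positivity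
  have A0 : 0 < A := by linarith
  obtain ⟨r, r0, R1, r1, r2, r3, r4, r5, r6, -, r7⟩ :=
    scaleW mf f0 μ hμ hJ0 (s := 7 * b) (by positivity) hb
  obtain ⟨R, ρ0, R2, s1, s2, s3, s4, s5, -, s6, s7⟩ :=
    scaleW mf f0 μ hμ hJ0 (s := A / b) (ε := 1 / (A / b) ^ 2) (by positivity) (by positivity)
  rw [← hM] at s5
  have e7 : (7 * b) ^ 3 / 20 = 343 / 20 * b ^ 3 := by ring
  rw [e7] at r5 r6
  have r8 : ∀ x, r x < R1 → ∀ t, r x < t → 16 * b ^ 3 < μ.real (ball x t) := fun x hx t ht => by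
    linarith [r6 x hx t ht]
  obtain ⟨I, z, l, t, c1, c2, c3, c4, c5⟩ := select mf f0 hD hH r2 r3 r4 r8
    (fun x => s2.trans_le (s3 x)) s5 k2 hb k1 b3 (by linarith) k4 k5 k6
  rw [k3] at c2
  obtain ⟨O, i1, i2, u, K, u0, u1, u2, u3, u4⟩ := hcf b a0 hb hb1 ha ha0 N f μ hN mf f0 hD hμN r r0
    R1 r1 r2 r3 r4 (fun x => by linarith [r5 x]) r8 I z l t c1 c2 c3 c4 _ c5
  refine ⟨O, i1, i2, u, K, u0, u1, u2, u3, u4.trans ?_⟩
  have f1 := fubini_near μ (volume.withDensity fun y => ENNReal.ofReal (∑ k, G k y ^ 2))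
    (c := fun x => 4 * A * r x) (continuous_const.mul r1.continuous) s1 s5
  rw [withDensity_apply _ MeasurableSet.univ, Measure.restrict_univ] at f1
  have mR : Measurable fun x => ENNReal.ofReal (1 / R x ^ 2) := by
    have := s1.continuous.measurable
    fun_prop
  have mS : MeasurableSet {x | R x < R2} :=
    (isOpen_lt s1.continuous continuous_const).measurableSet
  have f2 : ∫⁻ x, ENNReal.ofReal (1 / R x ^ 2) ∂μ ≤
      ENNReal.ofReal (100000 / (A / b) ^ 2 + 1 / (A / b) ^ 2) *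
        ∫⁻ x, ENNReal.ofReal (f x ^ (5 / 3 : ℝ)) := by
    rw [← lintegral_add_compl _ mS, ENNReal.ofReal_add (by positivity) (by positivity), add_mul]
    refine add_le_add s6 (le_trans ?_ s7)
    rw [setLIntegral_congr_fun mS.compl (g := fun _ => ENNReal.ofReal (1 / R2 ^ 2))
      fun x hx => by rw [le_antisymm (s4 x) (not_lt.1 hx)], setLIntegral_const]
    exact mul_le_mul_right (measure_mono (subset_univ _)) _
  rw [lintegral_add_left (mR.const_mul _), lintegral_const_mul' _ _ ENNReal.ofReal_ne_top,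
    lintegral_const_mul' _ _ ENNReal.ofReal_ne_top]
  generalize ∫⁻ x, ENNReal.ofReal (f x ^ (5 / 3 : ℝ)) = J at *
  generalize ∫⁻ x, ENNReal.ofReal (∑ k, G k x ^ 2) = W at *
  have T0 : 0 ≤ (if 1 / b ≤ N then 12 / 5 * π ^ 2 * a0 ^ 2 else 0) := by
    split_ifs <;> positivity
  generalize (if 1 / b ≤ N then 12 / 5 * π ^ 2 * a0 ^ 2 else 0) = T at *
  have g1 := mul_le_mul_right f2 (ENNReal.ofReal (64 * A ^ 2))
  have g2 := mul_le_mul_right f1 (ENNReal.ofReal (1 / κ))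
  rw [← mul_assoc, ← ENNReal.ofReal_mul (by positivity)] at g1 g2
  replace g1 := g1.trans (mul_le_mul_left (ENNReal.ofReal_le_ofReal k8) J)
  replace g2 := g2.trans (mul_le_mul_left (ENNReal.ofReal_le_ofReal k7) W)
  refine (add_le_add_right (mul_le_mul_right (add_le_add r7 (add_le_add g1 g2)) _) _).trans ?_
  rw [← add_assoc, ← add_mul, mul_add, ← add_assoc, ← mul_assoc, ← mul_assoc, ← add_mul,
    ← ENNReal.ofReal_add hb.le (by positivity), ← ENNReal.ofReal_mul hC.le,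
    ← ENNReal.ofReal_mul hC.le, ← ENNReal.ofReal_add (by positivity) (by positivity)]
  have hCb := mul_pos hC hb
  refine add_le_add (mul_le_mul_left (ENNReal.ofReal_le_ofReal (by linarith)) _)
    (mul_le_mul_left (ENNReal.ofReal_le_ofReal ?_) _)
  rw [← mul_div_assoc]
  gcongr
  norm_num

end Pool.Agent.MP_2c73ad_mp.H67
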