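import Pool.Agent.MP_2c73ad_mp.H67.Cell

/-! A disjoint family of cells filled with plane waves. -/

set_option linter.unusedSectionVars false

open MeasureTheory Metric Set Real Pool.Agent.MP_2c73ad_mp.H42

namespace Pool.Agent.MP_2c73ad_mp.H67

/-- a disjoint family of cubes on which the density `f` is almost constant -/
structure Cells (f : (Fin 3 → ℝ) → ℝ) {ι : Type} (z : ι → Fin 3 → ℝ) (l a d R n : ι → ℝ)
    (η θ e : ℝ) : Prop where
  d0 : ∀ Q, 0 < d Q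
  da : ∀ Q, d Q < a Q
  ad : ∀ Q, a Q + d Q < l Q / 2
  R0 : ∀ Q, 0 ≤ R Q
  n0 : ∀ Q, 0 ≤ n Q
  disj : ∀ Q Q', Q ≠ Q' → Disjoint (ball (z Q) (l Q / 2)) (ball (z Q') (l Q' / 2))
  close : ∀ Q, ∫ x in ball (z Q) (l Q / 2), |f x - n Q| ≤ η
  mass : ∀ Q, n Q * (2 * a Q) ^ 3 / (lat (R Q)).card + η ≤ 1 - θ
  thin : ∀ Q, n Q * (12 * (2 * R Q + 1) * d Q * (2 * a Q) ^ 2) / (lat (R Q)).card + 2 * η ≤ e
  shell : ∀ Q, n Q * ((2 * (a Q + d Q)) ^ 3 - (2 * (a Q - d Q)) ^ 3) + η ≤ e * (lat (R Q)).card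

variable {ι : Type} [Fintype ι] [DecidableEq ι]

/-- the waves of all cells -/
noncomputable def pw (z : ι → Fin 3 → ℝ) (a d R : ι → ℝ) (M : ℕ)
    (o : (Σ Q, lat (R Q)) ⊕ Fin M) (x : Fin 3 → ℝ) : ℝ :=
  Sum.elim (fun o => amp (z o.1) (a o.1) (d o.1) x * wv (a o.1) (R o.1) o.2 x) (fun _ => 0) o

/-- the amplitude left for the atoms -/
noncomputable def cBf (z : ι → Fin 3 → ℝ) (a d : ι → ℝ) (x : Fin 3 → ℝ) : ℝ :=
  cos (π / 2 * ∑ Q, cl (tau (z Q) (a Q) (d Q) x))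

/-- the cutoff of the cores -/
noncomputable def kap (z : ι → Fin 3 → ℝ) (a d : ι → ℝ) (x : Fin 3 → ℝ) : ℝ :=
  1 - ∑ Q, cl (tau (z Q) (a Q) (d Q) x + 1)

theorem sum_pw {R : ι → ℝ} {M : ℕ} (F : (Σ Q, lat (R Q)) ⊕ Fin M → ℝ) (G : ι → (Fin 3 → ℤ) → ℝ)
    (h : ∀ Q (k : lat (R Q)), F (Sum.inl ⟨Q, k⟩) = G Q k) :
    ∑ o, F o = ∑ Q, ∑ k ∈ lat (R Q), G Q k + ∑ j, F (Sum.inr j) := by
  rw [Fintype.sum_sum_type, Fintype.sum_sigma]
  simp only [h]
  congr 1
  exact Finset.sum_congr rfl fun Q _ => Finset.sum_coe_sort (lat (R Q)) (G Q)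

theorem vol_shell (z : Fin 3 → ℝ) {s t : ℝ} (hs : 0 < s) (hst : s ≤ t) :
    volume.real (closedBall z t \ ball z s) = (2 * t) ^ 3 - (2 * s) ^ 3 := by
  rw [measureReal_sdiff (ball_subset_closedBall.trans (closedBall_subset_closedBall hst))
    measurableSet_ball measure_closedBall_lt_top.ne, Measure.real, Measure.real,
    Real.volume_pi_closedBall _ (by linarith), Real.volume_pi_ball _ hs, Fintype.card_fin,
    ENNReal.toReal_ofReal (by have : 0 < t := by linarith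
                              positivity), ENNReal.toReal_ofReal (by positivity)]

namespace Cells

variable {f : (Fin 3 → ℝ) → ℝ} {z : ι → Fin 3 → ℝ} {l a d R n : ι → ℝ} {η θ e : ℝ}

theorem a0 (h : Cells f z l a d R n η θ e) (Q : ι) : 0 < a Q := (h.d0 Q).trans (h.da Q)

theorem other (h : Cells f z l a d R n η θ e) {Q Q' : ι} {x : Fin 3 → ℝ}
    (hx : dist x (z Q) < l Q / 2) (hQ : Q' ≠ Q) : a Q' + d Q' < dist x (z Q') :=
  (h.ad Q').trans_le (not_lt.1 fun h' => Set.disjoint_left.1 (h.disj Q' Q hQ) h' hx)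

theorem single (h : Cells f z l a d R n η θ e) (x : Fin 3 → ℝ) (F : ι → ℝ)
    (hF : ∀ Q, a Q + d Q < dist x (z Q) → F Q = 0) :
    (∀ Q, F Q = 0) ∨ ∃ Q, ∀ G : ι → ℝ, (∀ Q, a Q + d Q < dist x (z Q) → G Q = 0) →
      ∑ Q, G Q = G Q := by
  by_cases hx : ∃ Q, dist x (z Q) < l Q / 2
  · obtain ⟨Q, hQ⟩ := hx
    exact Or.inr ⟨Q, fun G hG => Finset.sum_eq_single Q (fun Q' _ hne => hG Q' (h.other hQ hne))
      (by simp)⟩
  · push Not at hx
    exact Or.inl fun Q => hF Q ((h.ad Q).trans_le (hx Q))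

theorem z1 (h : Cells f z l a d R n η θ e) (x : Fin 3 → ℝ) (Q : ι)
    (hx : a Q + d Q < dist x (z Q)) : cl (tau (z Q) (a Q) (d Q) x) = 0 :=
  cl_tau_zero (h.d0 Q) (by linarith [h.d0 Q])

theorem z2 (h : Cells f z l a d R n η θ e) (x : Fin 3 → ℝ) (Q : ι)
    (hx : a Q + d Q < dist x (z Q)) : cl (tau (z Q) (a Q) (d Q) x + 1) = 0 :=
  cl_tau_zero' (h.d0 Q) hx.le

theorem z3 (h : Cells f z l a d R n η θ e) (x : Fin 3 → ℝ) (Q : ι)
    (hx : a Q + d Q < dist x (z Q)) : amp (z Q) (a Q) (d Q) x = 0 :=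
  amp_zero (h.d0 Q) (by linarith [h.d0 Q])

theorem cB_zero (h : Cells f z l a d R n η θ e) {x : Fin 3 → ℝ} {Q : ι}
    (hx : x ∈ ball (z Q) (a Q - d Q)) : cBf z a d x = 0 := by
  rw [cBf, Finset.sum_eq_single Q (fun Q' _ hne => h.z1 x Q' (h.other
    (by linarith [mem_ball.1 hx, h.ad Q, h.d0 Q]) hne)) (by simp), cl_tau_one (h.d0 Q) hx]
  simp

theorem form_eq (h : Cells f z l a d R n η θ e) {M : ℕ} (w : (Σ Q, lat (R Q)) ⊕ Fin M → ℝ) :
    ∃ W : ι → (Fin 3 → ℤ) → ℝ, (∀ Q (k : lat (R Q)), w (Sum.inl ⟨Q, k⟩) = W Q k) ∧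
      ∀ x, (∑ o, w o * pw z a d R M o x) ^ 2 =
        ∑ Q, (∑ k ∈ lat (R Q), W Q k * (amp (z Q) (a Q) (d Q) x * wv (a Q) (R Q) k x)) ^ 2 := by
  refine ⟨fun Q k => if hk : k ∈ lat (R Q) then w (Sum.inl ⟨Q, ⟨k, hk⟩⟩) else 0,
    fun Q k => by simp, fun x => ?_⟩
  rw [sum_pw _ (fun Q k => (if hk : k ∈ lat (R Q) then w (Sum.inl ⟨Q, ⟨k, hk⟩⟩) else 0) *
    (amp (z Q) (a Q) (d Q) x * wv (a Q) (R Q) k x)) fun Q k => by simp [pw]]
  simp only [pw, Sum.elim_inr, mul_zero, Finset.sum_const_zero, add_zero]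
  generalize (fun Q k => if hk : k ∈ lat (R Q) then w (Sum.inl ⟨Q, ⟨k, hk⟩⟩) else 0) = W
  have hz : ∀ Q, a Q + d Q < dist x (z Q) → ∑ k ∈ lat (R Q),
      (if hk : k ∈ lat (R Q) then w (Sum.inl ⟨Q, ⟨k, hk⟩⟩) else 0) *
        (amp (z Q) (a Q) (d Q) x * wv (a Q) (R Q) k x) = 0 := fun Q hQ => by simp [h.z3 x Q hQ]
  rcases h.single x _ hz with h0 | ⟨Q, hQ⟩
  · simp only [h0]; simp
  · rw [hQ _ hz, hQ _ fun Q hQ => by rw [hz Q hQ]; simp]

theorem plane (h : Cells f z l a d R n η θ e) {μ : Measure (Fin 3 → ℝ)} [IsFiniteMeasure μ]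
    (hμ : Dens μ f) (hη : 0 ≤ η) (hθ : θ ≤ 1) (he : 0 ≤ e) (M : ℕ) :
    Plane μ θ e (pw z a d R M) (cBf z a d) (kap z a d) := by
  have hT : ∀ x, 0 ≤ ∑ Q, cl (tau (z Q) (a Q) (d Q) x) ∧ ∑ Q, cl (tau (z Q) (a Q) (d Q) x) ≤ 1 :=
    fun x => ⟨Finset.sum_nonneg fun _ _ => cl_nonneg _, by
      rcases h.single x _ (h.z1 x) with h0 | ⟨Q, hQ⟩
      · simp [h0]
      · rw [hQ _ (h.z1 x)]; exact cl_le_one _⟩
  have hal : ∀ Q, a Q ≤ l Q / 2 := fun Q => by linarith [h.ad Q, h.d0 Q]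
  have cf := fun Q => cell_forms hμ (h.a0 Q) (h.d0 Q) (h.R0 Q) (h.n0 Q) (hal Q) (h.close Q)
  have cA : ∀ Q (W : (Fin 3 → ℤ) → ℝ), Continuous fun x =>
      (∑ k ∈ lat (R Q), W k * (amp (z Q) (a Q) (d Q) x * wv (a Q) (R Q) k x)) ^ 2 := fun Q W => by
    have := amp_cont (z Q) (a Q) (d Q)
    have := wv_cont (a Q) (R Q)
    fun_prop
  have iA : ∀ Q (W : (Fin 3 → ℤ) → ℝ), Integrable (fun x =>
      (∑ k ∈ lat (R Q), W k * (amp (z Q) (a Q) (d Q) x * wv (a Q) (R Q) k x)) ^ 2) μ := fun Q W =>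
    int_bdd (cA Q W) (∑ k ∈ lat (R Q), W k ^ 2) fun x => by
      rw [Real.norm_of_nonneg (sq_nonneg _), pform]
      exact (mul_le_of_le_one_left (sq_nonneg _) (amp_sq_le _ _ _ _)).trans
        (wform_le _ (h.R0 Q) _ _)
  have one : ∀ Q (k : lat (R Q)),
      n Q * (2 * a Q) ^ 3 / (lat (R Q)).card -
        n Q * (12 * (2 * R Q + 1) * d Q * (2 * a Q) ^ 2) / (lat (R Q)).card - η ≤
        ∫ x, pw z a d R M (Sum.inl ⟨Q, k⟩) x ^ 2 ∂μ ∧
      ∫ x, pw z a d R M (Sum.inl ⟨Q, k⟩) x ^ 2 ∂μ ≤ n Q * (2 * a Q) ^ 3 / (lat (R Q)).card + η := by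
    intro Q k
    have := cf Q fun k' => if k' = k then 1 else 0
    simp only [ite_mul, one_mul, zero_mul, ite_pow, one_pow, Finset.sum_ite_eq', k.2, if_true,
      mul_one, zero_pow two_ne_zero] at this
    exact ⟨this.2.1, this.1⟩
  refine ⟨?_, ?_, ?_, ?_, ?_, ?_, ?_, ?_, ?_, ?_, ?_, ?_⟩
  · rintro (o | o)
    · exact (amp_cont _ _ _).mul (wv_cont _ _ _)
    · exact continuous_const
  · have := fun Q => tau_cont (z Q) (a Q) (d Q)
    have := cl_cont
    unfold cBf; fun_prop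
  · have := fun Q => tau_cont (z Q) (a Q) (d Q)
    have := cl_cont
    unfold kap; fun_prop
  · intro x
    refine cos_nonneg_of_mem_Icc ⟨?_, ?_⟩
    · nlinarith [(hT x).1, pi_pos]
    · nlinarith [(hT x).2, pi_pos]
  · intro x
    rw [sum_pw _ (fun Q k => amp (z Q) (a Q) (d Q) x ^ 2 * wv (a Q) (R Q) k x ^ 2)
      fun Q k => by simp [pw, mul_pow]]
    simp only [← Finset.mul_sum, sum_wv_sq _ (h.R0 _), pw, Sum.elim_inr, mul_one, cBf]
    rcases h.single x _ (h.z1 x) with h0 | ⟨Q, hQ⟩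
    · simp [amp, h0]
    · rw [hQ _ (h.z1 x), hQ _ fun Q hQ => by rw [h.z3 x Q hQ]; simp]
      simp [amp]
  · intro x
    rw [kap, sub_nonneg]
    rcases h.single x _ (h.z2 x) with h0 | ⟨Q, hQ⟩
    · simp [h0]
    · rw [hQ _ (h.z2 x)]; exact cl_le_one _
  · intro x
    rw [kap, sub_le_self_iff]
    exact Finset.sum_nonneg fun _ _ => cl_nonneg _
  · intro x hx
    rw [cBf]
    rcases h.single x _ (h.z1 x) with h0 | ⟨Q, hQ⟩
    · simp [h0]
    · rw [kap, hQ _ (h.z2 x)] at hx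
      rw [hQ _ (h.z1 x), cl_of_nonpos]
      · simp
      · by_contra hcon
        exact hx (by rw [cl_of_one_le (by linarith [not_le.1 hcon]), sub_self])
  · rintro (⟨Q, k⟩ | o)
    · exact (one Q k).2.trans (h.mass Q)
    · simp [pw, hθ]
  · intro w
    obtain ⟨W, hW, hx⟩ := h.form_eq w
    simp only [hx]
    rw [integral_finsetSum _ fun Q _ => iA Q _, Fintype.sum_sum_type, Fintype.sum_sigma]
    refine le_add_of_le_of_nonneg (Finset.sum_le_sum fun Q _ => (cf Q (W Q)).1.trans ?_)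
      (Finset.sum_nonneg fun _ _ => mul_nonneg (sq_nonneg _)
        (add_nonneg (integral_nonneg fun _ => sq_nonneg _) he))
    rw [← Finset.sum_coe_sort (lat (R Q)), Finset.mul_sum]
    refine Finset.sum_le_sum fun k _ => ?_
    rw [hW, mul_comm]
    exact mul_le_mul_of_nonneg_left (by linarith [(one Q k).1, h.thin Q]) (sq_nonneg _)
  · intro w
    obtain ⟨W, hW, hx⟩ := h.form_eq w
    simp only [hx]
    rw [integral_finsetSum _ fun Q _ => (iA Q _).integrableOn,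
      sum_pw _ (fun Q k => W Q k ^ 2) fun Q k => by rw [hW], mul_add, Finset.mul_sum]
    refine le_add_of_le_of_nonneg (Finset.sum_le_sum fun Q _ => ?_)
      (mul_nonneg he (Finset.sum_nonneg fun _ _ => sq_nonneg _))
    have hsub : {x | cBf z a d x ≠ 0} ⊆ (ball (z Q) (a Q - d Q))ᶜ :=
      fun x hx hb => hx (h.cB_zero hb)
    refine (setIntegral_mono_set (iA Q _).integrableOn
      (Filter.Eventually.of_forall fun x => sq_nonneg _) hsub.eventuallyLE).trans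
      ((cf Q (W Q)).2.2.trans ?_)
    exact mul_le_mul_of_nonneg_right (by linarith [h.thin Q])
      (Finset.sum_nonneg fun _ _ => sq_nonneg _)
  · have cc : Continuous (cBf z a d) := by
      have := fun Q => tau_cont (z Q) (a Q) (d Q)
      have := cl_cont
      unfold cBf; fun_prop
    have ck : Continuous (kap z a d) := by
      have := fun Q => tau_cont (z Q) (a Q) (d Q)
      have := cl_cont
      unfold kap; fun_prop
    have mκ : MeasurableSet {x | kap z a d x ≠ 1} :=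
      (isOpen_ne_fun ck continuous_const).measurableSet
    have mZ : ∀ Q, MeasurableSet (closedBall (z Q) (a Q + d Q) \ ball (z Q) (a Q - d Q)) :=
      fun Q => measurableSet_closedBall.diff measurableSet_ball
    have ic : Integrable (fun x => cBf z a d x ^ 2) μ := int_bdd (cc.pow 2) 1 fun x => by
      rw [Real.norm_of_nonneg (sq_nonneg _)]; exact cos_sq_le_one _
    rw [← integral_indicator mκ]
    refine (integral_le_of_indicator (ic.indicator mκ)
      (S := ⋃ Q ∈ Finset.univ, closedBall (z Q) (a Q + d Q) \ ball (z Q) (a Q - d Q))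
      (Finset.measurableSet_biUnion _ fun Q _ => mZ Q) (fun x => ?_) fun x hx => ?_).trans ?_
    · exact indicator_apply_le' (fun _ => cos_sq_le_one _) fun _ => zero_le_one
    · refine indicator_apply_le' (fun hk => ?_) fun _ => le_rfl
      by_contra hc
      have h1 : ∃ Q, dist x (z Q) ≤ a Q + d Q := by
        by_contra hcon
        push Not at hcon
        exact hk (by simp [kap, fun Q => h.z2 x Q (hcon Q)])
      obtain ⟨Q, hQ⟩ := h1
      exact hx (mem_biUnion (Finset.mem_coe.2 (Finset.mem_univ Q))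
        ⟨hQ, fun hb => hc (by rw [h.cB_zero hb]; simp)⟩)
    · refine (measureReal_biUnion_finset_le _ _).trans ?_
      have e1 : (Fintype.card ((Σ Q, lat (R Q)) ⊕ Fin M) : ℝ) =
          ∑ Q, ((lat (R Q)).card : ℝ) + M := by simp
      rw [e1, mul_add, Finset.mul_sum]
      refine le_add_of_le_of_nonneg (Finset.sum_le_sum fun Q _ => ?_) (by positivity)
      have := abs_le.1 (hμ.meas measurableSet_ball measure_ball_lt_top.ne (h.close Q) (mZ Q)
        (sdiff_subset.trans (closedBall_subset_ball (h.ad Q))))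
      rw [vol_shell _ (by linarith [h.da Q]) (by linarith [h.d0 Q])] at this
      linarith [this.2, h.shell Q]

end Cells

end Pool.Agent.MP_2c73ad_mp.H67
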