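import Pool.Agent.MP_2c73ad_mp.H42.Weak
import Pool.Agent.MP_2c73ad_mp.H42.Scale

/-! The Poincare inequality on cubes for weakly differentiable functions. -/

open MeasureTheory Metric Set Filter Topology ContinuousLinearMap Pool.Agent.MP_2c73ad_mp.H42
open scoped Convolution NNReal ENNReal

namespace Pool.Agent.MP_2c73ad_mp.H67

theorem sq_int_le {α : Type*} [MeasurableSpace α] {μ : Measure α} {η F : α → ℝ}
    (h0 : ∀ x, 0 ≤ η x) (i0 : Integrable η μ) (h1 : ∫ x, η x ∂μ = 1)
    (i1 : Integrable (fun x => η x * F x) μ) (i2 : Integrable (fun x => η x * F x ^ 2) μ) :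
    (∫ x, η x * F x ∂μ) ^ 2 ≤ ∫ x, η x * F x ^ 2 ∂μ := by
  set m := ∫ x, η x * F x ∂μ with hm
  have h : 0 ≤ ∫ x, (η x * F x ^ 2 - 2 * m * (η x * F x) + m ^ 2 * η x) ∂μ :=
    integral_nonneg fun x => by
      have := mul_nonneg (h0 x) (sq_nonneg (F x - m))
      dsimp only [Pi.zero_apply]
      linarith
  have j1 : Integrable (fun x => 2 * m * (η x * F x)) μ := i1.const_mul _
  have j2 : Integrable (fun x => η x * F x ^ 2 - 2 * m * (η x * F x)) μ := i2.sub j1
  rw [integral_add j2 (i0.const_mul _), integral_sub i2 j1, integral_const_mul,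
    integral_const_mul, h1, ← hm] at h
  nlinarith

theorem seg_bound {φ : (Fin 3 → ℝ) → ℝ} (hφ : ContDiff ℝ 1 φ) (x h : Fin 3 → ℝ) {s : ℝ}
    (hh : ‖h‖ ≤ s) :
    ENNReal.ofReal ((φ (x + h) - φ x) ^ 2) ≤ ENNReal.ofReal (3 * s ^ 2) *
      ∫⁻ t in Ioc (0 : ℝ) 1,
        ENNReal.ofReal (∑ k, fderiv ℝ φ (x + t • h) (Pi.single k 1) ^ 2) := by
  have cd : Continuous (fderiv ℝ φ) := hφ.continuous_fderiv one_ne_zero
  have c1 : Continuous fun t : ℝ => fderiv ℝ φ (x + t • h) h := by fun_prop
  have c2 : Continuous fun t : ℝ => ∑ k, fderiv ℝ φ (x + t • h) (Pi.single k 1) ^ 2 := by fun_prop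
  have e1 : ∫ t in (0 : ℝ)..1, fderiv ℝ φ (x + t • h) h = φ (x + h) - φ x := by
    have := intervalIntegral.integral_eq_sub_of_hasDerivAt (a := 0) (b := 1)
      (f := fun t : ℝ => φ (x + t • h)) (f' := fun t => fderiv ℝ φ (x + t • h) h)
      (fun t _ => by
        have h1 : HasDerivAt (fun t : ℝ => x + t • h) h t := by
          simpa using ((hasDerivAt_id t).smul_const h).const_add x
        exact (hφ.differentiable one_ne_zero _).hasFDerivAt.comp_hasDerivAt t h1)
      (c1.intervalIntegrable _ _)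
    simpa using this
  have i1 : IntegrableOn (fun t : ℝ => fderiv ℝ φ (x + t • h) h) (Ioc 0 1) :=
    c1.integrableOn_Icc.mono_set Ioc_subset_Icc_self
  have i2 : IntegrableOn (fun t : ℝ => fderiv ℝ φ (x + t • h) h ^ 2) (Ioc 0 1) :=
    (c1.pow 2).integrableOn_Icc.mono_set Ioc_subset_Icc_self
  have i3 : IntegrableOn
      (fun t : ℝ => ∑ k, fderiv ℝ φ (x + t • h) (Pi.single k 1) ^ 2) (Ioc 0 1) :=
    c2.integrableOn_Icc.mono_set Ioc_subset_Icc_self
  have e2 := sq_int_le (μ := volume.restrict (Ioc (0 : ℝ) 1)) (η := fun _ => 1)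
    (F := fun t => fderiv ℝ φ (x + t • h) h) (fun _ => zero_le_one) (integrable_const _)
    (by simp) (by simpa only [one_mul] using i1.integrable) (by simpa only [one_mul] using i2.integrable)
  simp only [one_mul] at e2
  rw [intervalIntegral.integral_of_le zero_le_one] at e1
  rw [← ofReal_integral_eq_lintegral_ofReal i3
    (Eventually.of_forall fun t => Finset.sum_nonneg fun _ _ => sq_nonneg _),
    ← ENNReal.ofReal_mul (by positivity), ← integral_const_mul, ← e1]
  refine ENNReal.ofReal_le_ofReal (e2.trans (integral_mono i2 (i3.const_mul _) fun t => ?_))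
  have e3 : fderiv ℝ φ (x + t • h) h = ∑ k, h k * fderiv ℝ φ (x + t • h) (Pi.single k 1) := by
    conv_lhs => rw [show fderiv ℝ φ (x + t • h) h =
      fderiv ℝ φ (x + t • h) (∑ k, h k • Pi.single k (1 : ℝ)) from by
        congr 1; ext j; simp [Finset.sum_apply, Pi.single_apply]]
    rw [map_sum]
    simp only [map_smul, smul_eq_mul]
  dsimp only
  rw [e3]
  refine (Finset.sum_mul_sq_le_sq_mul_sq _ _ _).trans
    (mul_le_mul_of_nonneg_right ?_ (Finset.sum_nonneg fun _ _ => sq_nonneg _))
  have : ∀ k, h k ^ 2 ≤ s ^ 2 := fun k => by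
    rw [← sq_abs]
    exact pow_le_pow_left₀ (abs_nonneg _) ((norm_le_pi_norm h k).trans hh) 2
  rw [Fin.sum_univ_three]
  linarith [this 0, this 1, this 2]

theorem smooth_poinc {φ : (Fin 3 → ℝ) → ℝ} (hφ : ContDiff ℝ 1 φ) (z : Fin 3 → ℝ) {s : ℝ}
    (hs : 0 < s) :
    ∫⁻ x in ball z s, ∫⁻ y in ball z s, ENNReal.ofReal ((φ y - φ x) ^ 2) ≤
      ENNReal.ofReal (768 * s ^ 5) *
        ∫⁻ x in ball z s, ENNReal.ofReal (∑ k, fderiv ℝ φ x (Pi.single k 1) ^ 2) := by
  have cd : Continuous (fderiv ℝ φ) := hφ.continuous_fderiv one_ne_zero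
  set K : (Fin 3 → ℝ) → ℝ≥0∞ := (ball z s).indicator
    fun x => ENNReal.ofReal (∑ k, fderiv ℝ φ x (Pi.single k 1) ^ 2) with hK
  have mK : Measurable K := Measurable.indicator
    (Continuous.measurable (by fun_prop)).ennreal_ofReal measurableSet_ball
  set π : Measure ((Fin 3 → ℝ) × ℝ) :=
    (volume.restrict (ball (0 : Fin 3 → ℝ) (2 * s))).prod (volume.restrict (Ioc (0 : ℝ) 1)) with hπ
  have m2 : Measurable fun q : (Fin 3 → ℝ) × ((Fin 3 → ℝ) × ℝ) => K (q.1 + q.2.2 • q.2.1) :=
    mK.comp (by fun_prop)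
  have step : ∀ x ∈ ball z s, ∫⁻ y in ball z s, ENNReal.ofReal ((φ y - φ x) ^ 2) ≤
      ENNReal.ofReal (3 * (2 * s) ^ 2) * ∫⁻ q, K (x + q.2 • q.1) ∂π := by
    intro x hx
    have m3 : Measurable fun q : (Fin 3 → ℝ) × ℝ => K (x + q.2 • q.1) := mK.comp (by fun_prop)
    rw [← lintegral_indicator measurableSet_ball, ← lintegral_add_left_eq_self _ x, hπ,
      lintegral_prod _ m3.aemeasurable,
      ← lintegral_const_mul' _ _ ENNReal.ofReal_ne_top, ← lintegral_indicator measurableSet_ball]
    refine lintegral_mono fun h => ?_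
    by_cases hh : x + h ∈ ball z s
    · have h2 : h ∈ ball (0 : Fin 3 → ℝ) (2 * s) := by
        rw [mem_ball_zero_iff]
        have := dist_triangle_right (x + h) x z
        rw [dist_eq_norm, add_sub_cancel_left] at this
        linarith [mem_ball.1 hx, mem_ball.1 hh]
      rw [indicator_of_mem hh, indicator_of_mem h2]
      refine (seg_bound hφ x h (mem_ball_zero_iff.1 h2).le).trans (le_of_eq ?_)
      congr 1
      refine setLIntegral_congr_fun measurableSet_Ioc fun t ht => ?_
      have : x + t • h ∈ ball z s :=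
        (convex_ball z s).add_smul_mem hx hh ⟨ht.1.le, ht.2⟩
      simp only [hK, indicator_of_mem this]
    · rw [indicator_of_notMem hh]; exact zero_le
  calc _ ≤ ∫⁻ x in ball z s, ENNReal.ofReal (3 * (2 * s) ^ 2) * ∫⁻ q, K (x + q.2 • q.1) ∂π :=
        setLIntegral_mono' measurableSet_ball step
    _ ≤ ∫⁻ x, ENNReal.ofReal (3 * (2 * s) ^ 2) * ∫⁻ q, K (x + q.2 • q.1) ∂π :=
        setLIntegral_le_lintegral _ _
    _ = ENNReal.ofReal (3 * (2 * s) ^ 2) * ∫⁻ q, (∫⁻ x, K (x + q.2 • q.1)) ∂π := by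
        rw [lintegral_const_mul' _ _ ENNReal.ofReal_ne_top,
          lintegral_lintegral_swap m2.aemeasurable]
    _ = _ := by
        simp only [lintegral_add_right_eq_self]
        rw [lintegral_const, hK, lintegral_indicator measurableSet_ball, hπ, ← univ_prod_univ,
          Measure.prod_prod, Measure.restrict_apply_univ, Measure.restrict_apply_univ,
          vol_ball _ (by positivity), Real.volume_Ioc, sub_zero, ENNReal.ofReal_one, mul_one,
          mul_comm _ (ENNReal.ofReal ((2 * (2 * s)) ^ 3)), ← mul_assoc,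
          ← ENNReal.ofReal_mul (by positivity)]
        congr 2
        ring

theorem fderiv_conv {g G : (Fin 3 → ℝ) → ℝ} {k : Fin 3} (hg : LocallyIntegrable g volume)
    (hw : WeakPartial k g G) (n : ℕ) (x : Fin 3 → ℝ) :
    fderiv ℝ ((bump n).normed volume ⋆[lsmul ℝ ℝ, volume] g) x (Pi.single k 1) =
      ∫ y, (bump n).normed volume (x - y) * G y := by
  set ρ := (bump n).normed volume with hρ
  have hρi : ContDiff ℝ ((⊤ : ℕ∞) : WithTop ℕ∞) ρ := (bump n).contDiff_normed
  have hρ1 : ContDiff ℝ 1 ρ := (bump n).contDiff_normed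
  have hρc : HasCompactSupport ρ := (bump n).hasCompactSupport_normed
  rw [(hρc.hasFDerivAt_convolution_left (lsmul ℝ ℝ) hρ1 hg x).fderiv]
  have i1 := ((hρc.fderiv ℝ).convolutionExists_left
    ((lsmul ℝ ℝ : ℝ →L[ℝ] ℝ →L[ℝ] ℝ).precompL (Fin 3 → ℝ))
    (hρ1.continuous_fderiv one_ne_zero) hg x).integrable_swap
  rw [convolution_eq_swap, integral_apply i1]
  have hw' := hw (fun t => ρ (x - t)) (hρi.comp (contDiff_const.sub contDiff_id))
    (hρc.comp_homeomorph (Homeomorph.subLeft x))
  have hd : ∀ t v, fderiv ℝ (fun t => ρ (x - t)) t v = -fderiv ℝ ρ (x - t) v := fun t v => by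
    have h1 : HasFDerivAt (fun t : Fin 3 → ℝ => x - t) (-ContinuousLinearMap.id ℝ _) t :=
      (hasFDerivAt_id t).const_sub x
    have h3 : fderiv ℝ (fun t => ρ (x - t)) t =
        (fderiv ℝ ρ (x - t)).comp (-ContinuousLinearMap.id ℝ _) :=
      ((hρ1.differentiable one_ne_zero (x - t)).hasFDerivAt.comp t h1).fderiv
    rw [h3]; simp
  simp only [hd, smul_eq_mul, neg_mul, integral_neg, neg_inj] at hw'
  rw [← hw']
  rfl

theorem moll_grad {g : (Fin 3 → ℝ) → ℝ} {G : Fin 3 → (Fin 3 → ℝ) → ℝ} (h : InH1 g G) (n : ℕ)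
    (z : Fin 3 → ℝ) {s : ℝ} (hn : 1 / ((n : ℝ) + 1) ≤ s) :
    ∫⁻ x in ball z s, ENNReal.ofReal (∑ k,
      fderiv ℝ ((bump n).normed volume ⋆[lsmul ℝ ℝ, volume] g) x (Pi.single k 1) ^ 2) ≤
      ∫⁻ x in ball z (2 * s), ENNReal.ofReal (∑ k, G k x ^ 2) := by
  set η := (bump n).normed volume with hη
  have cη : Continuous η := (bump n).continuous_normed
  have η0 : ∀ x, 0 ≤ η x := (bump n).nonneg_normed
  have ηc : HasCompactSupport η := (bump n).hasCompactSupport_normed
  obtain ⟨B, hB⟩ := ηc.exists_bound_of_continuous cη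
  have iG : ∀ k, Integrable fun x => G k x ^ 2 := fun k => (h.2 k).1.integrable_sq
  have iS : Integrable fun x => ∑ k, G k x ^ 2 := integrable_finsetSum _ fun k _ => iG k
  have i2 : ∀ x {F : (Fin 3 → ℝ) → ℝ}, Integrable F → Integrable fun y => η (x - y) * F y :=
    fun x F hF => hF.bdd_mul (c := B) (Continuous.aestronglyMeasurable (by fun_prop))
      (Eventually.of_forall fun y => hB _)
  have hpt : ∀ x, ENNReal.ofReal (∑ k,
      fderiv ℝ (η ⋆[lsmul ℝ ℝ, volume] g) x (Pi.single k 1) ^ 2) ≤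
      ∫⁻ y, ENNReal.ofReal (η (x - y)) * ENNReal.ofReal (∑ k, G k y ^ 2) := by
    intro x
    have e1 : ∀ y, ENNReal.ofReal (η (x - y)) * ENNReal.ofReal (∑ k, G k y ^ 2) =
        ENNReal.ofReal (η (x - y) * ∑ k, G k y ^ 2) := fun y => (ENNReal.ofReal_mul (η0 _)).symm
    simp only [e1]
    rw [← ofReal_integral_eq_lintegral_ofReal (i2 x iS) (Eventually.of_forall fun y =>
      mul_nonneg (η0 _) (Finset.sum_nonneg fun _ _ => sq_nonneg _))]
    refine ENNReal.ofReal_le_ofReal ?_
    simp only [Finset.mul_sum]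
    rw [integral_finsetSum _ fun k _ => i2 x (iG k)]
    refine Finset.sum_le_sum fun k _ => ?_
    rw [hη, fderiv_conv (h.1.locallyIntegrable one_le_two) (h.2 k).2]
    refine sq_int_le (fun y => η0 _) ((bump n).integrable_normed.comp_sub_left x) ?_ ?_
      (i2 x (iG k))
    · rw [integral_sub_left_eq_self, (bump n).integral_normed]
    · exact (ηc.convolutionExists_left (lsmul ℝ ℝ) cη
        ((h.2 k).1.locallyIntegrable one_le_two) x).integrable_swap
  have mS : AEMeasurable fun y => ENNReal.ofReal (∑ k, G k y ^ 2) :=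
    iS.aemeasurable.ennreal_ofReal
  have m2 : AEMeasurable (Function.uncurry fun x y : Fin 3 → ℝ =>
      ENNReal.ofReal (η (x - y)) * ENNReal.ofReal (∑ k, G k y ^ 2))
      ((volume.restrict (ball z s)).prod volume) :=
    (Continuous.measurable (by fun_prop : Continuous fun q : (Fin 3 → ℝ) × (Fin 3 → ℝ) =>
      η (q.1 - q.2))).ennreal_ofReal.aemeasurable.mul mS.comp_snd
  refine (lintegral_mono hpt).trans ?_
  rw [lintegral_lintegral_swap m2, ← lintegral_indicator measurableSet_ball]
  refine lintegral_mono fun y => ?_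
  rw [lintegral_mul_const' _ _ ENNReal.ofReal_ne_top]
  by_cases hy : y ∈ ball z (2 * s)
  · rw [indicator_of_mem hy]
    refine mul_le_of_le_one_left' ((setLIntegral_le_lintegral _ _).trans (le_of_eq ?_))
    rw [lintegral_sub_right_eq_self (fun x => ENNReal.ofReal (η x)),
      ← ofReal_integral_eq_lintegral_ofReal (bump n).integrable_normed (Eventually.of_forall η0),
      (bump n).integral_normed, ENNReal.ofReal_one]
  · rw [indicator_of_notMem hy, setLIntegral_congr_fun (g := fun _ => 0) measurableSet_ball]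
    · simp
    · intro x hx
      have : η (x - y) = 0 := by
        by_contra hcon
        have h1 : x - y ∈ Function.support η := hcon
        rw [hη, (bump n).support_normed_eq, mem_ball_zero_iff, ← dist_eq_norm] at h1
        have h2 : dist x y < 1 / ((n : ℝ) + 1) := h1
        have := dist_triangle_left y z x
        exact hy (mem_ball.2 (by linarith [mem_ball.1 hx]))
      simp [this]

theorem poincare {g : (Fin 3 → ℝ) → ℝ} {G : Fin 3 → (Fin 3 → ℝ) → ℝ} (mg : Measurable g)
    (h : InH1 g G) (z : Fin 3 → ℝ) {s : ℝ} (hs : 0 < s) :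
    ∃ x, ∫⁻ y in ball z s, ENNReal.ofReal ((g y - g x) ^ 2) ≤
      ENNReal.ofReal (96 * s ^ 2) * ∫⁻ x in ball z (2 * s), ENNReal.ofReal (∑ k, G k x ^ 2) := by
  set J := ∫⁻ x in ball z (2 * s), ENNReal.ofReal (∑ k, G k x ^ 2) with hJ
  have hg := h.1.locallyIntegrable one_le_two
  set φ : ℕ → (Fin 3 → ℝ) → ℝ := fun n => (bump n).normed volume ⋆[lsmul ℝ ℝ, volume] g with hφ
  have sφ : ∀ n, ContDiff ℝ 1 (φ n) := fun n =>
    (bump n).hasCompactSupport_normed.contDiff_convolution_left (n := 1) _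
      (bump n).contDiff_normed hg
  have cφ : ∀ n, Continuous (φ n) := fun n => (sφ n).continuous
  have hae : ∀ᵐ x, Tendsto (fun n => φ n x) atTop (𝓝 (g x)) :=
    ContDiffBump.ae_convolution_tendsto_right_of_locallyIntegrable
      (φ := bump) (l := atTop) (K := 2) tendsto_one_div_add_atTop_nhds_zero_nat
      (Eventually.of_forall fun n => le_of_eq (by simp only [bump]; ring)) hg
  have key : ∫⁻ x in ball z s, ∫⁻ y in ball z s, ENNReal.ofReal ((g y - g x) ^ 2) ≤
      ENNReal.ofReal (768 * s ^ 5) * J := by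
    calc _ ≤ ∫⁻ x in ball z s, liminf (fun n => ∫⁻ y in ball z s,
            ENNReal.ofReal ((φ n y - φ n x) ^ 2)) atTop := by
          refine lintegral_mono_ae ?_
          filter_upwards [ae_restrict_of_ae hae] with x hx
          refine le_trans (le_of_eq ?_) (lintegral_liminf_le fun n =>
            (Continuous.measurable (by have := cφ n; fun_prop)).ennreal_ofReal)
          refine lintegral_congr_ae ?_
          filter_upwards [ae_restrict_of_ae hae] with y hy
          exact ((ENNReal.continuous_ofReal.tendsto _).comp ((hy.sub hx).pow 2)).liminf_eq.symm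
      _ ≤ liminf (fun n => ∫⁻ x in ball z s, ∫⁻ y in ball z s,
            ENNReal.ofReal ((φ n y - φ n x) ^ 2)) atTop :=
          lintegral_liminf_le fun n => Measurable.lintegral_prod_right
            (Continuous.measurable (by have := cφ n; fun_prop)).ennreal_ofReal
      _ ≤ _ := by
          refine liminf_le_of_frequently_le' (Eventually.frequently ?_)
          filter_upwards [tendsto_one_div_add_atTop_nhds_zero_nat.eventually (ge_mem_nhds hs)]
            with n hn
          exact (smooth_poinc (sφ n) z hs).trans (mul_le_mul_right (moll_grad h n z hn) _)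
  have v0 : volume (ball z s) ≠ 0 := (measure_ball_pos volume z hs).ne'
  obtain ⟨x, -, hx⟩ := exists_le_setLAverage v0 measure_ball_lt_top.ne
    (f := fun x => ∫⁻ y in ball z s, ENNReal.ofReal ((g y - g x) ^ 2))
    (Measurable.lintegral_prod_right (f := fun x y => ENNReal.ofReal ((g y - g x) ^ 2))
      (((mg.comp measurable_snd).sub (mg.comp measurable_fst)).pow_const 2).ennreal_ofReal).aemeasurable
  refine ⟨x, hx.trans ?_⟩
  rw [setLAverage_eq]
  refine ENNReal.div_le_of_le_mul (key.trans (le_of_eq ?_))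
  rw [vol_ball z hs, mul_right_comm, ← ENNReal.ofReal_mul (by positivity)]
  congr 2
  ring

end Pool.Agent.MP_2c73ad_mp.H67
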