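import Pool.Agent.MP_2c73ad_mp.H67.Main
import Pool.Agent.MP_2c73ad_mp.H42.Spin

/-! The bound for orthonormal orbitals with the semiclassical constant. -/

open MeasureTheory Metric Set Real Filter Pool.Agent.MP_2c73ad_mp.H42
open scoped NNReal ENNReal

namespace Pool.Agent.MP_2c73ad_mp.H67

theorem split_sq {O : Type} [Fintype O] {u : (Fin 3 → ℝ) → EuclideanSpace ℂ O}
    (hu : ∀ x, ‖u x‖ = 1) {x : Fin 3 → ℝ} (hx : DifferentiableAt ℝ u x) (v : Fin 3 → ℝ) (s t : ℝ) :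
    ∑ a, ‖(s : ℂ) * u x a + (t : ℂ) * fderiv ℝ (fun y => u y a) x v‖ ^ 2 =
      s ^ 2 + t ^ 2 * ‖fderiv ℝ u x v‖ ^ 2 := by
  have e2 := fderiv_inner_apply ℂ hx hx v
  have e3 : (fun t => inner ℂ (u t) (u t)) = fun _ => (1 : ℂ) := by
    funext t; rw [inner_self_eq_norm_sq_to_K, hu]; simp
  rw [e3, fderiv_fun_const] at e2
  have e4 : RCLike.re (inner ℂ (u x) (fderiv ℝ u x v)) = 0 := by
    have := congrArg RCLike.re e2
    rw [map_add, inner_re_symm (fderiv ℝ u x v)] at this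
    simp only [Pi.zero_apply, zero_apply, map_zero] at this
    linarith
  have e5 := norm_add_sq (𝕜 := ℂ) ((s : ℂ) • u x) ((t : ℂ) • fderiv ℝ u x v)
  rw [inner_smul_left, inner_smul_right, Complex.conj_ofReal, norm_smul, norm_smul, hu,
    EuclideanSpace.norm_sq_eq] at e5
  have e6 : RCLike.re ((s : ℂ) * ((t : ℂ) * inner ℂ (u x) (fderiv ℝ u x v))) = 0 := by
    have : (inner ℂ (u x) (fderiv ℝ u x v)).re = 0 := e4
    simp [this]
  rw [e6] at e5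
  simp only [fderiv_coord hx]
  simp only [PiLp.add_apply, PiLp.smul_apply, smul_eq_mul, Complex.norm_real, Real.norm_eq_abs,
    mul_pow, sq_abs] at e5
  rw [e5]; ring

theorem lift {O : Type} [Fintype O] [DecidableEq O] {ρ f : (Fin 3 → ℝ) → ℝ}
    {G : Fin 3 → (Fin 3 → ℝ) → ℝ} (h0 : ∀ x, 0 ≤ ρ x) (hH : InH1 (fun x => √(ρ x)) G)
    (mf : Measurable f) (f0 : ∀ x, 0 ≤ f x) (fρ : ∀ᵐ x, f x = ρ x) {μ : Measure (Fin 3 → ℝ)}
    (hμ : μ = volume.withDensity fun x => ENNReal.ofReal (f x))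
    {u : (Fin 3 → ℝ) → EuclideanSpace ℂ O} {K : ℝ≥0} (hL : LipschitzWith K u)
    (hu1 : ∀ x, ‖u x‖ = 1)
    (hu2 : ∀ b d, ∫ x, (starRingEnd ℂ) (u x b) * u x d ∂μ = if b = d then 1 else 0) :
    ∃ (φ : O → (Fin 3 → ℝ) → ℂ) (D : O → Fin 3 → (Fin 3 → ℝ) → ℂ),
      (∀ a, InH1 (φ a) (D a)) ∧
      (∀ a b, ∫ x, (starRingEnd ℂ) (φ a x) * φ b x = if a = b then 1 else 0) ∧
      (∀ᵐ x, ∑ a, ‖φ a x‖ ^ 2 = ρ x) ∧
      ENNReal.ofReal (∑ a, ∑ k, ∫ x, ‖D a k x‖ ^ 2) ≤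
        ∫⁻ x, ENNReal.ofReal (∑ j, ‖fderiv ℝ u x (Pi.single j 1)‖ ^ 2) ∂μ +
          ENNReal.ofReal (∑ k, ∫ x, G k x ^ 2) := by
  have iρ : Integrable ρ := by
    have := hH.1.integrable_sq
    simpa only [Real.sq_sqrt (h0 _)] using this
  have hint : ∀ F : (Fin 3 → ℝ) → ℂ, ∫ x, F x ∂μ = ∫ x, (ρ x : ℂ) * F x := by
    intro F
    rw [hμ, integral_withDensity_eq_integral_toReal_smul (by fun_prop) (by simp)]
    refine integral_congr_ae ?_
    filter_upwards [fρ] with x hx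
    rw [ENNReal.toReal_ofReal (f0 x), hx, Complex.real_smul]
  have hLa : ∀ a, LipschitzWith K fun x => u x a := fun a =>
    LipschitzWith.of_dist_le_mul fun x y => (PiLp.dist_apply_le _ _ a).trans (hL.dist_le_mul x y)
  have hba : ∀ a x, ‖u x a‖ ≤ 1 := fun a x => (hu1 x) ▸ PiLp.norm_apply_le (u x) a
  have ms : AEStronglyMeasurable (fun x => ((√(ρ x) : ℝ) : ℂ)) volume :=
    Complex.continuous_ofReal.comp_aestronglyMeasurable hH.1.1
  have mD : ∀ a k, MemLp (fun x => (G k x : ℂ) * u x a +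
      ((√(ρ x) : ℝ) : ℂ) * fderiv ℝ (fun y => u y a) x (Pi.single k 1)) 2 volume := by
    intro a k
    refine MemLp.add (f := fun x => (G k x : ℂ) * u x a) ?_ ?_
    · refine (hH.2 k).1.of_le ((Complex.continuous_ofReal.comp_aestronglyMeasurable
        (hH.2 k).1.1).mul (hLa a).continuous.aestronglyMeasurable) (Eventually.of_forall fun x => ?_)
      rw [norm_mul, Complex.norm_real]
      exact mul_le_of_le_one_right (norm_nonneg _) (hba a x)
    · refine hH.1.of_le_mul (c := K) (ms.mul (measurable_fderiv_apply_const ℝ _ _).aestronglyMeasurable)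
        (Eventually.of_forall fun x => ?_)
      rw [norm_mul, Complex.norm_real, mul_comm]
      gcongr
      refine (ContinuousLinearMap.le_opNorm _ _).trans ?_
      rw [Pi.norm_single, norm_one, mul_one]
      exact norm_fderiv_le_of_lipschitz ℝ (hLa a)
  refine ⟨fun a x => ((√(ρ x) : ℝ) : ℂ) * u x a, fun a k x => (G k x : ℂ) * u x a +
      ((√(ρ x) : ℝ) : ℂ) * fderiv ℝ (fun y => u y a) x (Pi.single k 1), ?_, ?_, ?_, ?_⟩
  · intro a
    refine ⟨hH.1.of_le (ms.mul (hLa a).continuous.aestronglyMeasurable)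
      (Eventually.of_forall fun x => ?_), fun k => ⟨mD a k, ?_⟩⟩
    · rw [norm_mul, Complex.norm_real]
      exact mul_le_of_le_one_right (norm_nonneg _) (hba a x)
    · exact weak_mul (hH.1.locallyIntegrable one_le_two) ((hH.2 k).1.locallyIntegrable one_le_two)
        (hH.2 k).2 (hLa a) (hba a)
  · intro a b
    rw [← hu2 a b, hint]
    refine integral_congr_ae (Eventually.of_forall fun x => ?_)
    have : ((√(ρ x) : ℝ) : ℂ) * ((√(ρ x) : ℝ) : ℂ) = ρ x := by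
      rw [← Complex.ofReal_mul, Real.mul_self_sqrt (h0 x)]
    simp only [map_mul, Complex.conj_ofReal]
    rw [← this]; ring
  · refine Eventually.of_forall fun x => ?_
    simp only [norm_mul, mul_pow, Complex.norm_real, Real.norm_eq_abs, sq_abs, Real.sq_sqrt (h0 x)]
    rw [← Finset.mul_sum, ← EuclideanSpace.norm_sq_eq, hu1]; ring
  · have iG : ∀ k, Integrable fun x => G k x ^ 2 := fun k => (hH.2 k).1.integrable_sq
    have mE : ∀ k : Fin 3, Measurable fun x => ‖fderiv ℝ u x (Pi.single k 1)‖ ^ 2 := fun k =>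
      (measurable_fderiv_apply_const ℝ u _).norm.pow_const 2
    have iE : ∀ k, Integrable fun x => ρ x * ‖fderiv ℝ u x (Pi.single k 1)‖ ^ 2 := fun k => by
      refine iρ.mul_bdd (c := K ^ 2) (mE k).aestronglyMeasurable (Eventually.of_forall fun x => ?_)
      rw [Real.norm_of_nonneg (sq_nonneg _)]
      gcongr
      refine (ContinuousLinearMap.le_opNorm _ _).trans ?_
      rw [Pi.norm_single, norm_one, mul_one]
      exact norm_fderiv_le_of_lipschitz ℝ hL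
    have e1 : ∀ k, ∑ a, ∫ x, ‖(G k x : ℂ) * u x a +
        ((√(ρ x) : ℝ) : ℂ) * fderiv ℝ (fun y => u y a) x (Pi.single k 1)‖ ^ 2 =
        (∫ x, ρ x * ‖fderiv ℝ u x (Pi.single k 1)‖ ^ 2) + ∫ x, G k x ^ 2 := by
      intro k
      rw [← integral_finsetSum _ fun a _ => (mD a k).norm.integrable_sq, ← integral_add (iE k) (iG k)]
      refine integral_congr_ae ?_
      filter_upwards [hL.ae_differentiableAt (μ := volume)] with x hx
      rw [split_sq hu1 hx, Real.sq_sqrt (h0 x), add_comm]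
    rw [Finset.sum_comm]
    simp only [e1]
    rw [Finset.sum_add_distrib]
    refine ENNReal.ofReal_add_le.trans (add_le_add (le_of_eq ?_) le_rfl)
    rw [← integral_finsetSum _ fun k _ => iE k, ofReal_integral_eq_lintegral_ofReal
      (integrable_finsetSum _ fun k _ => iE k) (Eventually.of_forall fun x =>
        Finset.sum_nonneg fun k _ => mul_nonneg (h0 x) (sq_nonneg _)), hμ,
      lintegral_withDensity_eq_lintegral_mul _ (by fun_prop)
        (Finset.measurable_sum _ fun k _ => mE k).ennreal_ofReal]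
    refine lintegral_congr_ae ?_
    filter_upwards [fρ] with x hx
    rw [Pi.mul_apply, hx, ← ENNReal.ofReal_mul (h0 x), Finset.mul_sum]

theorem core_sharp : ∃ C : ℝ, 0 < C ∧ ∀ b a0 : ℝ, 0 < b → b ≤ 1 / 100 →
    4 * π / 3 * a0 ^ 3 = 1 → 0 < a0 → ∀ (n : ℕ) (ρ : (Fin 3 → ℝ) → ℝ)
    (G : Fin 3 → (Fin 3 → ℝ) → ℝ), (∀ x, 0 ≤ ρ x) → ∫ x, ρ x = n → InH1 (fun x => √(ρ x)) G →
    ∃ (φ : Fin n → (Fin 3 → ℝ) → ℂ) (D : Fin n → Fin 3 → (Fin 3 → ℝ) → ℂ),
      (∀ a, InH1 (φ a) (D a)) ∧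
      (∀ a b, ∫ x, (starRingEnd ℂ) (φ a x) * φ b x = if a = b then 1 else 0) ∧
      (∀ᵐ x, ∑ a, ‖φ a x‖ ^ 2 = ρ x) ∧
      ENNReal.ofReal (∑ a, ∑ k, ∫ x, ‖D a k x‖ ^ 2) ≤
        ENNReal.ofReal (if 2 ≤ n then
            (if 1 / b ≤ n then 12 / 5 * π ^ 2 * a0 ^ 2 else 0) + C * b else 0) *
          (∫⁻ x, ENNReal.ofReal (ρ x ^ (5 / 3 : ℝ))) +
          ENNReal.ofReal ((1 + C / b ^ 52) * ∑ k, ∫ x, G k x ^ 2) := by
  obtain ⟨C, hC, hfield⟩ := field_sharp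
  obtain ⟨C1, -, hcore⟩ := core
  refine ⟨C, hC, ?_⟩
  intro b a0 hb hb1 ha ha0 n ρ G h0 hN hH
  have W0 : 0 ≤ ∑ k, ∫ x, G k x ^ 2 :=
    Finset.sum_nonneg fun k _ => integral_nonneg fun x => sq_nonneg _
  have Cb : 0 ≤ C / b ^ 52 := by positivity
  by_cases h2 : 2 ≤ n
  swap
  · obtain ⟨φ, D, h1, h3, h4, h5⟩ := hcore n ρ G h0 hN hH
    refine ⟨φ, D, h1, h3, h4, h5.trans ?_⟩
    rw [if_neg h2, if_neg h2]
    exact add_le_add_right (ENNReal.ofReal_le_ofReal (le_mul_of_one_le_left W0 (by linarith))) _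
  have iρ : Integrable ρ := by
    have := hH.1.integrable_sq
    simpa only [Real.sq_sqrt (h0 _)] using this
  obtain ⟨f, hf⟩ : ∃ f : (Fin 3 → ℝ) → ℝ, f = fun x => max (iρ.aemeasurable.mk ρ x) 0 := ⟨_, rfl⟩
  have mf : Measurable f := hf ▸ iρ.aemeasurable.measurable_mk.max measurable_const
  have f0 : ∀ x, 0 ≤ f x := fun x => hf ▸ le_max_right _ _
  have fρ : ∀ᵐ x, f x = ρ x := by
    filter_upwards [iρ.aemeasurable.ae_eq_mk] with x hx
    simp only [hf, ← hx]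
    exact max_eq_left (h0 x)
  have i_f : Integrable f := iρ.congr (fρ.mono fun x hx => hx.symm)
  have hH' : InH1 (fun x => √(f x)) G :=
    ⟨hH.1.ae_eq (fρ.mono fun x hx => by simp only [hx]), fun k => ⟨(hH.2 k).1, fun ϕ h1 h3 => by
      rw [← (hH.2 k).2 ϕ h1 h3]
      exact integral_congr_ae (fρ.mono fun x hx => by simp only [hx])⟩⟩
  have := isFiniteMeasure_withDensity_ofReal i_f.2
  obtain ⟨O, i1, i2, u, K, u0, u1, u2, u3, u4⟩ := hfield b a0 hb hb1 ha ha0 n f G _ (by omega) mf f0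
    i_f hH' rfl (by
      rw [Measure.real, withDensity_apply _ MeasurableSet.univ, Measure.restrict_univ,
        ← ofReal_integral_eq_lintegral_ofReal i_f (Eventually.of_forall f0),
        ENNReal.toReal_ofReal (integral_nonneg f0), integral_congr_ae fρ, hN])
  obtain ⟨φ, D, h1, h3, h4, h5⟩ := lift h0 hH mf f0 fρ rfl u1 u2 u3
  obtain ⟨e⟩ : Nonempty (Fin n ≃ O) := ⟨Fintype.equivOfCardEq (by simp [u0])⟩
  refine ⟨fun a => φ (e a), fun a => D (e a), fun a => h1 _, fun a c => ?_, ?_, ?_⟩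
  · rw [h3]; simp only [e.apply_eq_iff_eq]
  · filter_upwards [h4] with x hx
    rwa [e.sum_comp fun p => ‖φ p x‖ ^ 2]
  · have iG : ∀ k, Integrable fun x => G k x ^ 2 := fun k => (hH.2 k).1.integrable_sq
    rw [e.sum_comp fun p => ∑ k, ∫ x, ‖D p k x‖ ^ 2, if_pos h2]
    refine h5.trans ((add_le_add_left u4 _).trans (le_of_eq ?_))
    rw [← ofReal_integral_eq_lintegral_ofReal (integrable_finsetSum _ fun k _ => iG k)
      (Eventually.of_forall fun x => Finset.sum_nonneg fun k _ => sq_nonneg _),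
      integral_finsetSum _ fun k _ => iG k, add_assoc, ← ENNReal.ofReal_mul Cb,
      ← ENNReal.ofReal_add (mul_nonneg Cb W0) W0,
      lintegral_congr_ae (fρ.mono fun x hx => by rw [hx])]
    congr 2
    ring

theorem split_near (q N : ℕ) (hq : 1 ≤ q) :
    ∃ n : Fin q → ℕ, ∑ σ, n σ = N ∧ ∀ σ, q * n σ ≤ N + q := by
  refine ⟨fun σ => N / q + if (σ : ℕ) < N % q then 1 else 0, ?_, fun σ => ?_⟩
  · rw [Finset.sum_add_distrib, Finset.sum_const, Finset.card_univ, Fintype.card_fin, smul_eq_mul,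
      Fin.sum_univ_eq_sum_range (fun s => if s < N % q then 1 else 0), Finset.sum_boole]
    have : (Finset.range q).filter (fun s => s < N % q) = Finset.range (N % q) := by
      ext s
      have := Nat.mod_lt N hq
      simp only [Finset.mem_filter, Finset.mem_range]
      omega
    rw [this, Finset.card_range]
    exact Nat.div_add_mod N q
  · have h1 : q * (N / q) ≤ N := Nat.mul_div_le N q
    rw [mul_add]
    split_ifs <;> omega

theorem spin_gen {q N : ℕ} (hN : 1 ≤ N) {ρ : (Fin 3 → ℝ) → ℝ} {G : Fin 3 → (Fin 3 → ℝ) → ℝ}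
    (h0 : ∀ x, 0 ≤ ρ x) (hρ : ∫ x, ρ x = N) (hH : InH1 (fun x => √(ρ x)) G) {n : Fin q → ℕ}
    (hn : ∑ σ, n σ = N) {A : ℕ → ℝ} (A0 : ∀ m, 0 ≤ A m) {B Λ : ℝ} (hB : 0 ≤ B) (hΛ : 0 ≤ Λ)
    (hA : ∀ σ, A (n σ) * ((n σ : ℝ) / N) ^ (2 / 3 : ℝ) ≤ Λ)
    (hcore : ∀ (n : ℕ) (ρ : (Fin 3 → ℝ) → ℝ) (G : Fin 3 → (Fin 3 → ℝ) → ℝ), (∀ x, 0 ≤ ρ x) →
      ∫ x, ρ x = n → InH1 (fun x => √(ρ x)) G →
      ∃ (φ : Fin n → (Fin 3 → ℝ) → ℂ) (D : Fin n → Fin 3 → (Fin 3 → ℝ) → ℂ),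
        (∀ a, InH1 (φ a) (D a)) ∧
        (∀ a b, ∫ x, (starRingEnd ℂ) (φ a x) * φ b x = if a = b then 1 else 0) ∧
        (∀ᵐ x, ∑ a, ‖φ a x‖ ^ 2 = ρ x) ∧
        ENNReal.ofReal (∑ a, ∑ k, ∫ x, ‖D a k x‖ ^ 2) ≤
          ENNReal.ofReal (A n) * (∫⁻ x, ENNReal.ofReal (ρ x ^ (5 / 3 : ℝ))) +
            ENNReal.ofReal (B * ∑ k, ∫ x, G k x ^ 2)) :
    ∃ (φ : Fin N → Fin q → (Fin 3 → ℝ) → ℂ) (D : Fin N → Fin q → Fin 3 → (Fin 3 → ℝ) → ℂ),
      (∀ i σ, InH1 (φ i σ) (D i σ)) ∧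
      (∀ i j, ∑ σ, ∫ x, (starRingEnd ℂ) (φ i σ x) * φ j σ x = if i = j then 1 else 0) ∧
      (∀ᵐ x, ∑ i, ∑ σ, ‖φ i σ x‖ ^ 2 = ρ x) ∧
      ENNReal.ofReal (∑ i, ∑ σ, ∑ k, ∫ x, ‖D i σ k x‖ ^ 2) ≤
        ENNReal.ofReal Λ * (∫⁻ x, ENNReal.ofReal (ρ x ^ (5 / 3 : ℝ))) +
          ENNReal.ofReal (B * ∑ k, ∫ x, G k x ^ 2) := by
  have hN' : (0 : ℝ) < N := by exact_mod_cast hN
  obtain ⟨c, hc⟩ : ∃ c : Fin q → ℝ, ∀ σ, c σ = n σ / N := ⟨_, fun _ => rfl⟩
  have c0 : ∀ σ, 0 ≤ c σ := fun σ => by rw [hc]; positivity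
  have c1 : ∑ σ, c σ = 1 := by
    simp only [hc]
    rw [← Finset.sum_div, ← Nat.cast_sum, hn, div_self hN'.ne']
  choose φ D h1 h2 h3 h4 using fun σ => hcore (n σ) (fun x => c σ * ρ x)
    (fun k x => √(c σ) * G k x) (fun x => mul_nonneg (c0 σ) (h0 x))
    (by rw [integral_const_mul, hρ, hc]; field_simp)
    (by simpa only [Real.sqrt_mul (c0 σ)] using hH.const_mul (√(c σ)))
  obtain ⟨e⟩ : Nonempty (Fin N ≃ Σ σ : Fin q, Fin (n σ)) :=
    ⟨Fintype.equivOfCardEq (by simp [hn])⟩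
  set Φ : (Σ σ : Fin q, Fin (n σ)) → Fin q → (Fin 3 → ℝ) → ℂ :=
    fun p σ x => if p.1 = σ then φ p.1 p.2 x else 0 with hΦ
  set Δ : (Σ σ : Fin q, Fin (n σ)) → Fin q → Fin 3 → (Fin 3 → ℝ) → ℂ :=
    fun p σ k x => if p.1 = σ then D p.1 p.2 k x else 0 with hΔ
  refine ⟨fun i => Φ (e i), fun i => Δ (e i), ?_, ?_, ?_, ?_⟩
  · intro i σ
    by_cases h : (e i).1 = σ
    · simpa only [hΦ, hΔ, if_pos h] using h1 _ _
    · simpa only [hΦ, hΔ, if_neg h] using InH1.zero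
  · intro i j
    have key : ∀ p p' : (Σ σ : Fin q, Fin (n σ)),
        ∑ σ, ∫ x, (starRingEnd ℂ) (Φ p σ x) * Φ p' σ x = if p = p' then 1 else 0 := by
      rintro ⟨s, a⟩ ⟨s', a'⟩
      rw [Finset.sum_eq_single s]
      · by_cases h : s' = s
        · subst h
          simp only [hΦ, if_true, h2, Sigma.mk.injEq, heq_eq_eq, true_and]
        · have : (⟨s, a⟩ : Σ σ : Fin q, Fin (n σ)) ≠ ⟨s', a'⟩ := fun hh =>
            h (congrArg Sigma.fst hh).symm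
          simp [hΦ, h, this]
      · intro σ _ hσ
        simp [hΦ, hσ.symm]
      · simp
    rw [key]
    simp only [e.apply_eq_iff_eq]
  · filter_upwards [ae_all_iff.2 h3] with x hx
    rw [e.sum_comp fun p => ∑ σ, ‖Φ p σ x‖ ^ 2]
    have : ∀ p : (Σ σ : Fin q, Fin (n σ)), ∑ σ, ‖Φ p σ x‖ ^ 2 = ‖φ p.1 p.2 x‖ ^ 2 := by
      intro p
      rw [Finset.sum_eq_single p.1]
      · simp [hΦ]
      · intro σ _ hσ
        simp [hΦ, hσ.symm]
      · simp
    simp only [this]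
    rw [Fintype.sum_sigma]
    simp only [hx]
    rw [← Finset.sum_mul, c1, one_mul]
  · rw [e.sum_comp fun p => ∑ σ, ∑ k, ∫ x, ‖Δ p σ k x‖ ^ 2]
    have : ∀ p : (Σ σ : Fin q, Fin (n σ)), ∑ σ, ∑ k, ∫ x, ‖Δ p σ k x‖ ^ 2 =
        ∑ k, ∫ x, ‖D p.1 p.2 k x‖ ^ 2 := by
      intro p
      rw [Finset.sum_eq_single p.1]
      · simp [hΔ]
      · intro σ _ hσ
        simp [hΔ, hσ.symm]
      · simp
    simp only [this]
    rw [Fintype.sum_sigma, ENNReal.ofReal_sum_of_nonneg fun σ _ => Finset.sum_nonneg fun a _ =>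
      Finset.sum_nonneg fun k _ => integral_nonneg fun x => sq_nonneg _]
    refine (Finset.sum_le_sum fun σ _ => h4 σ).trans ?_
    rw [Finset.sum_add_distrib]
    refine add_le_add ?_ (le_of_eq ?_)
    · have b : ∀ σ, ENNReal.ofReal (A (n σ)) *
          ∫⁻ x, ENNReal.ofReal ((c σ * ρ x) ^ (5 / 3 : ℝ)) ≤
          ENNReal.ofReal (c σ * Λ) * ∫⁻ x, ENNReal.ofReal (ρ x ^ (5 / 3 : ℝ)) := by
        intro σ
        have e1 : ∀ x, ENNReal.ofReal ((c σ * ρ x) ^ (5 / 3 : ℝ)) =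
            ENNReal.ofReal (c σ ^ (5 / 3 : ℝ)) * ENNReal.ofReal (ρ x ^ (5 / 3 : ℝ)) := fun x => by
          rw [Real.mul_rpow (c0 σ) (h0 x), ENNReal.ofReal_mul (Real.rpow_nonneg (c0 σ) _)]
        simp only [e1]
        rw [lintegral_const_mul' _ _ ENNReal.ofReal_ne_top, ← mul_assoc,
          ← ENNReal.ofReal_mul (A0 _)]
        refine mul_le_mul_left (ENNReal.ofReal_le_ofReal ?_) _
        have e4 : (5 / 3 : ℝ) = 1 + 2 / 3 := by norm_num
        rw [e4, Real.rpow_add' (c0 σ) (by norm_num), Real.rpow_one, mul_left_comm]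
        exact mul_le_mul_of_nonneg_left (hc σ ▸ hA σ) (c0 σ)
      refine (Finset.sum_le_sum fun σ _ => b σ).trans (le_of_eq ?_)
      rw [← Finset.sum_mul, ← ENNReal.ofReal_sum_of_nonneg fun σ _ => mul_nonneg (c0 σ) hΛ,
        ← Finset.sum_mul, c1, one_mul]
    · rw [← ENNReal.ofReal_sum_of_nonneg fun σ _ => mul_nonneg hB (Finset.sum_nonneg fun k _ =>
        integral_nonneg fun x => sq_nonneg _)]
      congr 1
      simp only [mul_pow, Real.sq_sqrt (c0 _), integral_const_mul, ← Finset.mul_sum]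
      rw [← Finset.sum_mul, c1, one_mul]

theorem frac_le {q N m : ℕ} (hq : 1 ≤ q) (hN : 1 ≤ N) (h : q * m ≤ N + q) {b : ℝ} (hb : 0 < b)
    (hb1 : b ≤ 1 / 2) (hm : 1 / b ≤ m) :
    ((m : ℝ) / N) ^ (2 / 3 : ℝ) ≤ (1 + 2 * b) * (q : ℝ) ^ (-(2 / 3) : ℝ) := by
  have hN' : (0 : ℝ) < N := by exact_mod_cast hN
  have hq' : (0 : ℝ) < q := by exact_mod_cast hq
  have h' : (q : ℝ) * m ≤ N + q := by exact_mod_cast h
  rw [div_le_iff₀ hb] at hm
  have e2 : (m : ℝ) / N ≤ (1 + 2 * b) / q := by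
    have a1 := mul_le_mul_of_nonneg_left hm hq'.le
    have a2 : (0 : ℝ) ≤ q * m := by positivity
    have a3 := mul_le_mul_of_nonneg_left (show (1 - b) * (q * m) ≤ N by linarith)
      (show 0 ≤ 1 + 2 * b by linarith)
    have a4 := mul_nonneg (mul_nonneg hb.le (show 0 ≤ 1 - 2 * b by linarith)) a2
    rw [div_le_div_iff₀ hN' hq']
    linarith
  refine (Real.rpow_le_rpow (by positivity) e2 (by norm_num)).trans ?_
  rw [Real.div_rpow (by positivity) hq'.le, Real.rpow_neg hq'.le, div_eq_mul_inv]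
  refine mul_le_mul_of_nonneg_right ?_ (by positivity)
  simpa using Real.rpow_le_rpow_of_exponent_le (show 1 ≤ 1 + 2 * b by linarith)
    (show (2 / 3 : ℝ) ≤ 1 by norm_num)

theorem sharp : ∃ C : ℝ, 0 < C ∧ ∀ ε : ℝ, 0 < ε → ε ≤ 1 → ∀ (q N : ℕ), 1 ≤ q → 1 ≤ N →
    ∀ (ρ : (Fin 3 → ℝ) → ℝ) (G : Fin 3 → (Fin 3 → ℝ) → ℝ),
      (∀ x, 0 ≤ ρ x) → ∫ x, ρ x = N → InH1 (fun x => √(ρ x)) G →
      ∃ (φ : Fin N → Fin q → (Fin 3 → ℝ) → ℂ) (D : Fin N → Fin q → Fin 3 → (Fin 3 → ℝ) → ℂ),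
        (∀ i σ, InH1 (φ i σ) (D i σ)) ∧
        (∀ i j, ∑ σ, ∫ x, (starRingEnd ℂ) (φ i σ x) * φ j σ x = if i = j then 1 else 0) ∧
        (∀ᵐ x, ∑ i, ∑ σ, ‖φ i σ x‖ ^ 2 = ρ x) ∧
        ENNReal.ofReal (∑ i, ∑ σ, ∑ k, ∫ x, ‖D i σ k x‖ ^ 2) ≤
          ENNReal.ofReal ((1 + ε) * (q : ℝ) ^ (-(2 / 3) : ℝ) *
              (3 / 5 * (6 * π ^ 2) ^ (2 / 3 : ℝ))) *
              (∫⁻ x, ENNReal.ofReal (ρ x ^ (5 / 3 : ℝ))) +
            ENNReal.ofReal (C / ε ^ 52 * ∑ k, ∫ x, G k x ^ 2) := by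
  obtain ⟨C, hC, hcore⟩ := core_sharp
  obtain ⟨c, hc⟩ : ∃ c, c = 100 + 2 * C := ⟨_, rfl⟩
  have c0 : 0 < c := by linarith
  refine ⟨1 + C * c ^ 52, by positivity, ?_⟩
  intro ε hε hε1 q N hq hN ρ G h0 hρ hH
  obtain ⟨n, hn, hn2⟩ := split_near q N hq
  obtain ⟨b, hbd⟩ : ∃ b, b = ε / c := ⟨_, rfl⟩
  have hb : 0 < b := by rw [hbd]; positivity
  have hbc : b * c = ε := by rw [hbd]; field_simp
  have hCb := mul_pos hC hb
  have hb1 : b ≤ 1 / 100 := by rw [hc] at hbc; linarith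
  obtain ⟨a0, had⟩ : ∃ a0, a0 = (6 * π ^ 2) ^ (1 / 3 : ℝ) / (2 * π) := ⟨_, rfl⟩
  have ha0 : 0 < a0 := by rw [had]; positivity
  have ha : 4 * π / 3 * a0 ^ 3 = 1 := by
    rw [had, div_pow, ← Real.rpow_natCast, ← Real.rpow_mul (by positivity)]
    norm_num
    field_simp
    norm_num
  have hK : 12 / 5 * π ^ 2 * a0 ^ 2 = 3 / 5 * (6 * π ^ 2) ^ (2 / 3 : ℝ) := by
    rw [had, div_pow, ← Real.rpow_natCast ((6 * π ^ 2) ^ (1 / 3 : ℝ)),
      ← Real.rpow_mul (by positivity)]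
    norm_num
    field_simp
    norm_num
  have K1 : 1 ≤ 3 / 5 * (6 * π ^ 2) ^ (2 / 3 : ℝ) := by
    have := (a0_bounds ha ha0).1
    have := mul_le_mul (pow_le_pow_left₀ (by norm_num) pi_gt_three.le 2)
      (pow_le_pow_left₀ (by norm_num) this 2) (by norm_num) (by positivity)
    rw [← hK]; linarith
  have hq0 : 0 ≤ (q : ℝ) ^ (-(2 / 3) : ℝ) := by positivity
  have hcore' := hcore b a0 hb hb1 ha ha0
  rw [hK] at hcore'
  generalize 3 / 5 * (6 * π ^ 2) ^ (2 / 3 : ℝ) = K at *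
  obtain ⟨φ, D, h1, h2, h3, h4⟩ := spin_gen hN h0 hρ hH hn
    (A := fun m => if 2 ≤ m then (if 1 / b ≤ m then K else 0) + C * b else 0)
    (fun m => by split_ifs <;> linarith) (B := 1 + C / b ^ 52)
    (Λ := (1 + ε) * (q : ℝ) ^ (-(2 / 3) : ℝ) * K) (by positivity) (by positivity)
    (fun σ => by
      have hKb := mul_le_mul_of_nonneg_left K1 hCb.le
      have hKb' := mul_pos hb (show 0 < K by linarith)
      have hε' : ε * K = 100 * (b * K) + 2 * (C * b * K) := by rw [← hbc, hc]; ring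
      split_ifs with g1 g2
      · refine (mul_le_mul_of_nonneg_left (frac_le hq hN (hn2 σ) hb (by linarith) g2)
          (by linarith)).trans ?_
        rw [← mul_assoc, mul_right_comm (1 + ε)]
        refine mul_le_mul_of_nonneg_right ?_ hq0
        have := mul_le_mul_of_nonneg_left hb1 hCb.le
        linarith
      · refine (mul_le_mul_of_nonneg_left (frac_le hq hN (hn2 σ) (b := 1 / 2) (by norm_num) le_rfl
          (by norm_num; exact_mod_cast g1)) (by linarith)).trans ?_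
        rw [← mul_assoc, mul_right_comm (1 + ε)]
        exact mul_le_mul_of_nonneg_right (by linarith) hq0
      · rw [zero_mul]; positivity) hcore'
  refine ⟨φ, D, h1, h2, h3, h4.trans (add_le_add_right (ENNReal.ofReal_le_ofReal
    (mul_le_mul_of_nonneg_right ?_ (Finset.sum_nonneg fun k _ =>
      integral_nonneg fun x => sq_nonneg _))) _)⟩
  rw [hbd, div_pow, div_div_eq_mul_div, add_div]
  exact add_le_add_left (one_le_one_div (by positivity) (pow_le_one₀ hε.le hε1)) _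

end Pool.Agent.MP_2c73ad_mp.H67
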