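import Pool.Agent.MP_2c73ad_mp.H67.Lattice

/-! Real plane waves in a cube. -/

open MeasureTheory Metric Set Real

namespace Pool.Agent.MP_2c73ad_mp.H67

/-- phase of the wave with wave vector `k` and period `2 a` -/
noncomputable def ph (a : ℝ) (k : Fin 3 → ℤ) (x : Fin 3 → ℝ) : ℝ := π / a * ∑ i, (k i : ℝ) * x i

/-- the Hartley kernel -/
noncomputable def cas (t : ℝ) : ℝ := cos t + sin t

theorem ph_cont (a : ℝ) (k : Fin 3 → ℤ) : Continuous (ph a k) := by unfold ph; fun_prop

theorem cas_cont : Continuous cas := by unfold cas; fun_prop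

theorem ph_neg (a : ℝ) (k : Fin 3 → ℤ) (x : Fin 3 → ℝ) : ph a (-k) x = -ph a k x := by
  simp [ph, Finset.sum_neg_distrib]

theorem ph_add (a : ℝ) (k l : Fin 3 → ℤ) (x : Fin 3 → ℝ) :
    ph a (k + l) x = ph a k x + ph a l x := by
  simp [ph, add_mul, Finset.sum_add_distrib, mul_add]

theorem ph_sub (a : ℝ) (k l : Fin 3 → ℤ) (x : Fin 3 → ℝ) :
    ph a (k - l) x = ph a k x - ph a l x := by
  rw [sub_eq_add_neg, ph_add, ph_neg]; ring

theorem ph_zero (a : ℝ) (x : Fin 3 → ℝ) : ph a 0 x = 0 := by simp [ph]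

theorem exp_box {a : ℝ} (ha : 0 < a) (q : Fin 3 → ℤ) (A : Fin 3 → Set ℝ) {j : Fin 3} {c : ℝ}
    (hA : A j = Ioo (c - a) (c + a)) (hq : q j ≠ 0) :
    ∫ x in univ.pi A, Complex.exp (ph a q x * Complex.I) = 0 := by
  have e1 : ∀ x, Complex.exp (ph a q x * Complex.I) =
      ∏ i, Complex.exp ((((π / a * q i : ℝ) : ℂ) * Complex.I) * (x i : ℝ)) := fun x => by
    rw [← Complex.exp_sum, ph]
    congr 1
    push_cast
    rw [Finset.mul_sum, Finset.sum_mul]
    exact Finset.sum_congr rfl fun i _ => by ring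
  simp only [e1]
  rw [volume_pi, Measure.restrict_pi_pi, integral_fintype_prod_eq_prod
    (fun i (t : ℝ) => Complex.exp ((((π / a * q i : ℝ) : ℂ) * Complex.I) * t))]
  refine Finset.prod_eq_zero (Finset.mem_univ j) ?_
  have hq' : (q j : ℝ) ≠ 0 := by exact_mod_cast hq
  have hc : (((π / a * q j : ℝ) : ℂ) * Complex.I) ≠ 0 :=
    mul_ne_zero (by exact_mod_cast mul_ne_zero (div_pos pi_pos ha).ne' hq') Complex.I_ne_zero
  rw [hA, ← integral_Ioc_eq_integral_Ioo, ← intervalIntegral.integral_of_le (by linarith),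
    integral_exp_mul_complex hc, div_eq_zero_iff]
  left
  have ha' : (a : ℂ) ≠ 0 := by exact_mod_cast ha.ne'
  rw [sub_eq_zero, show (((π / a * q j : ℝ) : ℂ) * Complex.I) * ((c + a : ℝ) : ℂ) =
    (((π / a * q j : ℝ) : ℂ) * Complex.I) * ((c - a : ℝ) : ℂ) + (q j : ℂ) * (2 * π * Complex.I) by
      push_cast; field_simp; ring, Complex.exp_add, Complex.exp_int_mul_two_pi_mul_I, mul_one]

theorem int_on {S : Set (Fin 3 → ℝ)} (hS : volume S ≠ ⊤) {E : Type*} [NormedAddCommGroup E]
    [SecondCountableTopology E] {F : (Fin 3 → ℝ) → E} (hF : Continuous F) (C : ℝ)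
    (h : ∀ x, ‖F x‖ ≤ C) : IntegrableOn F S :=
  Measure.integrableOn_of_bounded hS hF.aestronglyMeasurable (Filter.Eventually.of_forall h)

theorem trig_box {a : ℝ} (ha : 0 < a) (q : Fin 3 → ℤ) (A : Fin 3 → Set ℝ)
    (hS : volume (univ.pi A) ≠ ⊤) {j : Fin 3} {c : ℝ}
    (hA : A j = Ioo (c - a) (c + a)) (hq : q j ≠ 0) :
    ∫ x in univ.pi A, cos (ph a q x) = 0 ∧ ∫ x in univ.pi A, sin (ph a q x) = 0 := by
  have h := exp_box ha q A hA hq
  have i : IntegrableOn (fun x => Complex.exp (ph a q x * Complex.I)) (univ.pi A) :=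
    int_on hS (by have := ph_cont a q; fun_prop) 1 fun x => (Complex.norm_exp_ofReal_mul_I _).le
  have h1 := integral_re i
  have h2 := integral_im i
  rw [h] at h1 h2
  simp only [RCLike.re_to_complex, RCLike.im_to_complex, Complex.exp_ofReal_mul_I_re,
    Complex.exp_ofReal_mul_I_im, Complex.zero_re, Complex.zero_im] at h1 h2
  exact ⟨h1, h2⟩

theorem int_cos {S : Set (Fin 3 → ℝ)} (hS : volume S ≠ ⊤) (a : ℝ) (q : Fin 3 → ℤ) :
    IntegrableOn (fun x => cos (ph a q x)) S :=
  int_on hS (by have := ph_cont a q; fun_prop) 1 fun x => abs_cos_le_one _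

theorem int_sin {S : Set (Fin 3 → ℝ)} (hS : volume S ≠ ⊤) (a : ℝ) (q : Fin 3 → ℤ) :
    IntegrableOn (fun x => sin (ph a q x)) S :=
  int_on hS (by have := ph_cont a q; fun_prop) 1 fun x => abs_sin_le_one _

theorem ball_form {a : ℝ} (ha : 0 < a) (z : Fin 3 → ℝ) (K : Finset (Fin 3 → ℤ))
    (w : (Fin 3 → ℤ) → ℝ) :
    ∫ x in ball z a, (∑ k ∈ K, w k * cas (ph a k x)) ^ 2 = (2 * a) ^ 3 * ∑ k ∈ K, w k ^ 2 := by
  have hv : volume (ball z a) ≠ ⊤ := measure_ball_lt_top.ne
  have hb : ball z a = univ.pi fun i => Ioo (z i - a) (z i + a) := by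
    rw [ball_pi _ ha]; simp only [Real.ball_eq_Ioo]
  have e1 : ∀ x, (∑ k ∈ K, w k * cas (ph a k x)) ^ 2 = ∑ k ∈ K, ∑ l ∈ K,
      w k * w l * (cos (ph a (k - l) x) + sin (ph a (k + l) x)) := fun x => by
    rw [sq, Finset.sum_mul_sum]
    refine Finset.sum_congr rfl fun k _ => Finset.sum_congr rfl fun l _ => ?_
    rw [ph_sub, ph_add, cos_sub, sin_add, cas, cas]; ring
  have i1 : ∀ k l : Fin 3 → ℤ, IntegrableOn (fun x =>
      w k * w l * (cos (ph a (k - l) x) + sin (ph a (k + l) x))) (ball z a) := fun k l =>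
    ((int_cos hv a _).add (int_sin hv a _)).const_mul _
  have hz : ∀ q : Fin 3 → ℤ, q ≠ 0 →
      ∫ x in ball z a, cos (ph a q x) = 0 ∧ ∫ x in ball z a, sin (ph a q x) = 0 := fun q hq => by
    obtain ⟨j, hj⟩ := Function.ne_iff.1 hq
    rw [hb] at hv ⊢
    exact trig_box ha q _ hv (j := j) rfl hj
  have hs : ∀ q : Fin 3 → ℤ, ∫ x in ball z a, sin (ph a q x) = 0 := fun q => by
    by_cases hq : q = 0
    · simp [hq, ph_zero]
    · exact (hz q hq).2
  simp only [e1]
  rw [integral_finsetSum _ fun k _ => integrable_finsetSum _ fun l _ => i1 k l, Finset.mul_sum]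
  refine Finset.sum_congr rfl fun k hk => ?_
  rw [integral_finsetSum _ fun l _ => i1 k l, Finset.sum_eq_single_of_mem k hk]
  · rw [integral_const_mul, integral_add (int_cos hv a _) (int_sin hv a _), hs, sub_self]
    simp only [ph_zero, cos_zero, integral_const, Measure.real, Measure.restrict_apply_univ,
      Real.volume_pi_ball z ha, Fintype.card_fin, smul_eq_mul]
    rw [ENNReal.toReal_ofReal (by positivity)]
    ring
  · intro l _ hl
    rw [integral_const_mul, integral_add (int_cos hv a _) (int_sin hv a _), hs,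
      (hz _ (sub_ne_zero.2 hl.symm)).1]
    simp

theorem slab_form {a R : ℝ} (ha : 0 < a) (hR : 0 ≤ R) (z : Fin 3 → ℝ) (i : Fin 3)
    (A : Fin 3 → Set ℝ) (hA : ∀ j, j ≠ i → A j = Ioo (z j - a) (z j + a))
    (hS : volume (univ.pi A) ≠ ⊤) (w : (Fin 3 → ℤ) → ℝ) :
    ∫ x in univ.pi A, (∑ k ∈ lat R, w k * cas (ph a k x)) ^ 2 ≤
      2 * (2 * R + 1) * volume.real (univ.pi A) * ∑ k ∈ lat R, w k ^ 2 := by
  set V := volume.real (univ.pi A) with hV
  have hV0 : 0 ≤ V := measureReal_nonneg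
  have e1 : ∀ x, (∑ k ∈ lat R, w k * cas (ph a k x)) ^ 2 ≤ ∑ k ∈ lat R, ∑ l ∈ lat R,
      2 * (w k * w l) * cos (ph a (k - l) x) := fun x => by
    have h1 : ∑ k ∈ lat R, w k * cas (ph a k x) =
        ∑ k ∈ lat R, w k * cos (ph a k x) + ∑ k ∈ lat R, w k * sin (ph a k x) := by
      rw [← Finset.sum_add_distrib]
      exact Finset.sum_congr rfl fun k _ => by rw [cas]; ring
    have h2 : ∑ k ∈ lat R, ∑ l ∈ lat R, 2 * (w k * w l) * cos (ph a (k - l) x) =
        2 * ((∑ k ∈ lat R, w k * cos (ph a k x)) ^ 2 +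
          (∑ k ∈ lat R, w k * sin (ph a k x)) ^ 2) := by
      rw [sq, sq, Finset.sum_mul_sum, Finset.sum_mul_sum, ← Finset.sum_add_distrib, Finset.mul_sum]
      refine Finset.sum_congr rfl fun k _ => ?_
      rw [← Finset.sum_add_distrib, Finset.mul_sum]
      exact Finset.sum_congr rfl fun l _ => by rw [ph_sub, cos_sub]; ring
    rw [h1, h2]
    nlinarith [sq_nonneg (∑ k ∈ lat R, w k * cos (ph a k x) - ∑ k ∈ lat R, w k * sin (ph a k x))]
  have i1 : ∀ k l : Fin 3 → ℤ, IntegrableOn (fun x =>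
      2 * (w k * w l) * cos (ph a (k - l) x)) (univ.pi A) := fun k l => (int_cos hS a _).const_mul _
  have i0 : IntegrableOn (fun x => (∑ k ∈ lat R, w k * cas (ph a k x)) ^ 2) (univ.pi A) :=
    (integrable_finsetSum _ fun k _ => integrable_finsetSum _ fun l _ => i1 k l).mono'
      (Continuous.aestronglyMeasurable (by have := ph_cont a; have := cas_cont; fun_prop))
      (Filter.Eventually.of_forall fun x => by
        rw [Real.norm_of_nonneg (sq_nonneg _)]; exact e1 x)
  refine (integral_mono i0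
    (integrable_finsetSum _ fun k _ => integrable_finsetSum _ fun l _ => i1 k l) e1).trans ?_
  rw [integral_finsetSum _ fun k _ => integrable_finsetSum _ fun l _ => i1 k l]
  have e2 : ∀ k l : Fin 3 → ℤ, ∫ x in univ.pi A, 2 * (w k * w l) * cos (ph a (k - l) x) ≤
      (if ∀ j, j ≠ i → l j = k j then V * w k ^ 2 else 0) +
      (if ∀ j, j ≠ i → k j = l j then V * w l ^ 2 else 0) := by
    intro k l
    rw [integral_const_mul]
    by_cases h : ∀ j, j ≠ i → l j = k j
    · rw [if_pos h, if_pos fun j hj => (h j hj).symm]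
      have h1 : |∫ x in univ.pi A, cos (ph a (k - l) x)| ≤ 1 * V :=
        norm_setIntegral_le_of_norm_le_const (f := fun x => cos (ph a (k - l) x)) hS.lt_top
          fun x _ => abs_cos_le_one _
      have h2 := abs_le.1 h1
      nlinarith [mul_nonneg (sub_nonneg.2 h2.2) (sq_nonneg (w k + w l)),
        mul_nonneg (sub_nonneg.2 h2.1) (sq_nonneg (w k - w l))]
    · rw [if_neg h, if_neg fun h' => h fun j hj => (h' j hj).symm]
      push Not at h
      obtain ⟨j, hj, hne⟩ := h
      rw [(trig_box ha (k - l) A hS (hA j hj) (sub_ne_zero.2 hne.symm)).1]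
      simp
  have e3 : ∑ k ∈ lat R, ∑ l ∈ lat R, (if ∀ j, j ≠ i → l j = k j then V * w k ^ 2 else 0) ≤
      (2 * R + 1) * V * ∑ k ∈ lat R, w k ^ 2 := by
    rw [Finset.mul_sum]
    refine Finset.sum_le_sum fun k _ => ?_
    rw [← Finset.sum_filter, Finset.sum_const, nsmul_eq_mul, mul_assoc]
    exact mul_le_mul_of_nonneg_right (fiber_card hR k i) (by positivity)
  calc _ ≤ ∑ k ∈ lat R, ∑ l ∈ lat R, ((if ∀ j, j ≠ i → l j = k j then V * w k ^ 2 else 0) +
        (if ∀ j, j ≠ i → k j = l j then V * w l ^ 2 else 0)) :=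
        Finset.sum_le_sum fun k _ => by
          rw [integral_finsetSum _ fun l _ => i1 k l]
          exact Finset.sum_le_sum fun l _ => e2 k l
    _ ≤ _ := by
        simp only [Finset.sum_add_distrib]
        have := Finset.sum_comm (s := lat R) (t := lat R) (f := fun k l : Fin 3 → ℤ =>
          if ∀ j, j ≠ i → k j = l j then V * w l ^ 2 else 0)
        linarith

theorem shell_form {a R d : ℝ} (ha : 0 < a) (hR : 0 ≤ R) (hd : 0 ≤ d) (z : Fin 3 → ℝ)
    (w : (Fin 3 → ℤ) → ℝ) :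
    ∫ x in ball z a \ ball z (a - d), (∑ k ∈ lat R, w k * cas (ph a k x)) ^ 2 ≤
      12 * (2 * R + 1) * d * (2 * a) ^ 2 * ∑ k ∈ lat R, w k ^ 2 := by
  set A : Fin 3 → Fin 3 → Set ℝ := fun i j =>
    if j = i then Ioc (z j - a) (z j - a + d) ∪ Ico (z j + a - d) (z j + a)
    else Ioo (z j - a) (z j + a) with hA
  have hvol : ∀ i, volume (univ.pi (A i)) ≤ ENNReal.ofReal (2 * d * (2 * a) ^ 2) := fun i => by
    rw [volume_pi_pi, ← Finset.mul_prod_erase _ _ (Finset.mem_univ i),
      Finset.prod_congr rfl (g := fun _ => ENNReal.ofReal (2 * a)), Finset.prod_const,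
      Finset.card_erase_of_mem (Finset.mem_univ _),
      ENNReal.ofReal_mul (p := 2 * d) (by positivity), ENNReal.ofReal_pow (by positivity)]
    · refine mul_le_mul_left ?_ _
      simp only [hA, if_true]
      refine (measure_union_le _ _).trans (le_of_eq ?_)
      rw [Real.volume_Ioc, Real.volume_Ico, ← ENNReal.ofReal_add (by linarith) (by linarith)]
      congr 1; ring
    · intro j hj
      simp only [hA, if_neg (Finset.ne_of_mem_erase hj), Real.volume_Ioo]
      congr 1; ring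
  have hfin : ∀ i, volume (univ.pi (A i)) ≠ ⊤ := fun i =>
    ne_top_of_le_ne_top ENNReal.ofReal_ne_top (hvol i)
  have mA : ∀ i, MeasurableSet (univ.pi (A i)) := fun i => MeasurableSet.univ_pi fun j => by
    simp only [hA]; split_ifs
    · exact measurableSet_Ioc.union measurableSet_Ico
    · exact measurableSet_Ioo
  set F := fun x => (∑ k ∈ lat R, w k * cas (ph a k x)) ^ 2 with hF
  have cF : Continuous F := by have := ph_cont a; have := cas_cont; simp only [hF]; fun_prop
  have bF : ∀ x, ‖F x‖ ≤ (∑ k ∈ lat R, |w k| * 2) ^ 2 := fun x => by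
    rw [Real.norm_of_nonneg (sq_nonneg _), ← sq_abs]
    refine pow_le_pow_left₀ (abs_nonneg _) ((Finset.abs_sum_le_sum_abs _ _).trans
      (Finset.sum_le_sum fun k _ => ?_)) 2
    rw [abs_mul]
    refine mul_le_mul_of_nonneg_left ((abs_add_le _ _).trans ?_) (abs_nonneg _)
    linarith [abs_cos_le_one (ph a k x), abs_sin_le_one (ph a k x)]
  have iA : ∀ i, Integrable ((univ.pi (A i)).indicator F) := fun i =>
    (int_on (hfin i) cF _ bF).integrable_indicator (mA i)
  have mZ : MeasurableSet (ball z a \ ball z (a - d)) := measurableSet_ball.diff measurableSet_ball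
  have iZ : Integrable ((ball z a \ ball z (a - d)).indicator F) :=
    (int_on (ne_top_of_le_ne_top measure_ball_lt_top.ne (measure_mono sdiff_subset)) cF _
      bF).integrable_indicator mZ
  rw [← integral_indicator mZ]
  have hpt : ∀ x, (ball z a \ ball z (a - d)).indicator F x ≤
      ∑ i, (univ.pi (A i)).indicator F x := fun x => by
    have hnn : ∀ i, 0 ≤ (univ.pi (A i)).indicator F x := fun i =>
      indicator_nonneg (fun _ _ => sq_nonneg _) _
    by_cases hx : x ∈ ball z a \ ball z (a - d)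
    · rw [indicator_of_mem hx]
      have h1 : ∀ j, |x j - z j| < a := fun j => (dist_le_pi_dist x z j).trans_lt hx.1
      obtain ⟨i, hi⟩ : ∃ i, a - d ≤ |x i - z i| := by
        by_contra hcon
        push Not at hcon
        refine hx.2 (mem_ball.2 ((dist_pi_lt_iff ((abs_nonneg _).trans_lt (hcon 0))).2 hcon))
      have hm : x ∈ univ.pi (A i) := fun j _ => by
        have := abs_lt.1 (h1 j)
        simp only [hA]
        split_ifs with hj
        · subst hj
          rcases le_abs'.1 hi with h | h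
          · exact Or.inl ⟨by linarith, by linarith⟩
          · exact Or.inr ⟨by linarith, by linarith⟩
        · exact ⟨by linarith, by linarith⟩
      rw [← indicator_of_mem hm F]
      exact Finset.single_le_sum (fun i _ => hnn i) (Finset.mem_univ i)
    · rw [indicator_of_notMem hx]
      exact Finset.sum_nonneg fun i _ => hnn i
  refine (integral_mono iZ (integrable_finsetSum _ fun i _ => iA i) hpt).trans ?_
  rw [integral_finsetSum _ fun i _ => iA i]
  have hw : 0 ≤ ∑ k ∈ lat R, w k ^ 2 := Finset.sum_nonneg fun _ _ => sq_nonneg _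
  refine (Finset.sum_le_card_nsmul _ _
    (2 * (2 * R + 1) * (2 * d * (2 * a) ^ 2) * ∑ k ∈ lat R, w k ^ 2) fun i _ => ?_).trans
    (le_of_eq ?_)
  · rw [integral_indicator (mA i)]
    refine (slab_form ha hR z i (A i) (fun j hj => if_neg hj) (hfin i) w).trans ?_
    have : volume.real (univ.pi (A i)) ≤ 2 * d * (2 * a) ^ 2 :=
      ENNReal.toReal_le_of_le_ofReal (by positivity) (hvol i)
    gcongr
  · simp only [Finset.card_univ, Fintype.card_fin, nsmul_eq_mul]
    push_cast; ring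

theorem sum_odd {R : ℝ} (F : (Fin 3 → ℤ) → ℝ) (hF : ∀ k, F (-k) = -F k) :
    ∑ k ∈ lat R, F k = 0 := by
  have : ∑ k ∈ lat R, F k = ∑ k ∈ lat R, F (-k) :=
    Finset.sum_nbij' (fun k => -k) (fun k => -k) (fun k hk => neg_mem_lat hk)
      (fun k hk => neg_mem_lat hk) (fun k _ => neg_neg k) (fun k _ => neg_neg k)
      fun k _ => by rw [neg_neg]
  simp only [hF, Finset.sum_neg_distrib] at this
  linarith

theorem sum_cas_sq (a R : ℝ) (x : Fin 3 → ℝ) :
    ∑ k ∈ lat R, cas (ph a k x) ^ 2 = (lat R).card := by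
  have e : ∀ k, cas (ph a k x) ^ 2 = 1 + 2 * (sin (ph a k x) * cos (ph a k x)) := fun k => by
    rw [cas]; nlinarith [sin_sq_add_cos_sq (ph a k x)]
  simp only [e]
  rw [Finset.sum_add_distrib, sum_odd (fun k => 2 * (sin (ph a k x) * cos (ph a k x)))
    fun k => by rw [ph_neg, sin_neg, cos_neg]; ring]
  simp

theorem cas_deriv (a : ℝ) (k : Fin 3 → ℤ) (x : Fin 3 → ℝ) :
    DifferentiableAt ℝ (fun x => cas (ph a k x)) x ∧ ∀ j,
      fderiv ℝ (fun x => cas (ph a k x)) x (Pi.single j 1) =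
        π / a * k j * (cos (ph a k x) - sin (ph a k x)) := by
  have h1 : HasFDerivAt (ph a k) ((π / a) • ∑ i, (k i : ℝ) •
      (ContinuousLinearMap.proj i : (Fin 3 → ℝ) →L[ℝ] ℝ)) x :=
    (HasFDerivAt.fun_sum fun i _ => (hasFDerivAt_apply i x).const_mul (k i : ℝ)).const_mul (π / a)
  have h2 : HasDerivAt cas (-sin (ph a k x) + cos (ph a k x)) (ph a k x) :=
    (hasDerivAt_cos _).add (hasDerivAt_sin _)
  have h3 := h2.comp_hasFDerivAt x h1
  refine ⟨h3.differentiableAt, fun j => ?_⟩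
  rw [show fderiv ℝ (fun x => cas (ph a k x)) x = _ from h3.fderiv]
  simp [Pi.single_apply]
  ring

theorem sum_grad (a R : ℝ) (x : Fin 3 → ℝ) :
    ∑ j, ∑ k ∈ lat R, (π / a * k j * (cos (ph a k x) - sin (ph a k x))) ^ 2 =
      (π / a) ^ 2 * ∑ k ∈ lat R, ∑ j, (k j : ℝ) ^ 2 := by
  rw [Finset.sum_comm]
  have e : ∀ k : Fin 3 → ℤ, ∑ j, (π / a * k j * (cos (ph a k x) - sin (ph a k x))) ^ 2 =
      (π / a) ^ 2 * ∑ j, (k j : ℝ) ^ 2 -
        2 * (π / a) ^ 2 * (∑ j, (k j : ℝ) ^ 2) * (sin (ph a k x) * cos (ph a k x)) := fun k => by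
    have : (cos (ph a k x) - sin (ph a k x)) ^ 2 = 1 - 2 * (sin (ph a k x) * cos (ph a k x)) := by
      nlinarith [sin_sq_add_cos_sq (ph a k x)]
    simp only [mul_pow, this]
    rw [← Finset.sum_mul, ← Finset.mul_sum]
    ring
  simp only [e]
  rw [Finset.sum_sub_distrib, sum_odd
    (fun k => 2 * (π / a) ^ 2 * (∑ j, (k j : ℝ) ^ 2) * (sin (ph a k x) * cos (ph a k x)))
    fun k => by rw [ph_neg, sin_neg, cos_neg]; simp, sub_zero, Finset.mul_sum]

theorem cas_lip {a R : ℝ} (ha : 0 < a) {k : Fin 3 → ℤ} (hk : k ∈ lat R) (x y : Fin 3 → ℝ) :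
    |cas (ph a k y) - cas (ph a k x)| ≤ 6 * π * R / a * dist y x := by
  have h1 : |ph a k y - ph a k x| ≤ π / a * (3 * (R * dist y x)) := by
    rw [ph, ph, ← mul_sub, abs_mul, abs_of_pos (div_pos pi_pos ha), ← Finset.sum_sub_distrib]
    refine mul_le_mul_of_nonneg_left ((Finset.abs_sum_le_sum_abs _ _).trans ?_)
      (div_pos pi_pos ha).le
    refine (Finset.sum_le_card_nsmul _ _ (R * dist y x) fun i _ => ?_).trans (by simp)
    rw [← mul_sub, abs_mul]
    exact mul_le_mul (abs_le_of_mem_lat hk i) (dist_le_pi_dist y x i) (abs_nonneg _)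
      ((abs_nonneg _).trans (abs_le_of_mem_lat hk i))
  have h2 := abs_cos_sub_cos_le (ph a k y) (ph a k x)
  have h3 := abs_sin_sub_sin_le (ph a k y) (ph a k x)
  have h4 : cas (ph a k y) - cas (ph a k x) =
      (cos (ph a k y) - cos (ph a k x)) + (sin (ph a k y) - sin (ph a k x)) := by
    rw [cas, cas]; ring
  rw [h4]
  refine (abs_add_le _ _).trans ?_
  have : 6 * π * R / a * dist y x = 2 * (π / a * (3 * (R * dist y x))) := by ring
  linarith

end Pool.Agent.MP_2c73ad_mp.H67
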